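import Pool.Agent.MP_19b6be_gt.Santalo

set_option autoImplicit false
set_option linter.unusedSectionVars false

open scoped RealInnerProductSpace Real Topology Nat ENNReal
open MeasureTheory Module Filter Metric Function Set

namespace Pool.Agent.MP_19b6be_gt

variable {n : ℕ}

lemma det_adj (A : Eu n →ₗ[ℝ] Eu n) : LinearMap.det (LinearMap.adjoint A) = LinearMap.det A := by
  rw [← LinearMap.det_toMatrix (EuclideanSpace.basisFun (Fin n) ℝ).toBasis,
    LinearMap.toMatrix_adjoint, Matrix.det_conjTranspose, LinearMap.det_toMatrix, star_trivial]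

lemma funk_affine {B : Set (Eu n)} (hB : IsCompact B) {A : Eu n →ₗ[ℝ] Eu n}
    (hA : LinearMap.det A ≠ 0) (c u : Eu n) (ρ : ℝ) :
    funk {y | ∃ v ∈ B, y = c + A v} ρ (c + A u) = funk B ρ u := by
  have inj : Injective A := (A.equivOfDetNeZero hA).injective
  have hS : {y | ∃ z ∈ {y | ∃ v ∈ B, y = c + A v}, y = c + A u + ρ • (z - (c + A u))} =
      (fun v => c + A v) '' {y | ∃ z ∈ B, y = u + ρ • (z - u)} := by
    ext y
    constructor
    · rintro ⟨z, ⟨v, hv, rfl⟩, rfl⟩
      exact ⟨_, ⟨v, hv, rfl⟩, by simp [add_assoc]⟩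
    · rintro ⟨z, ⟨v, hv, rfl⟩, rfl⟩
      exact ⟨_, ⟨v, hv, rfl⟩, by simp [add_assoc]⟩
  have mS : MeasurableSet {y | ∃ z ∈ B, y = u + ρ • (z - u)} := by
    have : {y | ∃ z ∈ B, y = u + ρ • (z - u)} = (fun z => u + ρ • (z - u)) '' B := by
      ext y
      simp [eq_comm]
    rw [this]
    exact (hB.image (by fun_prop)).measurableSet
  rw [funk, funk, hS, lintegral_image_eq_lintegral_abs_det_fderiv_mul volume mS
    (f := fun v => c + A v) (f' := fun _ => LinearMap.toContinuousLinearMap A)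
    (fun x _ => ((LinearMap.toContinuousLinearMap A).hasFDerivAt.const_add c).hasFDerivWithinAt)
    (fun a _ b _ h => inj (add_left_cancel h))]
  refine lintegral_congr fun x => ?_
  have e : {w : Eu n | ∀ z ∈ {y | ∃ v ∈ B, y = c + A v}, ⟪w, z - (c + A x)⟫ ≤ 1} =
      LinearMap.adjoint A ⁻¹' {w | ∀ z ∈ B, ⟪w, z - x⟫ ≤ 1} := by
    ext w
    simp only [mem_preimage, mem_ofPred_eq, LinearMap.adjoint_inner_left, map_sub]
    constructor
    · intro h z hz
      simpa using h _ ⟨z, hz, rfl⟩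
    · rintro h _ ⟨z, hz, rfl⟩
      simpa using h z hz
  rw [e, Measure.addHaar_preimage_linearMap _ (by rwa [det_adj]), det_adj, ← mul_assoc,
    ← ENNReal.ofReal_mul (abs_nonneg _), ← abs_mul, LinearMap.det_toContinuousLinearMap,
    mul_inv_cancel₀ hA, abs_one, ENNReal.ofReal_one, one_mul]

end Pool.Agent.MP_19b6be_gt
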