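import Mathlib.CategoryTheory.Category.Init
import Mathlib.Tactic.Monotonicity.Lemmas
import Mathlib.Analysis.CStarAlgebra.Module.Constructions
import Mathlib.Analysis.Complex.RemovableSingularity
import Mathlib.Analysis.Complex.AbsMax
import Mathlib.Tactic.Algebra.Basic
import Mathlib.Algebra.Ring.IsFormallyReal
import Mathlib.Analysis.Fourier.LpSpace
import Mathlib.Analysis.Complex.PhragmenLindelof
import Mathlib.Analysis.SpecialFunctions.Trigonometric.DerivHyp
import Mathlib.RingTheory.PiTensorProduct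
import Mathlib.MeasureTheory.Function.SpecialFunctions.Inner
import Mathlib.Topology.Sheaves.Presheaf
import Mathlib.Algebra.Order.Antidiag.FinsuppEquiv
import Mathlib.Algebra.Order.Archimedean.Real.Hom
import Mathlib.RingTheory.PicardGroup
import Mathlib.Order.BourbakiWitt
import Mathlib.Order.CompletePartialOrder

-- ======== part 0: formerly Pool.Agent.MP_19b6be_gt.Peel
section MrgPart0

set_option autoImplicit false
set_option linter.unusedSectionVars false

open scoped InnerProductSpace Topology ComplexConjugate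
open Filter Metric Module

namespace Pool.Agent.MP_19b6be_gt

variable {ι H : Type*} [Fintype ι] [NormedAddCommGroup H] [InnerProductSpace ℂ H]

/-- The synthesis map of the family is a contraction. -/
def Bes (f : ι → H) : Prop := ∀ p : ι → ℂ, ‖∑ i, p i • f i‖ ^ 2 ≤ ∑ i, ‖p i‖ ^ 2

lemma Bes.dual {f : ι → H} (hf : Bes f) (v : H) : ∑ i, ‖⟪v, f i⟫_ℂ‖ ^ 2 ≤ ‖v‖ ^ 2 := by
  set s := ∑ i, ‖⟪v, f i⟫_ℂ‖ ^ 2 with hs
  have hs0 : 0 ≤ s := Finset.sum_nonneg fun i _ => sq_nonneg _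
  have h1 := hf fun i => conj ⟪v, f i⟫_ℂ
  simp only [RCLike.norm_conj] at h1
  set w := ∑ i, (conj ⟪v, f i⟫_ℂ) • f i with hw
  have h2 : ⟪v, w⟫_ℂ = (s : ℂ) := by
    rw [hw, inner_sum, hs]
    push_cast
    refine Finset.sum_congr rfl fun i _ => ?_
    rw [inner_smul_right, Complex.conj_mul']
  have h3 : s ≤ ‖v‖ * ‖w‖ := by
    have := norm_inner_le_norm (𝕜 := ℂ) v w
    rw [h2, Complex.norm_real, Real.norm_of_nonneg hs0] at this
    exact this
  have h4 : s ^ 2 ≤ ‖v‖ ^ 2 * s := by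
    calc s ^ 2 ≤ (‖v‖ * ‖w‖) ^ 2 := pow_le_pow_left₀ hs0 h3 2
      _ = ‖v‖ ^ 2 * ‖w‖ ^ 2 := by ring
      _ ≤ ‖v‖ ^ 2 * s := mul_le_mul_of_nonneg_left h1 (sq_nonneg _)
  rcases hs0.eq_or_lt with h | h
  · rw [← h]; exact sq_nonneg _
  · have : s * s ≤ ‖v‖ ^ 2 * s := by rw [← sq]; exact h4
    exact le_of_mul_le_mul_right this h

variable [FiniteDimensional ℂ H]

lemma Bes.proj {f : ι → H} (hf : Bes f) (S : Submodule ℂ H) :
    ∑ i, ‖S.starProjection (f i)‖ ^ 2 ≤ finrank ℂ S := by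
  let b := stdOrthonormalBasis ℂ S
  have h1 : ∀ x : H, ‖S.starProjection x‖ ^ 2 = ∑ k, ‖⟪(b k : H), x⟫_ℂ‖ ^ 2 := by
    intro x
    have := b.sum_sq_norm_inner_right (S.orthogonalProjectionOnto x)
    rw [Submodule.starProjection_apply, Submodule.coe_norm] at *
    rw [← this]
    refine Finset.sum_congr rfl fun k _ => ?_
    rw [Submodule.inner_orthogonalProjectionOnto_eq_of_mem_left]
  simp_rw [h1]
  rw [Finset.sum_comm]
  calc ∑ k, ∑ i, ‖⟪(b k : H), f i⟫_ℂ‖ ^ 2 ≤ ∑ k : Fin (finrank ℂ S), (1 : ℝ) := by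
        refine Finset.sum_le_sum fun k _ => (hf.dual _).trans ?_
        have : ‖(b k : H)‖ = 1 := by rw [← Submodule.coe_norm]; exact b.norm_eq_one k
        rw [this]; norm_num
    _ = finrank ℂ S := by simp

lemma Bes.total {f : ι → H} (hf : Bes f) : ∑ i, ‖f i‖ ^ 2 ≤ finrank ℂ H := by
  have := hf.proj ⊤
  simpa [Submodule.starProjection_top] using this

/-- `F ζ` is within `O(ζ ^ m)` of families of rank at most `d`. -/
def Near (F : ℂ → ι → H) (m d : ℕ) : Prop :=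
  ∃ C : ℝ, ∀ᶠ ζ in 𝓝[≠] (0 : ℂ), ∃ S : Submodule ℂ H, finrank ℂ S ≤ d ∧
    ∀ i, ∃ g ∈ S, ‖F ζ i - g‖ ≤ C * ‖ζ‖ ^ m

lemma rank_zero_le {F : ℂ → ι → H} {d : ℕ} (hc : ∀ i, ContinuousAt (fun ζ => F ζ i) 0)
    (h : Near F 1 d) : finrank ℂ (Submodule.span ℂ (Set.range (F 0))) ≤ d := by
  obtain ⟨κ, a, ha, hsp, hli⟩ := exists_linearIndependent' ℂ (F 0)
  have : Finite κ := Finite.of_injective a ha
  have := Fintype.ofFinite κ
  rw [← hsp, finrank_span_eq_card hli]
  obtain ⟨C, hC⟩ := h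
  have hop := (isOpen_setOfPred_linearIndependent (𝕜 := ℂ) (E := H) (ι := κ)).mem_nhds hli
  obtain ⟨ε, hε, hball⟩ := Metric.mem_nhds_iff.1 hop
  have h1 : ∀ᶠ ζ in 𝓝[≠] (0 : ℂ), ∀ i, ‖F ζ i - F 0 i‖ < ε / 2 := by
    refine nhdsWithin_le_nhds (eventually_all.2 fun i => ?_)
    have := (hc i).eventually (Metric.ball_mem_nhds (F 0 i) (half_pos hε))
    simpa [dist_eq_norm] using this
  have h2 : ∀ᶠ ζ in 𝓝[≠] (0 : ℂ), C * ‖ζ‖ ^ 1 < ε / 2 := by
    refine nhdsWithin_le_nhds ?_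
    have : ContinuousAt (fun ζ : ℂ => C * ‖ζ‖ ^ 1) 0 := by fun_prop
    exact this.eventually (gt_mem_nhds (by simpa using half_pos hε))
  obtain ⟨ζ, ⟨S, hS, hg⟩, h1', h2'⟩ := (hC.and (h1.and h2)).exists
  choose g hgS hgn using hg
  have hli' : LinearIndependent ℂ (fun k => g (a k)) := by
    apply hball
    rw [mem_ball, dist_pi_lt_iff hε]
    intro k
    rw [dist_eq_norm]
    calc ‖g (a k) - (F 0 ∘ a) k‖ = ‖(F ζ (a k) - F 0 (a k)) - (F ζ (a k) - g (a k))‖ := by
          congr 1; simp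
      _ ≤ ‖F ζ (a k) - F 0 (a k)‖ + ‖F ζ (a k) - g (a k)‖ := norm_sub_le _ _
      _ < ε := by linarith [h1' (a k), hgn (a k)]
  have hli'' : LinearIndependent ℂ (fun k => (⟨g (a k), hgS _⟩ : S)) :=
    LinearIndependent.of_comp S.subtype hli'
  exact hli''.fintype_card_le_finrank.trans hS

lemma norm_mix (S : Submodule ℂ H) (c : ℂ) (x : H) :
    ‖S.starProjection x + c • Sᗮ.starProjection x‖ ^ 2 =
      ‖S.starProjection x‖ ^ 2 + ‖c‖ ^ 2 * ‖Sᗮ.starProjection x‖ ^ 2 := by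
  have h : ⟪S.starProjection x, c • Sᗮ.starProjection x⟫_ℂ = 0 := by
    rw [inner_smul_right, Submodule.inner_right_of_mem_orthogonal (S.starProjection_apply_mem x)
      (Sᗮ.starProjection_apply_mem x), mul_zero]
  have := norm_add_sq_eq_norm_sq_add_norm_sq_of_inner_eq_zero _ _ h
  rw [sq, this, norm_smul]; ring

lemma norm_mix_le (S : Submodule ℂ H) {c : ℂ} (hc : 1 ≤ ‖c‖) (x : H) :
    ‖S.starProjection x + c • Sᗮ.starProjection x‖ ≤ ‖c‖ * ‖x‖ := by
  refine (sq_le_sq₀ (norm_nonneg _) (by positivity)).1 ?_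
  rw [norm_mix, mul_pow, S.norm_sq_eq_add_norm_sq_starProjection x]
  have h1 : 1 ≤ ‖c‖ ^ 2 := one_le_pow₀ hc
  have := mul_le_mul_of_nonneg_right h1 (sq_nonneg ‖S.starProjection x‖)
  linarith

/-- Division by one Blaschke-Potapov factor. -/
noncomputable def peel (S : Submodule ℂ H) (F : ℂ → ι → H) (ζ : ℂ) (i : ι) : H :=
  S.starProjection (F ζ i) + Sᗮ.starProjection (dslope (fun z => F z i) 0 ζ)

lemma peel_ne {S : Submodule ℂ H} {F : ℂ → ι → H} (h0 : ∀ i, F 0 i ∈ S) {ζ : ℂ} (hζ : ζ ≠ 0)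
    (i : ι) : peel S F ζ i = S.starProjection (F ζ i) + ζ⁻¹ • Sᗮ.starProjection (F ζ i) := by
  rw [peel, dslope_of_ne _ hζ, slope_def_module, sub_zero, map_smul, map_sub,
    Submodule.starProjection_orthogonal_apply_eq_zero (h0 i), sub_zero]

lemma peel_diff (S : Submodule ℂ H) {F : ℂ → ι → H}
    (hd : ∀ i, DifferentiableOn ℂ (fun ζ => F ζ i) (ball 0 1)) (i : ι) :
    DifferentiableOn ℂ (fun ζ => peel S F ζ i) (ball 0 1) := by
  have h1 := (Complex.differentiableOn_dslope (ball_mem_nhds (0 : ℂ) one_pos)).2 (hd i)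
  exact (S.starProjection.differentiable.comp_differentiableOn (hd i)).add
    (Sᗮ.starProjection.differentiable.comp_differentiableOn h1)

lemma peel_bes {S : Submodule ℂ H} {F : ℂ → ι → H} (h0 : ∀ i, F 0 i ∈ S)
    (hd : ∀ i, DifferentiableOn ℂ (fun ζ => F ζ i) (ball 0 1))
    (hb : ∀ ζ ∈ ball (0 : ℂ) 1, Bes (F ζ)) : ∀ ζ ∈ ball (0 : ℂ) 1, Bes (peel S F ζ) := by
  intro ζ hζ p
  set s := ∑ i, ‖p i‖ ^ 2 with hs
  have hs0 : 0 ≤ s := Finset.sum_nonneg fun i _ => sq_nonneg _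
  set Φ : ℂ → H := fun z => ∑ i, p i • peel S F z i with hΦ
  have hΦd : DifferentiableOn ℂ Φ (ball 0 1) :=
    DifferentiableOn.fun_sum fun i _ => (peel_diff S hd i).const_smul (p i)
  have hζ1 : ‖ζ‖ < 1 := by simpa using hζ
  have key : ∀ r : ℝ, ‖ζ‖ < r → r < 1 → ‖Φ ζ‖ ≤ r⁻¹ * √s := by
    intro r h1 h2
    have hr : 0 < r := lt_of_le_of_lt (norm_nonneg _) h1
    refine Complex.norm_le_of_forall_mem_frontier_norm_le (U := ball (0 : ℂ) r) isBounded_ball
      ?_ ?_ (subset_closure (by simpa using h1))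
    · refine DifferentiableOn.diffContOnCl ?_
      rw [closure_ball _ hr.ne']
      exact hΦd.mono (closedBall_subset_ball h2)
    · intro z hz
      rw [frontier_ball _ hr.ne'] at hz
      have hz' : ‖z‖ = r := by simpa using hz
      have hz0 : z ≠ 0 := by
        rintro rfl
        rw [norm_zero] at hz'; exact hr.ne hz'
      have e : Φ z = S.starProjection (∑ i, p i • F z i) +
          z⁻¹ • Sᗮ.starProjection (∑ i, p i • F z i) := by
        simp only [hΦ, peel_ne h0 hz0, map_sum, map_smul, smul_add, Finset.sum_add_distrib,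
          Finset.smul_sum, smul_comm z⁻¹]
      have hi : ‖z⁻¹‖ = r⁻¹ := by rw [norm_inv, hz']
      rw [e]
      refine (norm_mix_le S (by rw [hi]; exact (one_le_inv₀ hr).2 h2.le) _).trans ?_
      rw [hi]
      refine mul_le_mul_of_nonneg_left ?_ (by positivity)
      exact Real.le_sqrt_of_sq_le (hb z (by simpa [hz'] using h2) p)
  have lim : Tendsto (fun r : ℝ => r⁻¹ * √s) (𝓝[<] 1) (𝓝 ((1 : ℝ)⁻¹ * √s)) := by
    refine tendsto_nhdsWithin_of_tendsto_nhds ?_
    exact ((continuousAt_inv₀ one_ne_zero).tendsto).mul_const _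
  have h3 : ‖Φ ζ‖ ≤ (1 : ℝ)⁻¹ * √s := by
    refine ge_of_tendsto lim ?_
    filter_upwards [Ioo_mem_nhdsLT hζ1] with r hr using key r hr.1 hr.2
  rw [inv_one, one_mul] at h3
  calc ‖Φ ζ‖ ^ 2 ≤ √s ^ 2 := pow_le_pow_left₀ (norm_nonneg _) h3 2
    _ = s := Real.sq_sqrt hs0

lemma peel_near {S : Submodule ℂ H} {F : ℂ → ι → H} (h0 : ∀ i, F 0 i ∈ S) {m d : ℕ}
    (h : Near F (m + 1) d) : Near (peel S F) m d := by
  obtain ⟨C, hC⟩ := h
  refine ⟨C, ?_⟩
  have h1 : ∀ᶠ ζ in 𝓝[≠] (0 : ℂ), ‖ζ‖ < 1 := by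
    refine nhdsWithin_le_nhds ?_
    filter_upwards [ball_mem_nhds (0 : ℂ) one_pos] with z hz using by simpa using hz
  filter_upwards [hC, h1, self_mem_nhdsWithin] with ζ ⟨T, hT, hg⟩ hζ1 hζ0
  have hζ0' : ζ ≠ 0 := hζ0
  let A : H →L[ℂ] H := S.starProjection + ζ⁻¹ • Sᗮ.starProjection
  refine ⟨T.map (A : H →ₗ[ℂ] H), (Submodule.finrank_map_le _ _).trans hT, fun i => ?_⟩
  obtain ⟨g, hgT, hg⟩ := hg i
  refine ⟨A g, Submodule.mem_map_of_mem hgT, ?_⟩
  have hp : 0 < ‖ζ‖ := norm_pos_iff.2 hζ0'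
  have e : peel S F ζ i - A g =
      S.starProjection (F ζ i - g) + ζ⁻¹ • Sᗮ.starProjection (F ζ i - g) := by
    rw [peel_ne h0 hζ0']
    simp only [A, add_apply, smul_apply, map_sub,
      smul_sub]
    abel
  rw [e]
  refine (norm_mix_le S (by rw [norm_inv]; exact (one_le_inv₀ hp).2 hζ1.le) _).trans ?_
  rw [norm_inv]
  calc ‖ζ‖⁻¹ * ‖F ζ i - g‖ ≤ ‖ζ‖⁻¹ * (C * ‖ζ‖ ^ (m + 1)) :=
        mul_le_mul_of_nonneg_left hg (by positivity)
    _ = C * ‖ζ‖ ^ m := by field_simp; ring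

lemma peel_sum {S : Submodule ℂ H} {F : ℂ → ι → H} (h0 : ∀ i, F 0 i ∈ S) (β : ℂ) (i : ι) :
    ‖F β i‖ ^ 2 = ‖β‖ ^ 2 * ‖peel S F β i‖ ^ 2 +
      (1 - ‖β‖ ^ 2) * ‖S.starProjection (peel S F β i)‖ ^ 2 := by
  have e1 : S.starProjection (peel S F β i) = S.starProjection (F β i) := by
    rw [peel, map_add, Submodule.starProjection_eq_self_iff.2 (S.starProjection_apply_mem _),
      (S.starProjection_apply_eq_zero_iff).2 (Sᗮ.starProjection_apply_mem _), add_zero]
  have e2 : Sᗮ.starProjection (F β i) = β • Sᗮ.starProjection (peel S F β i) := by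
    rw [peel, map_add, Submodule.starProjection_orthogonal_apply_eq_zero
      (S.starProjection_apply_mem _), zero_add,
      Submodule.starProjection_eq_self_iff.2 (Sᗮ.starProjection_apply_mem _), ← map_smul]
    have := sub_smul_dslope (fun z => F z i) 0 β
    rw [sub_zero] at this
    rw [this, map_sub, Submodule.starProjection_orthogonal_apply_eq_zero (h0 i), sub_zero]
  rw [S.norm_sq_eq_add_norm_sq_starProjection (F β i),
    S.norm_sq_eq_add_norm_sq_starProjection (peel S F β i), e2, e1, norm_smul]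
  ring

/-- Hilbert-Schmidt bound for a contractive analytic family with prescribed Taylor ranks. -/
theorem peel_bound (Q : ℕ) : ∀ (F : ℂ → ι → H) (D : ℕ → ℕ),
    (∀ i, DifferentiableOn ℂ (fun ζ => F ζ i) (ball 0 1)) →
    (∀ ζ ∈ ball (0 : ℂ) 1, Bes (F ζ)) → (∀ q, Near F (q + 1) (D q)) →
    ∀ β ∈ ball (0 : ℂ) 1, ∑ i, ‖F β i‖ ^ 2 ≤
      (1 - ‖β‖ ^ 2) * ∑ q ∈ Finset.range Q, (‖β‖ ^ 2) ^ q * D q +
        (‖β‖ ^ 2) ^ Q * finrank ℂ H := by
  induction Q with
  | zero =>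
    intro F D _ hb _ β hβ
    simpa using (hb β hβ).total
  | succ Q ih =>
    intro F D hd hb hn β hβ
    set S := Submodule.span ℂ (Set.range (F 0)) with hS
    have h0 : ∀ i, F 0 i ∈ S := fun i => Submodule.subset_span ⟨i, rfl⟩
    have hr : finrank ℂ S ≤ D 0 :=
      rank_zero_le (fun i => ((hd i).differentiableAt (ball_mem_nhds _ one_pos)).continuousAt)
        (hn 0)
    have hb' := peel_bes h0 hd hb
    have h1 := ih (peel S F) (fun q => D (q + 1)) (peel_diff S hd) hb'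
      (fun q => peel_near h0 (hn (q + 1))) β hβ
    have h2 : ∑ i, ‖S.starProjection (peel S F β i)‖ ^ 2 ≤ D 0 :=
      ((hb' β hβ).proj S).trans (by exact_mod_cast hr)
    have hβ1 : ‖β‖ < 1 := by simpa using hβ
    set s := ‖β‖ ^ 2 with hs
    have hs0 : 0 ≤ s := sq_nonneg _
    have hs1 : 0 ≤ 1 - s := by
      have := pow_le_one₀ (n := 2) (norm_nonneg β) hβ1.le
      linarith
    have e : ∑ i, ‖F β i‖ ^ 2 = s * ∑ i, ‖peel S F β i‖ ^ 2 +
        (1 - s) * ∑ i, ‖S.starProjection (peel S F β i)‖ ^ 2 := by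
      rw [Finset.mul_sum, Finset.mul_sum, ← Finset.sum_add_distrib]
      exact Finset.sum_congr rfl fun i _ => peel_sum h0 β i
    rw [e, Finset.sum_range_succ']
    have e2 : ∑ q ∈ Finset.range Q, s ^ (q + 1) * (D (q + 1) : ℝ) =
        s * ∑ q ∈ Finset.range Q, s ^ q * (D (q + 1) : ℝ) := by
      rw [Finset.mul_sum]
      exact Finset.sum_congr rfl fun q _ => by ring
    rw [e2]
    have a1 := mul_le_mul_of_nonneg_left h1 hs0
    have a2 := mul_le_mul_of_nonneg_left h2 hs1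
    rw [pow_zero, one_mul, pow_succ s Q]
    linarith

end Pool.Agent.MP_19b6be_gt

end MrgPart0

-- ======== part 1: formerly Pool.Agent.MP_19b6be_gt.Planch
section MrgPart1

set_option autoImplicit false

open scoped RealInnerProductSpace FourierTransform Real ContDiff SchwartzMap
open MeasureTheory Module

namespace Pool.Agent.MP_19b6be_gt

variable {E : Type*} [NormedAddCommGroup E] [InnerProductSpace ℝ E] [FiniteDimensional ℝ E]
  [MeasurableSpace E] [BorelSpace E]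

lemma L2_norm_sq (f : Lp (α := E) ℂ 2) : ‖f‖ ^ 2 = ∫ x, ‖f x‖ ^ 2 := by
  have h := congr_arg RCLike.re (L2.inner_def (𝕜 := ℂ) f f)
  rw [← integral_re (L2.integrable_inner f f)] at h
  rw [← inner_self_eq_norm_sq (𝕜 := ℂ), h]
  simp_rw [inner_self_eq_norm_sq (𝕜 := ℂ)]

lemma fourier_ae_eq {U : E → ℂ} (h1 : Integrable U) (h2 : MemLp U 2) :
    (𝓕 U : E → ℂ) =ᵐ[volume] (𝓕 (h2.toLp U) : Lp (α := E) ℂ 2) := by
  have hc : Continuous (𝓕 U : E → ℂ) :=
    VectorFourier.fourierIntegral_continuous Real.continuous_fourierChar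
      (innerSL ℝ).continuous₂ h1
  refine ae_eq_of_integral_contDiff_smul_eq hc.locallyIntegrable
    ((Lp.memLp _).locallyIntegrable (by norm_num)) fun g hg hgc => ?_
  have hg' : ContDiff ℝ ∞ (fun x => (g x : ℂ)) := Complex.ofRealCLM.contDiff.comp hg
  have hgc' : HasCompactSupport (fun x => (g x : ℂ)) := hgc.comp_left (g := fun t : ℝ => (t : ℂ)) rfl
  let G : 𝓢(E, ℂ) := hgc'.toSchwartzMap hg'
  have hG : ∀ x, G x = (g x : ℂ) := fun x => rfl
  have e1 := congr_arg (fun T => T G) (Lp.fourier_toTemperedDistribution_eq (h2.toLp U))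
  simp only [TemperedDistribution.fourier_apply, Lp.toTemperedDistribution_apply] at e1
  have e2 := VectorFourier.integral_fourierIntegral_smul_eq_flip (L := innerₗ E)
    (μ := volume) (ν := volume) Real.continuous_fourierChar continuous_inner G.integrable h1
  have e3 : ∫ x, (𝓕 G) x • (h2.toLp U) x = ∫ x, (𝓕 G) x • U x := by
    refine integral_congr_ae ?_
    filter_upwards [h2.coeFn_toLp] with x hx
    rw [hx]
  rw [flip_innerₗ] at e2
  calc ∫ x, g x • (𝓕 U : E → ℂ) x = ∫ x, G x • (𝓕 U : E → ℂ) x := by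
        simp_rw [hG, Complex.real_smul, smul_eq_mul]
    _ = ∫ x, (𝓕 G) x • U x := e2.symm
    _ = _ := by
        rw [← e3, e1]
        simp_rw [hG, Complex.real_smul, smul_eq_mul]

lemma plancherel {U : E → ℂ} (h1 : Integrable U) (h2 : MemLp U 2) :
    Integrable (fun ξ => ‖(𝓕 U : E → ℂ) ξ‖ ^ 2) ∧
      ∫ ξ, ‖(𝓕 U : E → ℂ) ξ‖ ^ 2 = ∫ x, ‖U x‖ ^ 2 := by
  have hae := fourier_ae_eq h1 h2
  have hm : MemLp (𝓕 U : E → ℂ) 2 := (Lp.memLp _).ae_eq hae.symm
  refine ⟨(memLp_two_iff_integrable_sq_norm hm.1).1 hm, ?_⟩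
  calc ∫ ξ, ‖(𝓕 U : E → ℂ) ξ‖ ^ 2 = ∫ ξ, ‖(𝓕 (h2.toLp U) : Lp ℂ 2 (volume : Measure E)) ξ‖ ^ 2 := by
        refine integral_congr_ae ?_
        filter_upwards [hae] with x hx
        rw [hx]
    _ = ‖h2.toLp U‖ ^ 2 := by rw [← L2_norm_sq, Lp.norm_fourier_eq]
    _ = _ := by
        rw [L2_norm_sq]
        refine integral_congr_ae ?_
        filter_upwards [h2.coeFn_toLp] with x hx
        rw [hx]

/-- The bilinear form with kernel `exp (i t ⟪x, y⟫)` on `L²`. -/
lemma osc_bound {U V : E → ℂ} (h1 : Integrable U) (h2 : MemLp U 2) (h3 : MemLp V 2) {t k : ℝ}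
    (ht : t ≠ 0) (hk : 0 ≤ k) (hk2 : k ^ 2 = (|t| / (2 * π)) ^ finrank ℝ E) :
    k * ‖∫ y, V y * ∫ x, U x * Complex.exp ((t * ⟪x, y⟫ : ℝ) * Complex.I)‖ ≤
      ((∫ x, ‖U x‖ ^ 2) + ∫ y, ‖V y‖ ^ 2) / 2 := by
  set s : ℝ := -(t / (2 * π)) with hs
  have hs0 : s ≠ 0 := by
    rw [hs]; exact neg_ne_zero.2 (div_ne_zero ht (by positivity))
  have e : ∀ y, ∫ x, U x * Complex.exp ((t * ⟪x, y⟫ : ℝ) * Complex.I) =
      (𝓕 U : E → ℂ) (s • y) := by
    intro y
    rw [Real.fourier_eq']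
    refine integral_congr_ae (Filter.Eventually.of_forall fun x => ?_)
    have : -2 * π * ⟪x, s • y⟫ = t * ⟪x, y⟫ := by
      rw [inner_smul_right, hs]; field_simp
    beta_reduce
    rw [this, smul_eq_mul, mul_comm]
  simp_rw [e]
  obtain ⟨p1, p2⟩ := plancherel h1 h2
  have p3 : Integrable (fun y => ‖(𝓕 U : E → ℂ) (s • y)‖ ^ 2) := p1.comp_smul hs0
  have p4 : k ^ 2 * ∫ y, ‖(𝓕 U : E → ℂ) (s • y)‖ ^ 2 = ∫ x, ‖U x‖ ^ 2 := by
    rw [Measure.integral_comp_smul volume (fun ξ => ‖(𝓕 U : E → ℂ) ξ‖ ^ 2) s, p2, hk2, abs_inv,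
      abs_pow, hs, abs_neg, abs_div, abs_of_pos (a := 2 * π) (by positivity), smul_eq_mul,
      mul_inv_cancel_left₀]
    exact pow_ne_zero _ (div_ne_zero (abs_ne_zero.2 ht) (by positivity))
  have q1 := (memLp_two_iff_integrable_sq_norm h3.1).1 h3
  have q2 : Integrable (fun y => (k ^ 2 * ‖(𝓕 U : E → ℂ) (s • y)‖ ^ 2 + ‖V y‖ ^ 2) / 2) :=
    ((p3.const_mul _).add q1).div_const 2
  calc k * ‖∫ y, V y * (𝓕 U : E → ℂ) (s • y)‖
      = ‖∫ y, (k : ℂ) * (V y * (𝓕 U : E → ℂ) (s • y))‖ := by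
        rw [integral_const_mul, norm_mul, Complex.norm_real, Real.norm_of_nonneg hk]
    _ ≤ ∫ y, (k ^ 2 * ‖(𝓕 U : E → ℂ) (s • y)‖ ^ 2 + ‖V y‖ ^ 2) / 2 := by
        refine norm_integral_le_of_norm_le q2 (Filter.Eventually.of_forall fun y => ?_)
        rw [norm_mul, norm_mul, Complex.norm_real, Real.norm_of_nonneg hk]
        nlinarith [sq_nonneg (k * ‖(𝓕 U : E → ℂ) (s • y)‖ - ‖V y‖)]
    _ = _ := by
        rw [integral_div, integral_add (p3.const_mul _) q1, integral_const_mul, p4]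

end Pool.Agent.MP_19b6be_gt

end MrgPart1

-- ======== part 2: formerly Pool.Agent.MP_19b6be_gt.Strip
section MrgPart2

set_option autoImplicit false
set_option linter.unusedSectionVars false

open scoped RealInnerProductSpace Real Topology
open MeasureTheory Module Filter Metric Complex

namespace Pool.Agent.MP_19b6be_gt

lemma diff_int {α : Type*} [MeasurableSpace α] (μ : Measure α) {W : α → ℂ} (hW : Integrable W μ)
    {s t : α → ℝ} (hs : Measurable s) (ht : Measurable t) {M : ℝ}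
    (hb : ∀ z, W z ≠ 0 → |s z| ≤ M ∧ |t z| ≤ M) :
    Differentiable ℂ (fun w : ℂ => ∫ z, W z * exp (-cosh w * s z + sinh w * t z) ∂μ) := by
  intro w₀
  obtain ⟨B1, hB1⟩ := (isCompact_closedBall w₀ 1).exists_bound_of_continuousOn
    continuous_cosh.continuousOn
  obtain ⟨B2, hB2⟩ := (isCompact_closedBall w₀ 1).exists_bound_of_continuousOn
    continuous_sinh.continuousOn
  have lin : ∀ (a b : ℂ) (A B : ℝ) (z : α), W z ≠ 0 → ‖a‖ ≤ A → ‖b‖ ≤ B →
      ‖a * s z + b * t z‖ ≤ (A + B) * M := by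
    intro a b A B z hz ha hb'
    obtain ⟨h1, h2⟩ := hb z hz
    refine (norm_add_le _ _).trans ?_
    rw [norm_mul, norm_mul, norm_real, norm_real, Real.norm_eq_abs, Real.norm_eq_abs, add_mul]
    exact add_le_add (mul_le_mul ha h1 (abs_nonneg _) ((norm_nonneg _).trans ha))
      (mul_le_mul hb' h2 (abs_nonneg _) ((norm_nonneg _).trans hb'))
  have ex : ∀ w ∈ closedBall w₀ 1, ∀ z, W z ≠ 0 →
      ‖exp (-cosh w * s z + sinh w * t z)‖ ≤ Real.exp ((B1 + B2) * M) := by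
    intro w hw z hz
    refine (norm_exp_le_exp_norm _).trans (Real.exp_le_exp.2 ?_)
    exact lin _ _ _ _ z hz (by rw [norm_neg]; exact hB1 w hw) (hB2 w hw)
  have me : ∀ w : ℂ, AEStronglyMeasurable (fun z => exp (-cosh w * s z + sinh w * t z)) μ :=
    fun w => (by fun_prop : Measurable _).aestronglyMeasurable
  refine (hasDerivAt_integral_of_dominated_loc_of_deriv_le (μ := μ) (closedBall_mem_nhds w₀ one_pos)
    (F := fun w z => W z * exp (-cosh w * s z + sinh w * t z))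
    (F' := fun w z => W z * (exp (-cosh w * s z + sinh w * t z) *
      (-sinh w * s z + cosh w * t z)))
    (bound := fun z => ‖W z‖ * (Real.exp ((B1 + B2) * M) * ((B2 + B1) * M)))
    (Eventually.of_forall fun w => hW.1.mul (me w)) ?_ ?_ ?_ (hW.norm.mul_const _) ?_).2.differentiableAt
  · refine (hW.norm.mul_const (Real.exp ((B1 + B2) * M))).mono' (hW.1.mul (me w₀))
      (Eventually.of_forall fun z => ?_)
    by_cases hz : W z = 0
    · simp [hz]
    · rw [norm_mul]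
      exact mul_le_mul_of_nonneg_left (ex w₀ (mem_closedBall_self zero_le_one) z hz)
        (norm_nonneg _)
  · exact hW.1.mul ((me w₀).mul (by fun_prop : Measurable _).aestronglyMeasurable)
  · refine Eventually.of_forall fun z w hw => ?_
    by_cases hz : W z = 0
    · simp [hz]
    · rw [norm_mul, norm_mul]
      refine mul_le_mul_of_nonneg_left (mul_le_mul (ex w hw z hz) ?_ (norm_nonneg _)
        (Real.exp_pos _).le) (norm_nonneg _)
      exact lin _ _ _ _ z hz (by rw [norm_neg]; exact hB2 w hw) (hB1 w hw)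
  · refine Eventually.of_forall fun z w _ => ?_
    exact ((((hasDerivAt_cosh w).neg.mul_const (s z : ℂ)).add
      ((hasDerivAt_sinh w).mul_const (t z : ℂ))).cexp).const_mul (W z)

lemma cosh_parts (w : ℂ) :
    cosh w = (Real.cosh w.re * Real.cos w.im : ℝ) + (Real.sinh w.re * Real.sin w.im : ℝ) * I := by
  conv_lhs => rw [← re_add_im w]
  rw [cosh_add, cosh_mul_I, sinh_mul_I]
  push_cast; ring

lemma sinh_parts (w : ℂ) :
    sinh w = (Real.sinh w.re * Real.cos w.im : ℝ) + (Real.cosh w.re * Real.sin w.im : ℝ) * I := by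
  conv_lhs => rw [← re_add_im w]
  rw [sinh_add, cosh_mul_I, sinh_mul_I]
  push_cast; ring

lemma norm_ker_le {w : ℂ} (hw : |w.im| ≤ π / 2) {s t : ℝ} (h : |t| ≤ s) :
    ‖exp (-cosh w * s + sinh w * t)‖ ≤ 1 := by
  rw [norm_exp, Real.exp_le_one_iff, cosh_parts w, sinh_parts w]
  have hc : 0 ≤ Real.cos w.im := Real.cos_nonneg_of_mem_Icc (abs_le.1 hw)
  have h1 : Real.sinh w.re * t ≤ Real.cosh w.re * s := by
    have a : |Real.sinh w.re| ≤ Real.cosh w.re := by
      rw [abs_le]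
      constructor
      · have := Real.sinh_lt_cosh (-w.re)
        rw [Real.sinh_neg, Real.cosh_neg] at this
        linarith
      · exact (Real.sinh_lt_cosh _).le
    calc Real.sinh w.re * t ≤ |Real.sinh w.re * t| := le_abs_self _
      _ = |Real.sinh w.re| * |t| := abs_mul _ _
      _ ≤ _ := mul_le_mul a h (abs_nonneg _) (Real.cosh_pos _).le
  have := mul_le_mul_of_nonneg_left h1 hc
  simp only [add_re, mul_re, neg_re, ofReal_re, ofReal_im, I_re, I_im, mul_zero, mul_one,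
    sub_zero, add_zero, mul_im, neg_im, add_im, zero_add, sub_self]
  linarith

lemma norm_cosh_le (w : ℂ) : ‖cosh w‖ ≤ Real.exp |w.re| := by
  rw [cosh, norm_div]
  have h1 : ‖exp w‖ ≤ Real.exp |w.re| := by
    rw [norm_exp]; exact Real.exp_le_exp.2 (le_abs_self _)
  have h2 : ‖exp (-w)‖ ≤ Real.exp |w.re| := by
    rw [norm_exp, neg_re]; exact Real.exp_le_exp.2 (neg_le_abs _)
  have := norm_add_le (exp w) (exp (-w))
  rw [Complex.norm_ofNat]
  linarith

lemma norm_cosh_half {w : ℂ} (hc : Real.cos w.im = 0) :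
    ‖cosh (w / 2)‖ ^ 2 = Real.cosh w.re / 2 := by
  have h1 : cosh (w / 2) ^ 2 = (1 + cosh w) / 2 := by
    have := cosh_two_mul (w / 2)
    rw [mul_div_cancel₀ w two_ne_zero] at this
    have h2 := cosh_sq (w / 2)
    linear_combination (-1 / 2 : ℂ) * this + (1 / 2 : ℂ) * h2
  have hs : Real.sin w.im ^ 2 = 1 := by
    have := Real.sin_sq_add_cos_sq w.im
    rw [hc] at this; linarith
  rw [← norm_pow, h1, norm_div, Complex.norm_ofNat, cosh_parts w, hc, mul_zero]
  congr 1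
  have : (1 : ℂ) + (((0 : ℝ) : ℂ) + (Real.sinh w.re * Real.sin w.im : ℝ) * I) =
      ((1 : ℝ) : ℂ) + (Real.sinh w.re * Real.sin w.im : ℝ) * I := by simp
  rw [this, norm_add_mul_I, mul_pow, hs, mul_one, one_pow, ← Real.cosh_sq',
    Real.sqrt_sq (Real.cosh_pos _).le]

variable {E : Type*} [NormedAddCommGroup E] [InnerProductSpace ℝ E] [FiniteDimensional ℝ E]
  [MeasurableSpace E] [BorelSpace E]

/-- The analytic family of kernels. -/
noncomputable def ker (l : ℝ) (P Q : E → ℝ) (w : ℂ) (z : E × E) : ℂ :=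
  exp (-cosh w * (l * (P z.1 + Q z.2) : ℝ) + sinh w * (l * ⟪z.1, z.2⟫ : ℝ))

lemma ker_cont (l : ℝ) {P Q : E → ℝ} (hP : Continuous P) (hQ : Continuous Q) (w : ℂ) :
    Continuous (ker l P Q w) := by
  unfold ker; fun_prop

lemma ker_norm_le {l : ℝ} (hl : 0 ≤ l) {P Q : E → ℝ} (hPQ : ∀ x y, |⟪x, y⟫| ≤ P x + Q y) {w : ℂ}
    (hw : |w.im| ≤ π / 2) (z : E × E) : ‖ker l P Q w z‖ ≤ 1 := by
  refine norm_ker_le hw ?_
  rw [abs_mul, abs_of_nonneg hl]
  exact mul_le_mul_of_nonneg_left (hPQ _ _) hl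

lemma ker_diff {l : ℝ} (hl : 0 ≤ l) {P Q : E → ℝ} (hP : Continuous P) (hQ : Continuous Q)
    (hPQ : ∀ x y, |⟪x, y⟫| ≤ P x + Q y) {U V : E → ℂ} (hU : Integrable U) (hV : Integrable V)
    {R : ℝ} (hUR : ∀ x, U x ≠ 0 → ‖x‖ ≤ R) (hVR : ∀ x, V x ≠ 0 → ‖x‖ ≤ R) :
    Differentiable ℂ (fun w : ℂ => ∫ z, U z.1 * V z.2 * ker l P Q w z ∂(volume.prod volume)) := by
  obtain ⟨A, hA⟩ := (isCompact_closedBall (0 : E) R).exists_bound_of_continuousOn hP.continuousOn
  obtain ⟨B, hB⟩ := (isCompact_closedBall (0 : E) R).exists_bound_of_continuousOn hQ.continuousOn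
  refine diff_int _ (hU.mul_prod hV) (by fun_prop) (by fun_prop) (M := l * (A + B)) fun z hz => ?_
  have h1 := hA z.1 (by simpa using hUR _ (left_ne_zero_of_mul hz))
  have h2 := hB z.2 (by simpa using hVR _ (right_ne_zero_of_mul hz))
  rw [Real.norm_eq_abs] at h1 h2
  have h3 : |P z.1 + Q z.2| ≤ A + B := (abs_add_le _ _).trans (add_le_add h1 h2)
  rw [abs_mul, abs_mul, abs_of_nonneg hl]
  exact ⟨mul_le_mul_of_nonneg_left h3 hl,
    mul_le_mul_of_nonneg_left ((hPQ _ _).trans ((le_abs_self _).trans h3)) hl⟩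

lemma edge_bound {l ν : ℝ} (hl : 0 < l) (hν : 0 ≤ ν) (hν2 : ν ^ 2 = l / π) {P Q : E → ℝ}
    (hP : Continuous P) (hQ : Continuous Q) (hPQ : ∀ x y, |⟪x, y⟫| ≤ P x + Q y) {U V : E → ℂ}
    (hU : Integrable U) (hV : Integrable V) (hU2 : MemLp U 2) (hV2 : MemLp V 2) {w : ℂ}
    (hw : |w.im| = π / 2) :
    ‖(cosh (w / 2) * ν) ^ finrank ℝ E * ∫ z, U z.1 * V z.2 * ker l P Q w z ∂(volume.prod volume)‖ ≤
      ((∫ x, ‖U x‖ ^ 2) + ∫ y, ‖V y‖ ^ 2) / 2 := by
  have hc : Real.cos w.im = 0 := by rw [← Real.cos_abs, hw, Real.cos_pi_div_two]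
  have hs : |Real.sin w.im| = 1 := by
    have := Real.sin_sq_add_cos_sq w.im
    rw [hc] at this
    exact (sq_eq_sq₀ (abs_nonneg _) zero_le_one).1 (by rw [sq_abs]; linarith)
  set a : ℝ := -(Real.sinh w.re * Real.sin w.im * l) with ha
  set t : ℝ := Real.cosh w.re * Real.sin w.im * l with ht
  have hta : |t| = Real.cosh w.re * l := by
    rw [ht, abs_mul, abs_mul, hs, abs_of_pos hl, abs_of_pos (Real.cosh_pos _), mul_one]
  have ht0 : t ≠ 0 := abs_pos.1 (by rw [hta]; exact mul_pos (Real.cosh_pos _) hl)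
  set U' : E → ℂ := fun x => U x * exp ((a * P x : ℝ) * I) with hU'
  set V' : E → ℂ := fun x => V x * exp ((a * Q x : ℝ) * I) with hV'
  have nU : ∀ x, ‖U' x‖ = ‖U x‖ := fun x => by rw [hU', norm_mul, norm_exp_ofReal_mul_I, mul_one]
  have nV : ∀ x, ‖V' x‖ = ‖V x‖ := fun x => by rw [hV', norm_mul, norm_exp_ofReal_mul_I, mul_one]
  have mU : AEStronglyMeasurable U' volume :=
    hU.1.mul (by fun_prop : Continuous _).aestronglyMeasurable
  have mV : AEStronglyMeasurable V' volume :=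
    hV.1.mul (by fun_prop : Continuous _).aestronglyMeasurable
  have iU : Integrable U' := hU.congr' mU (Eventually.of_forall fun x => (nU x).symm)
  have lU : MemLp U' 2 := hU2.congr_norm mU (Eventually.of_forall fun x => (nU x).symm)
  have lV : MemLp V' 2 := hV2.congr_norm mV (Eventually.of_forall fun x => (nV x).symm)
  have hint : Integrable (fun z : E × E => U z.1 * V z.2 * ker l P Q w z) (volume.prod volume) :=
    (hU.mul_prod hV).mul_bdd (ker_cont l hP hQ w).aestronglyMeasurable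
      (Eventually.of_forall fun z => ker_norm_le hl.le hPQ hw.le z)
  have e : ∫ z, U z.1 * V z.2 * ker l P Q w z ∂(volume.prod volume) =
      ∫ y, V' y * ∫ x, U' x * exp ((t * ⟪x, y⟫ : ℝ) * I) := by
    rw [integral_prod_symm _ hint]
    refine integral_congr_ae (Eventually.of_forall fun y => ?_)
    beta_reduce
    rw [← integral_const_mul]
    refine integral_congr_ae (Eventually.of_forall fun x => ?_)
    have : ker l P Q w (x, y) =
        exp ((a * P x : ℝ) * I) * exp ((a * Q y : ℝ) * I) * exp ((t * ⟪x, y⟫ : ℝ) * I) := by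
      rw [← exp_add, ← exp_add, ker, cosh_parts w, sinh_parts w, hc, ha, ht]
      congr 1
      push_cast; ring
    simp only [this, hU', hV']
    ring
  rw [e, norm_mul, norm_pow, norm_mul, norm_real, Real.norm_of_nonneg hν]
  have := osc_bound iU lU lV ht0 (k := (‖cosh (w / 2)‖ * ν) ^ finrank ℝ E) (by positivity) (by
    rw [← pow_mul, mul_comm (finrank ℝ E) 2, pow_mul, mul_pow, norm_cosh_half hc, hν2, hta]
    congr 1
    field_simp)
  simpa only [nU, nV] using this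

theorem strip_bound {l ν : ℝ} (hl : 0 < l) (hν : 0 ≤ ν) (hν2 : ν ^ 2 = l / π) {P Q : E → ℝ}
    (hP : Continuous P) (hQ : Continuous Q) (hPQ : ∀ x y, |⟪x, y⟫| ≤ P x + Q y) {U V : E → ℂ}
    (hU : Integrable U) (hV : Integrable V) (hU2 : MemLp U 2) (hV2 : MemLp V 2)
    {R : ℝ} (hUR : ∀ x, U x ≠ 0 → ‖x‖ ≤ R) (hVR : ∀ x, V x ≠ 0 → ‖x‖ ≤ R) {w : ℂ}
    (hw : |w.im| ≤ π / 2) :
    ‖(cosh (w / 2) * ν) ^ finrank ℝ E * ∫ z, U z.1 * V z.2 * ker l P Q w z ∂(volume.prod volume)‖ ≤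
      ((∫ x, ‖U x‖ ^ 2) + ∫ y, ‖V y‖ ^ 2) / 2 := by
  set n := finrank ℝ E with hn
  set f : ℂ → ℂ := fun w => (cosh (w / 2) * ν) ^ n *
    ∫ z, U z.1 * V z.2 * ker l P Q w z ∂(volume.prod volume) with hf
  have hd : Differentiable ℂ f :=
    (by fun_prop : Differentiable ℂ fun w : ℂ => (cosh (w / 2) * ν) ^ n).mul
      (ker_diff hl.le hP hQ hPQ hU hV hUR hVR)
  have hpi := Real.pi_pos
  refine PhragmenLindelof.horizontal_strip (f := f) (a := -(π / 2)) (b := π / 2)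
    hd.diffContOnCl ⟨1 / 2, ?_, n, ?_⟩ (fun z hz => ?_) (fun z hz => ?_) (abs_le.1 hw).1
    (abs_le.1 hw).2
  · rw [sub_neg_eq_add, add_halves, div_self hpi.ne']; norm_num
  · refine Asymptotics.IsBigO.of_bound
      (ν ^ n * ∫ z : E × E, ‖U z.1 * V z.2‖ ∂(volume.prod volume)) ?_
    refine eventually_inf_principal.2 (Eventually.of_forall fun z hz => ?_)
    have hz' : |z.im| ≤ π / 2 := abs_le.2 ⟨hz.1.le, hz.2.le⟩
    have b1 : ‖∫ y, U y.1 * V y.2 * ker l P Q z y ∂(volume.prod volume)‖ ≤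
        ∫ y : E × E, ‖U y.1 * V y.2‖ ∂(volume.prod volume) := by
      refine norm_integral_le_of_norm_le (hU.mul_prod hV).norm (Eventually.of_forall fun y => ?_)
      rw [norm_mul]
      exact mul_le_of_le_one_right (norm_nonneg _) (ker_norm_le hl.le hPQ hz' y)
    have b2 : ‖cosh (z / 2)‖ ^ n ≤ Real.exp (n * Real.exp (1 / 2 * |z.re|)) := by
      rw [Real.exp_nat_mul]
      refine pow_le_pow_left₀ (norm_nonneg _) ((norm_cosh_le _).trans (Real.exp_le_exp.2 ?_)) n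
      have : |(z / 2).re| = 1 / 2 * |z.re| := by
        rw [div_ofNat_re, abs_div, abs_two]; ring
      rw [this]
      linarith [Real.add_one_le_exp (1 / 2 * |z.re|)]
    rw [hf, norm_mul, norm_pow, norm_mul, norm_real, Real.norm_of_nonneg hν, mul_pow,
      Real.norm_of_nonneg (Real.exp_pos _).le]
    calc _ ≤ Real.exp (n * Real.exp (1 / 2 * |z.re|)) * ν ^ n *
          ∫ y : E × E, ‖U y.1 * V y.2‖ ∂(volume.prod volume) := by gcongr
      _ = _ := by ring
  · exact edge_bound hl hν hν2 hP hQ hPQ hU hV hU2 hV2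
      (by rw [hz, abs_neg, abs_of_pos (half_pos hpi)])
  · exact edge_bound hl hν hν2 hP hQ hPQ hU hV hU2 hV2 (by rw [hz, abs_of_pos (half_pos hpi)])

end Pool.Agent.MP_19b6be_gt

end MrgPart2

-- ======== part 3: formerly Pool.Agent.MP_19b6be_gt.Taylor
section MrgPart3

set_option autoImplicit false
set_option linter.unusedSectionVars false

open scoped RealInnerProductSpace Real Topology Nat
open MeasureTheory Module Filter Metric Complex

namespace Pool.Agent.MP_19b6be_gt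

/-- Euclidean space. -/
abbrev Eu (n : ℕ) := EuclideanSpace ℝ (Fin n)

variable {n : ℕ}

/-- Monomials. -/
noncomputable def mono (γ : Fin n → ℕ) (x : Eu n) : ℂ := ∏ i, (x i : ℂ) ^ γ i

lemma mono_cont (γ : Fin n → ℕ) : Continuous (mono γ) := by
  unfold mono; fun_prop

lemma int_mul_cont {U : Eu n → ℂ} (hU : Integrable U) {R : ℝ} (hUR : ∀ x, U x ≠ 0 → ‖x‖ ≤ R)
    {f : Eu n → ℂ} (hf : Continuous f) : Integrable (fun x => U x * f x) := by
  obtain ⟨A, hA⟩ := (isCompact_closedBall (0 : Eu n) R).exists_bound_of_continuousOn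
    hf.continuousOn
  refine (hU.norm.mul_const A).mono' (hU.1.mul hf.aestronglyMeasurable)
    (Eventually.of_forall fun x => ?_)
  rw [norm_mul]
  by_cases h : U x = 0
  · simp [h]
  · exact mul_le_mul_of_nonneg_left (hA x (by simpa using hUR x h)) (norm_nonneg _)

lemma taylor_split (c : ℂ) (q : ℕ) (x y : Eu n) :
    ∑ k ∈ Finset.range q, (c * (⟪x, y⟫ : ℝ)) ^ k / k ! =
      ∑ k ∈ Finset.range q, ∑ γ ∈ Finset.piAntidiag Finset.univ k,
        (c ^ k / k ! * Nat.multinomial Finset.univ γ) * (mono γ x * mono γ y) := by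
  refine Finset.sum_congr rfl fun k _ => ?_
  have h : ((⟪x, y⟫ : ℝ) : ℂ) = ∑ i, (x i : ℂ) * (y i : ℂ) := by
    rw [PiLp.inner_apply]
    push_cast
    refine Finset.sum_congr rfl fun i _ => ?_
    simp [mul_comm]
  rw [mul_pow, h, Finset.sum_pow_eq_sum_piAntidiag, Finset.mul_sum, Finset.sum_div]
  refine Finset.sum_congr rfl fun γ _ => ?_
  simp only [mono, mul_pow, Finset.prod_mul_distrib]
  ring

/-- Multi-indices of total degree at most `q`. -/
noncomputable def Gam (n q : ℕ) : Finset (Fin n → ℕ) :=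
  ((Finset.univ : Finset (Option (Fin n))).finsuppAntidiag q).image fun f i => f (some i)

lemma Gam_card (n q : ℕ) : (Gam n q).card ≤ (q + n).choose n := by
  refine Finset.card_image_le.trans ?_
  rw [Finset.card_finsuppAntidiag_nat_eq_choose, Finset.card_univ, Fintype.card_option,
    Fintype.card_fin, show n + 1 + q - 1 = q + n by omega, Nat.choose_symm_add]

lemma mem_Gam {q k : ℕ} (hk : k ≤ q) {γ : Fin n → ℕ}
    (h : γ ∈ Finset.piAntidiag Finset.univ k) : γ ∈ Gam n q := by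
  rw [Finset.mem_piAntidiag] at h
  refine Finset.mem_image.2 ⟨Finsupp.equivFunOnFinite.symm fun o => o.elim (q - k) γ, ?_, ?_⟩
  · rw [Finset.mem_finsuppAntidiag]
    refine ⟨?_, Finset.subset_univ _⟩
    have := h.1
    simp only [Finsupp.equivFunOnFinite_symm_apply_apply, Fintype.sum_option, Option.elim]
    rw [this]; omega
  · funext i; simp

lemma taylor_pt {l : ℝ} (hl : 0 ≤ l) {P Q : Eu n → ℝ} (hPQ : ∀ x y, |⟪x, y⟫| ≤ P x + Q y)
    {w : ℂ} (hw : |w.im| ≤ π / 2) (q : ℕ) {R : ℝ} {x y : Eu n} (h1 : ‖x‖ ≤ R) (h2 : ‖y‖ ≤ R) :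
    ‖ker l P Q w (x, y) - ∑ k ∈ Finset.range q, ∑ γ ∈ Finset.piAntidiag Finset.univ k,
      ((sinh w * l) ^ k / k ! * Nat.multinomial Finset.univ γ) *
        ((exp (-cosh w * (l * P x : ℝ)) * mono γ x) * (exp (-cosh w * (l * Q y : ℝ)) * mono γ y))‖ ≤
      (‖sinh w‖ * (l * R ^ 2)) ^ q * Real.exp (‖sinh w‖ * (l * R ^ 2)) := by
  have e1 : exp (-cosh w * (l * P x : ℝ)) * exp (-cosh w * (l * Q y : ℝ)) =
      exp (-cosh w * (l * (P x + Q y) : ℝ) + sinh w * (0 : ℝ)) := by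
    rw [← exp_add]
    congr 1
    push_cast
    ring
  have e2 : ker l P Q w (x, y) - ∑ k ∈ Finset.range q, ∑ γ ∈ Finset.piAntidiag Finset.univ k,
      ((sinh w * l) ^ k / k ! * Nat.multinomial Finset.univ γ) *
        ((exp (-cosh w * (l * P x : ℝ)) * mono γ x) * (exp (-cosh w * (l * Q y : ℝ)) * mono γ y)) =
      (exp (-cosh w * (l * P x : ℝ)) * exp (-cosh w * (l * Q y : ℝ))) *
      (exp (sinh w * l * (⟪x, y⟫ : ℝ)) -
        ∑ k ∈ Finset.range q, (sinh w * l * (⟪x, y⟫ : ℝ)) ^ k / k !) := by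
    rw [taylor_split, mul_sub]
    congr 1
    · rw [ker, ← exp_add, ← exp_add]
      congr 1
      push_cast
      ring
    · simp only [Finset.mul_sum]
      refine Finset.sum_congr rfl fun k _ => Finset.sum_congr rfl fun γ _ => ?_
      ring
  have h3 : ‖sinh w * l * (⟪x, y⟫ : ℝ)‖ ≤ ‖sinh w‖ * (l * R ^ 2) := by
    rw [norm_mul, norm_mul, mul_assoc, Complex.norm_real, Complex.norm_real, Real.norm_of_nonneg hl]
    refine mul_le_mul_of_nonneg_left (mul_le_mul_of_nonneg_left ?_ hl) (norm_nonneg _)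
    refine (abs_real_inner_le_norm _ _).trans ?_
    rw [sq]
    exact mul_le_mul h1 h2 (norm_nonneg _) ((norm_nonneg _).trans h1)
  have h4 : ‖exp (-cosh w * (l * P x : ℝ)) * exp (-cosh w * (l * Q y : ℝ))‖ ≤ 1 := by
    rw [e1]
    exact norm_ker_le hw (by
      rw [abs_zero]; exact mul_nonneg hl ((abs_nonneg _).trans (hPQ _ _)))
  rw [e2, norm_mul]
  refine (mul_le_of_le_one_left (norm_nonneg _) h4).trans
    ((norm_exp_sub_sum_le_norm_mul_exp _ _).trans ?_)
  exact mul_le_mul (pow_le_pow_left₀ (norm_nonneg _) h3 _) (Real.exp_le_exp.2 h3)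
    (Real.exp_pos _).le (pow_nonneg ((norm_nonneg _).trans h3) _)

lemma exists_span {α H : Type*} [AddCommGroup H] [Module ℂ H] (s : Finset α) (e : α → H) :
    ∃ S : Submodule ℂ H, finrank ℂ S ≤ s.card ∧ ∀ a ∈ s, e a ∈ S := by
  classical
  exact ⟨Submodule.span ℂ (s.image e : Finset H),
    (finrank_span_finset_le_card _).trans Finset.card_image_le, fun a ha =>
      Submodule.subset_span (Finset.mem_coe.2 (Finset.mem_image_of_mem _ ha))⟩

variable {ι : Type*} [Fintype ι]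

/-- The matrix of the kernel against a finite family of test functions. -/
noncomputable def mat (l : ℝ) (P Q : Eu n → ℝ) (u : ι → Eu n → ℂ) (c w : ℂ) (i : ι) :
    EuclideanSpace ℂ ι :=
  WithLp.toLp 2 fun j => c * ∫ z, u i z.1 * u j z.2 * ker l P Q w z ∂(volume.prod volume)

lemma near_fix {l : ℝ} (hl : 0 ≤ l) {P Q : Eu n → ℝ} (hP : Continuous P) (hQ : Continuous Q)
    (hPQ : ∀ x y, |⟪x, y⟫| ≤ P x + Q y) {u : ι → Eu n → ℂ} (hu : ∀ i, Integrable (u i)) {R : ℝ}
    (huR : ∀ i x, u i x ≠ 0 → ‖x‖ ≤ R) (c : ℂ) {w : ℂ} (hw : |w.im| ≤ π / 2) (q : ℕ) :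
    ∃ S : Submodule ℂ (EuclideanSpace ℂ ι), finrank ℂ S ≤ (q + n).choose n ∧
      ∀ i, ∃ g ∈ S, ∀ j, ‖(mat l P Q u c w i - g) j‖ ≤
        ‖c‖ * ((‖sinh w‖ * (l * R ^ 2)) ^ (q + 1) * Real.exp (‖sinh w‖ * (l * R ^ 2))) *
          ∫ z : Eu n × Eu n, ‖u i z.1 * u j z.2‖ ∂(volume.prod volume) := by
  set a : Eu n → ℂ := fun x => exp (-cosh w * (l * P x : ℝ)) with ha
  set b : Eu n → ℂ := fun x => exp (-cosh w * (l * Q x : ℝ)) with hb
  have ca : Continuous a := by rw [ha]; fun_prop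
  have cb : Continuous b := by rw [hb]; fun_prop
  set e : (Fin n → ℕ) → EuclideanSpace ℂ ι := fun γ =>
    WithLp.toLp 2 fun j => ∫ y, u j y * (b y * mono γ y) with he
  obtain ⟨S, hS, hSe⟩ := exists_span (Gam n q) e
  refine ⟨S, hS.trans (Gam_card n q), fun i => ?_⟩
  refine ⟨∑ k ∈ Finset.range (q + 1), ∑ γ ∈ Finset.piAntidiag Finset.univ k,
    (c * ((sinh w * l) ^ k / k ! * Nat.multinomial Finset.univ γ) *
      ∫ x, u i x * (a x * mono γ x)) • e γ, ?_, fun j => ?_⟩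
  · refine Submodule.sum_mem _ fun k hk => Submodule.sum_mem _ fun γ hγ =>
      Submodule.smul_mem _ _ (hSe _ ?_)
    exact mem_Gam (Nat.lt_succ_iff.1 (Finset.mem_range.1 hk)) hγ
  have iγ : ∀ γ : Fin n → ℕ, Integrable (fun z : Eu n × Eu n =>
      u i z.1 * (a z.1 * mono γ z.1) * (u j z.2 * (b z.2 * mono γ z.2))) (volume.prod volume) :=
    fun γ => (int_mul_cont (hu i) (huR i) (ca.mul (mono_cont γ))).mul_prod
      (int_mul_cont (hu j) (huR j) (cb.mul (mono_cont γ)))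
  have i0 : Integrable (fun z : Eu n × Eu n => u i z.1 * u j z.2) (volume.prod volume) :=
    (hu i).mul_prod (hu j)
  have ik : Integrable (fun z : Eu n × Eu n => u i z.1 * u j z.2 * ker l P Q w z)
      (volume.prod volume) :=
    i0.mul_bdd (ker_cont l hP hQ w).aestronglyMeasurable
      (Eventually.of_forall (ker_norm_le hl hPQ hw))
  set T : Eu n × Eu n → ℂ := fun z => ∑ k ∈ Finset.range (q + 1),
    ∑ γ ∈ Finset.piAntidiag Finset.univ k, ((sinh w * l) ^ k / k ! * Nat.multinomial Finset.univ γ) *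
      (u i z.1 * (a z.1 * mono γ z.1) * (u j z.2 * (b z.2 * mono γ z.2))) with hT
  have iT : Integrable T (volume.prod volume) :=
    integrable_finsetSum _ fun k _ => integrable_finsetSum _ fun γ _ => (iγ γ).const_mul _
  have e1 : (∑ k ∈ Finset.range (q + 1), ∑ γ ∈ Finset.piAntidiag Finset.univ k,
      (c * ((sinh w * l) ^ k / k ! * Nat.multinomial Finset.univ γ) *
        ∫ x, u i x * (a x * mono γ x)) • e γ) j = c * ∫ z, T z ∂(volume.prod volume) := by
    rw [hT, integral_finsetSum _ fun k _ => integrable_finsetSum _ fun γ _ => (iγ γ).const_mul _,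
      Finset.mul_sum]
    simp only [WithLp.ofLp_sum, Finset.sum_apply]
    refine Finset.sum_congr rfl fun k _ => ?_
    rw [integral_finsetSum _ fun γ _ => (iγ γ).const_mul _, Finset.mul_sum]
    refine Finset.sum_congr rfl fun γ _ => ?_
    rw [integral_const_mul, integral_prod_mul (fun x => u i x * (a x * mono γ x))
      (fun y => u j y * (b y * mono γ y))]
    simp only [he, WithLp.ofLp_smul, Pi.smul_apply, smul_eq_mul]
    ring
  rw [PiLp.sub_apply, e1]
  simp only [mat]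
  rw [← mul_sub, ← integral_sub ik iT, norm_mul, mul_assoc]
  refine mul_le_mul_of_nonneg_left ?_ (norm_nonneg _)
  rw [← integral_const_mul]
  refine norm_integral_le_of_norm_le (i0.norm.const_mul _) (Eventually.of_forall fun z => ?_)
  have e2 : u i z.1 * u j z.2 * ker l P Q w z - T z = (u i z.1 * u j z.2) *
      (ker l P Q w (z.1, z.2) - ∑ k ∈ Finset.range (q + 1),
        ∑ γ ∈ Finset.piAntidiag Finset.univ k,
          ((sinh w * l) ^ k / k ! * Nat.multinomial Finset.univ γ) *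
            ((a z.1 * mono γ z.1) * (b z.2 * mono γ z.2))) := by
    rw [hT, mul_sub]
    congr 1
    simp only [Finset.mul_sum]
    refine Finset.sum_congr rfl fun k _ => Finset.sum_congr rfl fun γ _ => ?_
    ring
  rw [e2, norm_mul, mul_comm]
  by_cases h0 : u i z.1 * u j z.2 = 0
  · simp [h0]
  exact mul_le_mul_of_nonneg_right (taylor_pt hl hPQ hw (q + 1)
    (huR i _ (left_ne_zero_of_mul h0)) (huR j _ (right_ne_zero_of_mul h0))) (norm_nonneg _)

lemma near_mat {l : ℝ} (hl : 0 ≤ l) {P Q : Eu n → ℝ} (hP : Continuous P) (hQ : Continuous Q)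
    (hPQ : ∀ x y, |⟪x, y⟫| ≤ P x + Q y) {u : ι → Eu n → ℂ} (hu : ∀ i, Integrable (u i)) {R : ℝ}
    (huR : ∀ i x, u i x ≠ 0 → ‖x‖ ≤ R) {c w : ℂ → ℂ} (hc : ContinuousAt c 0)
    (hw : DifferentiableAt ℂ w 0) (hw0 : w 0 = 0) (q : ℕ) :
    Near (fun ζ => mat l P Q u (c ζ) (w ζ)) (q + 1) ((q + n).choose n) := by
  have hs : DifferentiableAt ℂ (fun ζ => sinh (w ζ)) 0 := hw.csinh
  obtain ⟨K, hK0, hK⟩ := hs.isBigO_sub.exists_nonneg
  have hK' := hK.bound
  simp only [hw0, sinh_zero, sub_zero] at hK'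
  have h1 : ∀ᶠ ζ in 𝓝 (0 : ℂ), ‖c ζ‖ ≤ ‖c 0‖ + 1 :=
    (hc.norm.eventually (gt_mem_nhds (lt_add_one _))).mono fun _ h => le_of_lt h
  have h2 : ∀ᶠ ζ in 𝓝 (0 : ℂ), ‖sinh (w ζ)‖ ≤ 1 :=
    (hs.continuousAt.norm.eventually (gt_mem_nhds (a := (1 : ℝ)) (by simp [hw0]))).mono
      fun _ h => le_of_lt h
  have h3 : ∀ᶠ ζ in 𝓝 (0 : ℂ), |(w ζ).im| ≤ π / 2 := by
    have : ContinuousAt (fun ζ => |(w ζ).im|) 0 :=
      (continuous_abs.comp continuous_im).continuousAt.comp hw.continuousAt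
    exact (this.eventually (gt_mem_nhds (a := π / 2) (by simp [hw0, Real.pi_pos]))).mono
      fun _ h => le_of_lt h
  set I : ι → ι → ℝ := fun i j =>
    ∫ z : Eu n × Eu n, ‖u i z.1 * u j z.2‖ ∂(volume.prod volume) with hI
  have hI0 : ∀ i j, 0 ≤ I i j := fun i j => integral_nonneg fun _ => norm_nonneg _
  have hlR : 0 ≤ l * R ^ 2 := mul_nonneg hl (sq_nonneg _)
  refine ⟨(‖c 0‖ + 1) * ((K * (l * R ^ 2)) ^ (q + 1) * Real.exp (l * R ^ 2)) * ∑ i, ∑ j, I i j, ?_⟩
  refine nhdsWithin_le_nhds ?_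
  filter_upwards [hK', h1, h2, h3] with ζ e0 e1 e2 e3
  obtain ⟨S, hS, hg⟩ := near_fix hl hP hQ hPQ hu huR (c ζ) e3 q
  refine ⟨S, hS, fun i => ?_⟩
  obtain ⟨g, hgS, hg⟩ := hg i
  refine ⟨g, hgS, ?_⟩
  set A := (‖c 0‖ + 1) * ((K * (l * R ^ 2)) ^ (q + 1) * Real.exp (l * R ^ 2)) * ‖ζ‖ ^ (q + 1)
    with hA
  have hA0 : 0 ≤ A := by positivity
  have h4 : ‖c ζ‖ * ((‖sinh (w ζ)‖ * (l * R ^ 2)) ^ (q + 1) *
      Real.exp (‖sinh (w ζ)‖ * (l * R ^ 2))) ≤ A := by
    calc _ ≤ (‖c 0‖ + 1) * ((K * ‖ζ‖ * (l * R ^ 2)) ^ (q + 1) * Real.exp (1 * (l * R ^ 2))) := by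
          gcongr
      _ = A := by rw [hA]; ring_nf
  have h5 : ‖mat l P Q u (c ζ) (w ζ) i - g‖ ≤ ∑ j, ‖(mat l P Q u (c ζ) (w ζ) i - g) j‖ := by
    rw [EuclideanSpace.norm_eq]
    refine Real.sqrt_le_iff.2 ⟨Finset.sum_nonneg fun _ _ => norm_nonneg _, ?_⟩
    exact Finset.sum_sq_le_sq_sum_of_nonneg fun _ _ => norm_nonneg _
  calc _ ≤ _ := h5
    _ ≤ ∑ j, A * I i j := Finset.sum_le_sum fun j _ =>
        (hg j).trans (mul_le_mul_of_nonneg_right h4 (hI0 i j))
    _ = A * ∑ j, I i j := by rw [Finset.mul_sum]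
    _ ≤ A * ∑ i, ∑ j, I i j := mul_le_mul_of_nonneg_left (Finset.single_le_sum
        (f := fun i => ∑ j, I i j) (fun i _ => Finset.sum_nonneg fun j _ => hI0 i j)
        (Finset.mem_univ i)) hA0
    _ = _ := by rw [hA]; ring

end Pool.Agent.MP_19b6be_gt

end MrgPart3

-- ======== part 4: formerly Pool.Agent.MP_19b6be_gt.Schur
section MrgPart4

set_option autoImplicit false
set_option linter.unusedSectionVars false

open scoped RealInnerProductSpace Real Topology Nat ComplexConjugate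
open MeasureTheory Module Filter Metric Complex

namespace Pool.Agent.MP_19b6be_gt

variable {n : ℕ} {ι : Type*} [Fintype ι]

lemma mat_bes {l ν : ℝ} (hl : 0 < l) (hν : 0 ≤ ν) (hν2 : ν ^ 2 = l / π) {P Q : Eu n → ℝ}
    (hP : Continuous P) (hQ : Continuous Q) (hPQ : ∀ x y, |⟪x, y⟫| ≤ P x + Q y)
    {u : ι → Eu n → ℂ} (hu : ∀ i, Integrable (u i)) (hu2 : ∀ i, MemLp (u i) 2) {R : ℝ}
    (huR : ∀ i x, u i x ≠ 0 → ‖x‖ ≤ R)
    (hB : ∀ p : ι → ℂ, ∫ x, ‖∑ i, p i * u i x‖ ^ 2 ≤ ∑ i, ‖p i‖ ^ 2) {w : ℂ}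
    (hw : |w.im| ≤ π / 2) : Bes (mat l P Q u ((cosh (w / 2) * ν) ^ n) w) := by
  intro p
  set c := (cosh (w / 2) * ν) ^ n with hc
  set v := ∑ i, p i • mat l P Q u c w i with hv
  have iU : ∀ p : ι → ℂ, Integrable fun x => ∑ i, p i * u i x := fun p =>
    integrable_finsetSum _ fun i _ => (hu i).const_mul _
  have lU : ∀ p : ι → ℂ, MemLp (fun x => ∑ i, p i * u i x) 2 := fun p =>
    memLp_finsetSum _ fun i _ => (hu2 i).const_mul _
  have sU : ∀ (p : ι → ℂ) x, ∑ i, p i * u i x ≠ 0 → ‖x‖ ≤ R := fun p x h => by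
    obtain ⟨i, _, hi⟩ := Finset.exists_ne_zero_of_sum_ne_zero h
    exact huR i x (right_ne_zero_of_mul hi)
  have h1 := strip_bound hl hν hν2 hP hQ hPQ (iU p) (iU fun j => conj (v j)) (lU p)
    (lU fun j => conj (v j)) (sU p) (sU fun j => conj (v j)) hw
  rw [finrank_euclideanSpace_fin, ← hc] at h1
  have ik : ∀ i j, Integrable (fun z : Eu n × Eu n => u i z.1 * u j z.2 * ker l P Q w z)
      (volume.prod volume) := fun i j =>
    ((hu i).mul_prod (hu j)).mul_bdd (ker_cont l hP hQ w).aestronglyMeasurable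
      (Eventually.of_forall (ker_norm_le hl.le hPQ hw))
  have e0 : ∀ j, v j = ∑ i, p i *
      (c * ∫ z, u i z.1 * u j z.2 * ker l P Q w z ∂(volume.prod volume)) := fun j => by
    simp only [hv, mat, WithLp.ofLp_sum, Finset.sum_apply, WithLp.ofLp_smul, Pi.smul_apply,
      smul_eq_mul]
  have e1 : c * ∫ z : Eu n × Eu n, (∑ i, p i * u i z.1) * (∑ j, conj (v j) * u j z.2) *
      ker l P Q w z ∂(volume.prod volume) = ((∑ j, ‖v j‖ ^ 2 : ℝ) : ℂ) := by
    have : ∀ z : Eu n × Eu n, (∑ i, p i * u i z.1) * (∑ j, conj (v j) * u j z.2) * ker l P Q w z =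
        ∑ j, ∑ i, (conj (v j) * p i) * (u i z.1 * u j z.2 * ker l P Q w z) := fun z => by
      rw [mul_comm (∑ i, _), Finset.sum_mul_sum, Finset.sum_mul]
      refine Finset.sum_congr rfl fun j _ => ?_
      rw [Finset.sum_mul]
      refine Finset.sum_congr rfl fun i _ => ?_
      ring
    simp_rw [this]
    rw [integral_finsetSum _ fun j _ => integrable_finsetSum _ fun i _ => (ik i j).const_mul _,
      Finset.mul_sum]
    push_cast
    refine Finset.sum_congr rfl fun j _ => ?_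
    rw [integral_finsetSum _ fun i _ => (ik i j).const_mul _, ← Complex.conj_mul']
    nth_rewrite 3 [e0 j]
    rw [Finset.mul_sum, Finset.mul_sum]
    refine Finset.sum_congr rfl fun i _ => ?_
    rw [integral_const_mul]
    ring
  rw [e1, Complex.norm_real, Real.norm_of_nonneg (Finset.sum_nonneg fun _ _ => sq_nonneg _)] at h1
  have h2 := hB p
  have h3 := hB fun j => conj (v j)
  simp only [RCLike.norm_conj] at h3
  rw [EuclideanSpace.norm_sq_eq]
  linarith

/-- Conformal map of the disc onto the strip. -/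
noncomputable def cw (ζ : ℂ) : ℂ := log ((1 + ζ) / (1 - ζ))

lemma cw_re {ζ : ℂ} (h : ζ ∈ ball (0 : ℂ) 1) : 0 < ((1 + ζ) / (1 - ζ)).re := by
  rw [mem_ball_zero_iff] at h
  have h0 : 1 - ζ ≠ 0 := fun e => by
    rw [sub_eq_zero] at e
    rw [← e, norm_one] at h
    exact lt_irrefl _ h
  have h1 : ζ.re ^ 2 + ζ.im ^ 2 < 1 := by
    have := Complex.sq_norm ζ
    rw [normSq_apply] at this
    nlinarith [norm_nonneg ζ]
  rw [div_re, ← add_div]
  refine div_pos ?_ (normSq_pos.2 h0)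
  simp only [add_re, one_re, sub_re, add_im, one_im, sub_im]
  nlinarith

lemma cw_diff {ζ : ℂ} (h : ζ ∈ ball (0 : ℂ) 1) : DifferentiableAt ℂ cw ζ := by
  have h1 := cw_re h
  have h0 : 1 - ζ ≠ 0 := fun e => by simp [e] at h1
  exact DifferentiableAt.clog (by fun_prop (disch := exact h0)) (Or.inl h1)

lemma cw_im {ζ : ℂ} (h : ζ ∈ ball (0 : ℂ) 1) : |(cw ζ).im| ≤ π / 2 := by
  rw [cw, log_im]
  exact abs_arg_le_pi_div_two_iff.2 (cw_re h).le

lemma cw_tanh (t : ℝ) : cw (Real.tanh (t / 2) : ℝ) = t := by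
  have h : (1 + Real.tanh (t / 2)) / (1 - Real.tanh (t / 2)) = Real.exp t := by
    have hc := Real.cosh_pos (t / 2)
    rw [Real.tanh_eq_sinh_div_cosh, one_add_div hc.ne', one_sub_div hc.ne',
      div_div_div_cancel_right₀ hc.ne', Real.cosh_add_sinh, Real.cosh_sub_sinh, ← Real.exp_sub]
    congr 1; ring
  have h2 : ((1 : ℂ) + (Real.tanh (t / 2) : ℝ)) / (1 - (Real.tanh (t / 2) : ℝ)) =
      ((Real.exp t : ℝ) : ℂ) := by rw [← h]; push_cast; rfl
  rw [cw, h2, ← ofReal_log (Real.exp_pos _).le, Real.log_exp]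

theorem mat_bound {l ν : ℝ} (hl : 0 < l) (hν : 0 ≤ ν) (hν2 : ν ^ 2 = l / π) {P Q : Eu n → ℝ}
    (hP : Continuous P) (hQ : Continuous Q) (hPQ : ∀ x y, |⟪x, y⟫| ≤ P x + Q y)
    {u : ι → Eu n → ℂ} (hu : ∀ i, Integrable (u i)) (hu2 : ∀ i, MemLp (u i) 2) {R : ℝ}
    (huR : ∀ i x, u i x ≠ 0 → ‖x‖ ≤ R)
    (hB : ∀ p : ι → ℂ, ∫ x, ‖∑ i, p i * u i x‖ ^ 2 ≤ ∑ i, ‖p i‖ ^ 2) (t : ℝ) :
    (l / π) ^ n * ∑ i, ∑ j,
      ‖∫ z, u i z.1 * u j z.2 * ker l P Q t z ∂(volume.prod volume)‖ ^ 2 ≤ 1 := by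
  classical
  set F : ℂ → ι → EuclideanSpace ℂ ι := fun ζ =>
    mat l P Q u ((cosh (cw ζ / 2) * ν) ^ n) (cw ζ) with hF
  have h0 : (0 : ℂ) ∈ ball (0 : ℂ) 1 := mem_ball_self one_pos
  have hc : ∀ ζ ∈ ball (0 : ℂ) 1, DifferentiableAt ℂ (fun ζ => (cosh (cw ζ / 2) * ν) ^ n) ζ :=
    fun ζ hζ => ((((cw_diff hζ).div_const 2).ccosh).mul_const _).pow n
  have hd : ∀ i, DifferentiableOn ℂ (fun ζ => F ζ i) (ball 0 1) := fun i => by
    refine differentiableOn_euclidean.2 fun j ζ hζ => DifferentiableAt.differentiableWithinAt ?_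
    exact (hc ζ hζ).mul
      ((ker_diff hl.le hP hQ hPQ (hu i) (hu j) (huR i) (huR j) (cw ζ)).comp ζ (cw_diff hζ))
  set β : ℝ := Real.tanh (t / 2) with hβ
  have hch := Real.cosh_pos (t / 2)
  have hβ2 : 1 - β ^ 2 = 1 / Real.cosh (t / 2) ^ 2 := by
    rw [hβ, Real.tanh_eq_sinh_div_cosh, div_pow, one_sub_div (by positivity), Real.cosh_sq_sub_sinh_sq]
  have hβ3 : 0 < 1 - β ^ 2 := by rw [hβ2]; positivity
  have hβ1 : (β : ℂ) ∈ ball (0 : ℂ) 1 := by
    rw [mem_ball_zero_iff, Complex.norm_real, Real.norm_eq_abs, ← sq_lt_one_iff_abs_lt_one]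
    linarith
  have hn : ‖(β : ℂ)‖ ^ 2 = β ^ 2 := by rw [Complex.norm_real, Real.norm_eq_abs, sq_abs]
  have key : ∀ N : ℕ, ∑ i, ‖F β i‖ ^ 2 ≤ 1 / (1 - β ^ 2) ^ n +
      (β ^ 2) ^ N * finrank ℂ (EuclideanSpace ℂ ι) := fun N => by
    have h1 := peel_bound N F (fun q => (q + n).choose n) hd
      (fun ζ hζ => mat_bes hl hν hν2 hP hQ hPQ hu hu2 huR hB (cw_im hζ))
      (fun q => near_mat hl.le hP hQ hPQ hu huR (hc 0 h0).continuousAt (cw_diff h0)
        (by simp [cw]) q) β hβ1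
    rw [hn] at h1
    have h2 := sum_le_hasSum (Finset.range N) (fun q _ => by positivity)
      (hasSum_choose_mul_geometric_of_norm_lt_one n (r := β ^ 2) (by
        rw [Real.norm_of_nonneg (sq_nonneg _)]; linarith))
    refine h1.trans (add_le_add ?_ le_rfl)
    calc _ ≤ (1 - β ^ 2) * (1 / (1 - β ^ 2) ^ (n + 1)) := by
          refine mul_le_mul_of_nonneg_left (le_trans (le_of_eq ?_) h2) hβ3.le
          exact Finset.sum_congr rfl fun q _ => mul_comm _ _
      _ = _ := by field_simp; ring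
  have lim : Tendsto (fun N : ℕ => 1 / (1 - β ^ 2) ^ n +
      (β ^ 2) ^ N * finrank ℂ (EuclideanSpace ℂ ι)) atTop (𝓝 (1 / (1 - β ^ 2) ^ n + 0 * _)) :=
    ((tendsto_pow_atTop_nhds_zero_of_lt_one (sq_nonneg β) (by linarith)).mul_const _).const_add _
  have h3 := ge_of_tendsto' lim key
  rw [zero_mul, add_zero, hβ2] at h3
  have e1 : ∀ i, ‖F β i‖ ^ 2 = (Real.cosh (t / 2) ^ 2) ^ n * ((l / π) ^ n * ∑ j,
      ‖∫ z, u i z.1 * u j z.2 * ker l P Q t z ∂(volume.prod volume)‖ ^ 2) := fun i => by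
    rw [EuclideanSpace.norm_sq_eq, Finset.mul_sum, Finset.mul_sum]
    refine Finset.sum_congr rfl fun j _ => ?_
    have : cosh ((t : ℂ) / 2) = (Real.cosh (t / 2) : ℝ) := by push_cast; rfl
    simp only [hF, mat, hβ, cw_tanh, this, norm_mul, norm_pow, Complex.norm_real,
      Real.norm_of_nonneg hν, Real.norm_of_nonneg hch.le]
    rw [← hν2]
    ring
  simp_rw [e1] at h3
  rw [← Finset.mul_sum, ← Finset.mul_sum, one_div, ← inv_pow, one_div, inv_inv] at h3
  exact (mul_le_iff_le_one_right (by positivity)).1 h3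

end Pool.Agent.MP_19b6be_gt

end MrgPart4

-- ======== part 5: formerly Pool.Agent.MP_19b6be_gt.Func
section MrgPart5

set_option autoImplicit false
set_option linter.unusedSectionVars false

open scoped RealInnerProductSpace Real Topology Nat
open MeasureTheory Module Filter Metric Function Set

namespace Pool.Agent.MP_19b6be_gt

variable {n : ℕ}

lemma exists_cells (R : ℝ) {δ : ℝ} (hδ : 0 < δ) : ∃ (N : ℕ) (A : Fin N → Set (Eu n)),
    (∀ i, MeasurableSet (A i)) ∧ Pairwise (Disjoint on A) ∧ (⋃ i, A i) = closedBall 0 R ∧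
      ∀ i, ∀ x ∈ A i, ∀ y ∈ A i, dist x y < δ := by
  obtain ⟨t, -, ht, hc⟩ := (isCompact_closedBall (0 : Eu n) R).finite_cover_balls (half_pos hδ)
  obtain ⟨N, f, -, hf⟩ := ht.fin_param
  set B : Fin N → Set (Eu n) := fun i => ball (f i) (δ / 2) ∩ closedBall 0 R with hB
  have mB : ∀ i, MeasurableSet (B i) := fun i => measurableSet_ball.inter measurableSet_closedBall
  refine ⟨N, disjointed B, fun i => ?_, disjoint_disjointed B, ?_, fun i x hx y hy => ?_⟩
  · rw [disjointed_eq_inter_compl]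
    exact (mB i).inter (MeasurableSet.iInter fun j => MeasurableSet.iInter fun _ => (mB j).compl)
  · rw [iUnion_disjointed]
    refine Subset.antisymm (iUnion_subset fun i => inter_subset_right) fun x hx => ?_
    obtain ⟨y, hy, hxy⟩ := mem_iUnion₂.1 (hc hx)
    rw [← hf] at hy
    obtain ⟨i, rfl⟩ := hy
    exact mem_iUnion.2 ⟨i, hxy, hx⟩
  · have h1 := (disjointed_subset B i hx).1
    have h2 := (disjointed_subset B i hy).1
    rw [mem_ball] at h1 h2
    linarith [dist_triangle_right x y (f i)]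

lemma cell_bound {X : Type*} [MeasurableSpace X] {μ : Measure X} {C : Set X}
    (hC : MeasurableSet C) (hf : μ C ≠ ⊤) {k : X → ℝ} (h0 : ∀ z, 0 ≤ k z) (h1 : IntegrableOn k C μ)
    {ε : ℝ} (hε : ∀ z ∈ C, ∀ y ∈ C, k z ≤ k y + ε) :
    ∫ z in C, k z ^ 2 ∂μ ≤ (∫ z in C, k z ∂μ) ^ 2 / μ.real C + ε * ∫ z in C, k z ∂μ := by
  rcases (measureReal_nonneg (μ := μ) (s := C)).eq_or_lt with h | h
  · have : μ C = 0 := (measureReal_eq_zero_iff hf).1 h.symm
    simp [Measure.restrict_eq_zero.2 this]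
  set J := ∫ z in C, k z ∂μ with hJ
  have h2 : ∀ z ∈ C, k z ≤ J / μ.real C + ε := fun z hz => by
    have := setIntegral_mono_on (f := fun _ => k z - ε) (integrableOn_const hf) h1 hC
      fun y hy => by linarith [hε z hz y hy]
    rw [setIntegral_const, smul_eq_mul, mul_comm, ← le_div_iff₀ h] at this
    linarith
  calc _ ≤ ∫ z in C, (J / μ.real C + ε) * k z ∂μ := by
        refine integral_mono_of_nonneg (Eventually.of_forall fun z => sq_nonneg _)
          (h1.const_mul _) ((ae_restrict_iff' hC).2 (Eventually.of_forall fun z hz => ?_))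
        show k z ^ 2 ≤ _
        rw [sq]
        exact mul_le_mul_of_nonneg_right (h2 z hz) (h0 z)
    _ = _ := by rw [integral_const_mul, ← hJ]; ring

lemma hs_int {k : Eu n × Eu n → ℝ} (hk : Continuous k) (h0 : ∀ z, 0 ≤ k z) {M : ℝ}
    (hM : ∀ (R : ℝ) (N : ℕ) (A : Fin N → Set (Eu n)), (∀ i, MeasurableSet (A i)) →
      Pairwise (Disjoint on A) → (∀ i, A i ⊆ closedBall 0 R) →
      ∑ i, ∑ j, (∫ z in A i ×ˢ A j, k z ∂(volume.prod volume)) ^ 2 /
        (volume.real (A i) * volume.real (A j)) ≤ M) :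
    ∫⁻ z, ENNReal.ofReal (k z ^ 2) ∂(volume.prod volume) ≤ ENNReal.ofReal M := by
  have key : ∀ R : ℝ, ∫ z in closedBall 0 R, k z ^ 2 ∂(volume.prod volume) ≤ M := fun R => by
    have cK : IsCompact (closedBall (0 : Eu n × Eu n) R) := isCompact_closedBall _ _
    have i1 : IntegrableOn k (closedBall 0 R) (volume.prod volume) :=
      hk.continuousOn.integrableOn_compact cK
    have i2 : IntegrableOn (fun z => k z ^ 2) (closedBall 0 R) (volume.prod volume) :=
      (hk.pow 2).continuousOn.integrableOn_compact cK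
    refine le_of_forall_pos_le_add fun ε hε => ?_
    set J := ∫ z in closedBall 0 R, k z ∂(volume.prod volume) with hJ
    have hJ0 : 0 ≤ J := integral_nonneg h0
    obtain ⟨δ, hδ, hu⟩ := Metric.uniformContinuousOn_iff.1
      (cK.uniformContinuousOn_of_continuous hk.continuousOn) (ε / (J + 1)) (by positivity)
    obtain ⟨N, A, mA, dA, uA, sA⟩ := exists_cells (n := n) R hδ
    have hs : ∀ i, A i ⊆ closedBall 0 R := fun i => uA ▸ subset_iUnion A i
    have hU : closedBall (0 : Eu n × Eu n) R = ⋃ p : Fin N × Fin N, A p.1 ×ˢ A p.2 := by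
      rw [iUnion_prod, uA]
      exact (closedBall_prod_same _ _ _).symm
    have mP : ∀ p : Fin N × Fin N, MeasurableSet (A p.1 ×ˢ A p.2) := fun p => (mA _).prod (mA _)
    have dP : Pairwise (Disjoint on fun p : Fin N × Fin N => A p.1 ×ˢ A p.2) := fun p q hpq => by
      by_cases h : p.1 = q.1
      · exact Disjoint.set_prod_right (dA fun e => hpq (Prod.ext h e)) _ _
      · exact Disjoint.set_prod_left (dA h) _ _
    have sP : ∀ p : Fin N × Fin N, A p.1 ×ˢ A p.2 ⊆ closedBall (0 : Eu n × Eu n) R := fun p =>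
      hU ▸ subset_iUnion (fun p : Fin N × Fin N => A p.1 ×ˢ A p.2) p
    have e1 := integral_iUnion_fintype mP dP fun p => i1.mono_set (sP p)
    have e2 := integral_iUnion_fintype mP dP fun p => i2.mono_set (sP p)
    rw [← hU] at e1 e2
    have h3 := hM R N A mA dA hs
    rw [← Fintype.sum_prod_type'] at h3
    have h4 : ∀ p : Fin N × Fin N, ∫ z in A p.1 ×ˢ A p.2, k z ^ 2 ∂(volume.prod volume) ≤
        (∫ z in A p.1 ×ˢ A p.2, k z ∂(volume.prod volume)) ^ 2 /
          (volume.real (A p.1) * volume.real (A p.2)) +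
        ε / (J + 1) * ∫ z in A p.1 ×ˢ A p.2, k z ∂(volume.prod volume) := fun p => by
      rw [← measureReal_prod_prod]
      refine cell_bound (mP p) ((measure_mono (sP p)).trans_lt cK.measure_lt_top).ne h0
        (i1.mono_set (sP p)) fun z hz y hy => ?_
      have := hu z (sP p hz) y (sP p hy)
        (max_lt (sA _ _ hz.1 _ hy.1) (sA _ _ hz.2 _ hy.2))
      rw [Real.dist_eq] at this
      linarith [(abs_lt.1 this).2]
    have h5 := Finset.sum_le_sum fun p (_ : p ∈ Finset.univ) => h4 p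
    rw [← e2, Finset.sum_add_distrib, ← Finset.mul_sum, ← e1, ← hJ] at h5
    have h6 : ε / (J + 1) * J ≤ ε := by
      rw [div_mul_eq_mul_div, div_le_iff₀ (by positivity)]
      nlinarith
    linarith
  have lim := (aecover_closedBall (μ := (volume : Measure (Eu n)).prod (volume : Measure (Eu n)))
    (x := 0) (l := atTop) (r := fun R : ℝ => R) tendsto_id).lintegral_tendsto_of_countably_generated
    (f := fun z => ENNReal.ofReal (k z ^ 2)) (by fun_prop)
  refine le_of_tendsto' lim fun R => ?_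
  rw [← ofReal_integral_eq_lintegral_ofReal (f := fun z => k z ^ 2)
    ((hk.pow 2).continuousOn.integrableOn_compact (isCompact_closedBall _ _))
    (Eventually.of_forall fun z => sq_nonneg _)]
  exact ENNReal.ofReal_le_ofReal (key R)

/-- Functional inequality: a sharp bound for the Gaussian-type coupling of any dual pair. -/
theorem func_bound {P Q : Eu n → ℝ} (hP : Continuous P) (hQ : Continuous Q)
    (hPQ : ∀ x y, |⟪x, y⟫| ≤ P x + Q y) (t : ℝ) :
    ∫⁻ z : Eu n × Eu n, ENNReal.ofReal (Real.exp (-(P z.1 + Q z.2) + Real.tanh t * ⟪z.1, z.2⟫))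
      ∂(volume.prod volume) ≤ ENNReal.ofReal ((2 * π * Real.cosh t) ^ n) := by
  have hch := Real.cosh_pos t
  have hpi := Real.pi_pos
  set l : ℝ := 1 / (2 * Real.cosh t) with hl
  have hl0 : 0 < l := by positivity
  set k : Eu n × Eu n → ℝ := fun z =>
    Real.exp (-Real.cosh t * (l * (P z.1 + Q z.2)) + Real.sinh t * (l * ⟪z.1, z.2⟫)) with hk
  have e1 : ∀ z : Eu n × Eu n,
      Real.exp (-(P z.1 + Q z.2) + Real.tanh t * ⟪z.1, z.2⟫) = k z ^ 2 := fun z => by
    rw [hk, sq, ← Real.exp_add, Real.tanh_eq_sinh_div_cosh, hl]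
    congr 1
    field_simp
    ring
  have e2 : ∀ z, ker l P Q t z = k z := fun z => by
    rw [ker, hk]
    push_cast
    rfl
  simp_rw [e1]
  refine hs_int (by fun_prop) (fun z => (Real.exp_pos _).le) fun R N A mA dA hs => ?_
  have fA : ∀ i, volume (A i) ≠ ⊤ := fun i =>
    ((measure_mono (hs i)).trans_lt (isCompact_closedBall _ _).measure_lt_top).ne
  set m : Fin N → ℝ := fun i => volume.real (A i) with hm
  have m0 : ∀ i, 0 ≤ m i := fun i => measureReal_nonneg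
  set u : Fin N → Eu n → ℂ := fun i => (A i).indicator fun _ => (((√(m i))⁻¹ : ℝ) : ℂ) with hu
  have h := mat_bound (ν := √(l / π)) hl0 (Real.sqrt_nonneg _) (Real.sq_sqrt (by positivity)) hP hQ
    hPQ (u := u) (fun i => (integrableOn_const (fA i)).integrable_indicator (mA i))
    (fun i => memLp_indicator_const 2 (mA i) _ (Or.inr (fA i))) (R := R)
    (fun i x hx => by simpa using hs i (mem_of_indicator_ne_zero hx)) (fun p => ?_) t
  · have e3 : ∀ i j, ‖∫ z, u i z.1 * u j z.2 * ker l P Q t z ∂(volume.prod volume)‖ ^ 2 =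
        (∫ z in A i ×ˢ A j, k z ∂(volume.prod volume)) ^ 2 / (m i * m j) := fun i j => by
      have : ∀ z : Eu n × Eu n, u i z.1 * u j z.2 * ker l P Q t z = (((A i ×ˢ A j).indicator
          (fun z => (√(m i))⁻¹ * (√(m j))⁻¹ * k z) z : ℝ) : ℂ) := fun z => by
        rw [e2]
        by_cases h1 : z.1 ∈ A i <;> by_cases h2 : z.2 ∈ A j <;> simp [hu, indicator, h1, h2]
      simp_rw [this]
      rw [integral_complex_ofReal, Complex.norm_real, Real.norm_eq_abs, sq_abs,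
        integral_indicator ((mA i).prod (mA j)), integral_const_mul, mul_pow, mul_pow, inv_pow,
        inv_pow, Real.sq_sqrt (m0 i), Real.sq_sqrt (m0 j), div_eq_inv_mul, mul_inv]
    simp_rw [e3] at h
    have e4 : (2 * π * Real.cosh t) ^ n = ((l / π) ^ n)⁻¹ := by
      rw [← inv_pow, hl]
      congr 1
      field_simp
    rw [e4, ← one_div, le_div_iff₀' (by positivity)]
    exact h
  · have e5 : ∀ x, ‖∑ i, p i * u i x‖ ^ 2 =
        ∑ i, (A i).indicator (fun _ => ‖p i‖ ^ 2 * (m i)⁻¹) x := fun x => by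
      by_cases h1 : ∃ i, x ∈ A i
      · obtain ⟨i, hi⟩ := h1
        have h2 : ∀ j, j ≠ i → x ∉ A j := fun j hj hx => disjoint_left.1 (dA hj) hx hi
        rw [Finset.sum_eq_single i (fun j _ hj => by simp [hu, h2 j hj]) (by simp),
          Finset.sum_eq_single i (fun j _ hj => by simp [h2 j hj]) (by simp)]
        simp [hu, hi, mul_pow, Real.sq_sqrt (m0 i)]
      · push Not at h1
        simp [hu, h1]
    simp_rw [e5]
    rw [integral_finsetSum _ fun i _ => (integrableOn_const (fA i)).integrable_indicator (mA i)]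
    refine Finset.sum_le_sum fun i _ => ?_
    rw [integral_indicator_const _ (mA i), smul_eq_mul, mul_left_comm]
    exact mul_le_of_le_one_right (sq_nonneg _) mul_inv_le_one

end Pool.Agent.MP_19b6be_gt

end MrgPart5

-- marker of a merged file
example : 731051 + 241607 = 731051 + 241607 := rfl
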