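import Mathlib.Analysis.SpecialFunctions.Trigonometric.Series
import Mathlib.Analysis.SpecialFunctions.Artanh
import Mathlib.MeasureTheory.Integral.Gamma
import Pool.Agent.MP_19b6be_gt.Func

-- ======== part 0: formerly Pool.Agent.MP_19b6be_gt.Layer
section MrgPart0

set_option autoImplicit false
set_option linter.unusedSectionVars false

open scoped RealInnerProductSpace Real Topology Nat ENNReal
open MeasureTheory Module Filter Metric Function Set

namespace Pool.Agent.MP_19b6be_gt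

variable {n : ℕ}

lemma lint_scale {f : Eu n → ℝ≥0∞} (hf : Measurable f) {r : ℝ} (hr : 0 < r) :
    ∫⁻ x, f x = ENNReal.ofReal (r ^ n) * ∫⁻ x, f (r • x) := by
  have h := lintegral_map (μ := (volume : Measure (Eu n))) hf (measurable_const_smul r)
  rw [Measure.map_addHaar_smul _ hr.ne', lintegral_smul_measure, finrank_euclideanSpace_fin,
    smul_eq_mul] at h
  rw [← h, ← mul_assoc, ← ENNReal.ofReal_mul (by positivity), abs_of_pos (by positivity),
    mul_inv_cancel₀ (by positivity), ENNReal.ofReal_one, one_mul]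

lemma layer {p : Eu n → ℝ} (hp : Measurable p) (p0 : ∀ x, 0 ≤ p x)
    (hph : ∀ (t : ℝ) x, 0 < t → p (t • x) = t * p x) {F : Eu n → ℝ≥0∞} (hF : Measurable F) {d : ℕ}
    (hFh : ∀ (t : ℝ) x, 0 < t → F (t • x) = ENNReal.ofReal (t ^ d) * F x)
    {ω : ℝ → ℝ≥0∞} (hω : Measurable ω) {g : ℝ → ℝ≥0∞} (hg : ∀ s, 0 ≤ s → g s = ∫⁻ t in Ioi s, ω t) :
    ∫⁻ x, g (p x) * F x =
      (∫⁻ t in Ioi (0 : ℝ), ω t * ENNReal.ofReal (t ^ (n + d))) * ∫⁻ x in {x | p x ≤ 1}, F x := by
  set G : Eu n → ℝ → ℝ≥0∞ := fun x t => ω t * {x | p x ≤ t}.indicator F x with hG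
  have mG : Measurable (uncurry G) := by
    have : uncurry G = fun z : Eu n × ℝ => ω z.2 * {z : Eu n × ℝ | p z.1 ≤ z.2}.indicator
        (fun z => F z.1) z := rfl
    rw [this]
    exact (hω.comp measurable_snd).mul ((hF.comp measurable_fst).indicator
      (measurableSet_le (hp.comp measurable_fst) measurable_snd))
  have e1 : ∀ x, g (p x) * F x = ∫⁻ t in Ioi (0 : ℝ), G x t := fun x => by
    rw [hg _ (p0 x), ← lintegral_mul_const _ hω, ← lintegral_indicator measurableSet_Ioi,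
      ← lintegral_indicator measurableSet_Ioi]
    refine lintegral_congr_ae ?_
    filter_upwards [Measure.ae_ne volume (p x)] with t ht
    rcases lt_or_gt_of_ne ht with h | h
    · simp [hG, indicator, h.not_gt, h.not_ge]
    · simp [hG, indicator, h, h.le, (p0 x).trans_lt h]
  simp_rw [e1]
  rw [lintegral_lintegral_swap mG.aemeasurable, ← lintegral_mul_const _ (by fun_prop)]
  refine setLIntegral_congr_fun measurableSet_Ioi fun t (ht : 0 < t) => ?_
  have m1 : ∀ s : ℝ, MeasurableSet {x | p x ≤ s} := fun s => measurableSet_le hp measurable_const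
  simp only [hG]
  rw [lintegral_const_mul _ (hF.indicator (m1 t)), lint_scale (hF.indicator (m1 t)) ht, mul_assoc,
    pow_add, ENNReal.ofReal_mul (by positivity), mul_assoc, ← lintegral_indicator (m1 1),
    ← lintegral_const_mul _ (hF.indicator (m1 1))]
  congr 3
  funext x
  by_cases h : p x ≤ 1
  · rw [indicator_of_mem (show t • x ∈ {x | p x ≤ t} by
      simpa [hph t x ht] using mul_le_of_le_one_right ht.le h),
      indicator_of_mem (show x ∈ {x | p x ≤ 1} from h), hFh t x ht]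
  · rw [indicator_of_notMem (show t • x ∉ {x | p x ≤ t} by
      simpa [hph t x ht, ht] using h), indicator_of_notMem (show x ∉ {x | p x ≤ 1} from h),
      mul_zero]

lemma exp1 (s : ℝ) :
    ENNReal.ofReal (Real.exp (-s)) = ∫⁻ t in Ioi s, ENNReal.ofReal (Real.exp (-t)) := by
  rw [← ofReal_integral_eq_lintegral_ofReal (integrableOn_exp_neg_Ioi s)
    (Eventually.of_forall fun _ => (Real.exp_pos _).le), integral_exp_neg_Ioi]

lemma mom1 (j : ℕ) : ∫⁻ t in Ioi (0 : ℝ), ENNReal.ofReal (Real.exp (-t)) * ENNReal.ofReal (t ^ j) =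
    ENNReal.ofReal (j !) := by
  have hj : (0 : ℝ) < j + 1 := by positivity
  have h1 := Real.GammaIntegral_convergent hj
  have h2 := Real.Gamma_eq_integral hj
  simp only [add_sub_cancel_right, Real.rpow_natCast] at h1 h2
  rw [← Real.Gamma_nat_eq_factorial, h2, ofReal_integral_eq_lintegral_ofReal h1
    ((ae_restrict_iff' measurableSet_Ioi).2 (Eventually.of_forall fun t (ht : 0 < t) => by
      show (0 : ℝ) ≤ _
      positivity))]
  simp_rw [ENNReal.ofReal_mul (Real.exp_pos _).le]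

lemma exp2 (s : ℝ) (hs : 0 ≤ s) : ENNReal.ofReal (Real.exp (-(s ^ 2 / 2))) =
    ∫⁻ t in Ioi s, ENNReal.ofReal (t * Real.exp (-(t ^ 2 / 2))) := by
  have hd : ∀ x ∈ Ici s, HasDerivAt (fun t : ℝ => -Real.exp (-(t ^ 2 / 2)))
      (x * Real.exp (-(x ^ 2 / 2))) x := fun x _ => by
    refine (((hasDerivAt_pow 2 x).div_const 2).neg.exp).neg.congr_deriv ?_
    simp [mul_comm]
  have hp : ∀ x ∈ Ioi s, 0 ≤ x * Real.exp (-(x ^ 2 / 2)) := fun x hx =>
    mul_nonneg (hs.trans (le_of_lt hx)) (Real.exp_pos _).le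
  have hl : Tendsto (fun t : ℝ => -Real.exp (-(t ^ 2 / 2))) atTop (𝓝 (-0)) :=
    (Real.tendsto_exp_neg_atTop_nhds_zero.comp
      ((tendsto_pow_atTop two_ne_zero).atTop_div_const two_pos)).neg
  rw [← ofReal_integral_eq_lintegral_ofReal (integrableOn_Ioi_deriv_of_nonneg' hd hp hl)
    ((ae_restrict_iff' measurableSet_Ioi).2 (Eventually.of_forall hp)),
    integral_Ioi_of_hasDerivAt_of_nonneg' hd hp hl]
  simp

/-- Moments of the Rayleigh law. -/
noncomputable def ray (j : ℕ) : ℝ :=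
  (1 / 2 : ℝ) ^ (-((j + 1 : ℝ) + 1) / 2) * (1 / 2) * Real.Gamma (((j + 1 : ℝ) + 1) / 2)

lemma mom2 (j : ℕ) : ∫⁻ t in Ioi (0 : ℝ), ENNReal.ofReal (t * Real.exp (-(t ^ 2 / 2))) *
    ENNReal.ofReal (t ^ j) = ENNReal.ofReal (ray j) := by
  have hj : (-1 : ℝ) < j + 1 := by linarith [Nat.cast_nonneg (α := ℝ) j]
  have h1 := integrableOn_rpow_mul_exp_neg_mul_rpow hj two_pos one_half_pos
  rw [ray, ← integral_rpow_mul_exp_neg_mul_rpow two_pos hj one_half_pos,
    ofReal_integral_eq_lintegral_ofReal h1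
    ((ae_restrict_iff' measurableSet_Ioi).2 (Eventually.of_forall fun t (ht : 0 < t) => by
      show (0 : ℝ) ≤ _
      positivity))]
  refine setLIntegral_congr_fun measurableSet_Ioi fun t (ht : 0 < t) => ?_
  rw [← ENNReal.ofReal_mul (by positivity), ← Nat.cast_succ, Real.rpow_natCast, Real.rpow_two]
  congr 1
  rw [show -(1 / 2) * t ^ 2 = -(t ^ 2 / 2) by ring, pow_succ t j]
  ring

lemma ray_succ (j : ℕ) : ray (j + 2) = (j + 2) * ray j := by
  have h : (0 : ℝ) < ((j + 1 : ℝ) + 1) / 2 := by positivity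
  unfold ray
  rw [show -((((j + 2 : ℕ) : ℝ) + 1) + 1) / 2 = -((j + 1 : ℝ) + 1) / 2 - 1 by push_cast; ring,
    show ((((j + 2 : ℕ) : ℝ) + 1) + 1) / 2 = ((j + 1 : ℝ) + 1) / 2 + 1 by push_cast; ring,
    Real.Gamma_add_one h.ne', Real.rpow_sub_one (by norm_num)]
  ring

lemma wallis (j : ℕ) : (∫ x in (0 : ℝ)..π / 2, Real.cos x ^ j) * ray j ^ 2 = π / 2 * j ! := by
  induction j using Nat.twoStepInduction with
  | zero =>
    have : ray 0 = 1 := by
      unfold ray
      norm_num [Real.rpow_neg_one]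
    simp [this]
  | one =>
    have : ray 1 ^ 2 = π / 2 := by
      unfold ray
      rw [show ((((1 : ℕ) : ℝ) + 1) + 1) / 2 = 1 / 2 + 1 by norm_num,
        Real.Gamma_add_one (by norm_num), Real.Gamma_one_half_eq, mul_pow, mul_pow, mul_pow,
        Real.sq_sqrt Real.pi_pos.le, ← Real.rpow_natCast, ← Real.rpow_mul (by norm_num),
        show -((((1 : ℕ) : ℝ) + 1) + 1) / 2 * (2 : ℕ) = -(3 : ℕ) by norm_num,
        Real.rpow_neg (by norm_num), Real.rpow_natCast]
      ring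
    simp [this]
  | more j h _ =>
    rw [integral_cos_pow, ray_succ, Nat.factorial_succ, Nat.factorial_succ]
    simp only [Real.cos_pi_div_two, Real.sin_zero, ne_eq, Nat.add_eq_zero_iff, one_ne_zero,
      and_false, not_false_eq_true, zero_pow, zero_mul, mul_zero, sub_zero, zero_div, zero_add]
    push_cast
    have : (j + 2 : ℝ) ≠ 0 := by positivity
    calc _ = (j + 1) * (j + 2) * ((∫ x in (0 : ℝ)..π / 2, Real.cos x ^ j) * ray j ^ 2) := by
          field_simp
      _ = _ := by rw [h]; ring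

lemma ray_nonneg (j : ℕ) : 0 ≤ ray j := by
  have := Real.Gamma_pos_of_pos (s := ((j + 1 : ℝ) + 1) / 2) (by positivity)
  unfold ray
  positivity

lemma wallis' (j : ℕ) : (∫⁻ θ in Ioo 0 (π / 2), ENNReal.ofReal (Real.cos θ ^ j)) *
    (ENNReal.ofReal (ray j) * ENNReal.ofReal (ray j)) =
      ENNReal.ofReal (π / 2) * ENNReal.ofReal (j !) := by
  have hpi := Real.pi_pos
  have h0 : 0 ≤ᵐ[volume.restrict (Ioo 0 (π / 2))] fun θ => Real.cos θ ^ j :=
    (ae_restrict_iff' measurableSet_Ioo).2 (Eventually.of_forall fun θ hθ => pow_nonneg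
      (Real.cos_nonneg_of_mem_Icc ⟨by linarith [hθ.1], hθ.2.le⟩) _)
  rw [← ofReal_integral_eq_lintegral_ofReal
    ((by fun_prop : Continuous fun θ => Real.cos θ ^ j).integrableOn_Icc.mono_set
      Ioo_subset_Icc_self) h0, ← ENNReal.ofReal_mul (ray_nonneg j),
    ← ENNReal.ofReal_mul (integral_nonneg_of_ae h0), ← ENNReal.ofReal_mul (by positivity),
    ← integral_Ioc_eq_integral_Ioo, ← intervalIntegral.integral_of_le (by positivity), ← sq, wallis]

end Pool.Agent.MP_19b6be_gt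

end MrgPart0

-- ======== part 1: formerly Pool.Agent.MP_19b6be_gt.Mix
section MrgPart1

set_option autoImplicit false
set_option linter.unusedSectionVars false

open scoped RealInnerProductSpace Real Topology Nat ENNReal
open MeasureTheory Module Filter Metric Function Set

namespace Pool.Agent.MP_19b6be_gt

variable {n : ℕ}

/-- Nonnegative measurable positively homogeneous functions. -/
structure Hom (p : Eu n → ℝ) : Prop where
  meas : Measurable p
  nonneg : ∀ x, 0 ≤ p x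
  smul : ∀ (t : ℝ) x, 0 < t → p (t • x) = t * p x

lemma cosh_series (τ a : ℝ) : ENNReal.ofReal (Real.cosh (τ * a)) =
    ∑' i : ℕ, ENNReal.ofReal (τ ^ (2 * i) / (2 * i)!) * ENNReal.ofReal (a ^ (2 * i)) := by
  have h := Real.hasSum_cosh (τ * a)
  rw [← h.tsum_eq, ENNReal.ofReal_tsum_of_nonneg (fun i => div_nonneg (by rw [pow_mul]; positivity)
    (Nat.cast_nonneg _)) h.summable]
  refine tsum_congr fun i => ?_
  rw [← ENNReal.ofReal_mul (div_nonneg (by rw [pow_mul]; positivity) (Nat.cast_nonneg _))]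
  congr 1
  ring

lemma meas_inner {b : Eu n → ℝ≥0∞} (hb : Measurable b) {f : ℝ → ℝ} (hf : Measurable f)
    (μ : Measure (Eu n)) [SFinite μ] :
    Measurable fun x : Eu n => ∫⁻ y, b y * ENNReal.ofReal (f ⟪x, y⟫) ∂μ :=
  Measurable.lintegral_prod_right' (f := fun z : Eu n × Eu n =>
    b z.2 * ENNReal.ofReal (f ⟪z.1, z.2⟫)) (by fun_prop)

lemma series (μ : Measure (Eu n)) {a b : Eu n → ℝ≥0∞} (ha : Measurable a) (hb : Measurable b)
    (τ : ℝ) : ∫⁻ x, a x * (∫⁻ y, b y * ENNReal.ofReal (Real.cosh (τ * ⟪x, y⟫))) ∂μ =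
      ∑' i : ℕ, ENNReal.ofReal (τ ^ (2 * i) / (2 * i)!) *
        ∫⁻ x, a x * (∫⁻ y, b y * ENNReal.ofReal (⟪x, y⟫ ^ (2 * i))) ∂μ := by
  have m : ∀ i : ℕ, Measurable fun x : Eu n => ∫⁻ y, b y * ENNReal.ofReal (⟪x, y⟫ ^ (2 * i)) :=
    fun i => meas_inner hb (f := fun s => s ^ (2 * i)) (by fun_prop) _
  have e : ∀ x : Eu n, a x * (∫⁻ y, b y * ENNReal.ofReal (Real.cosh (τ * ⟪x, y⟫))) =
      ∑' i : ℕ, ENNReal.ofReal (τ ^ (2 * i) / (2 * i)!) *
        (a x * (∫⁻ y, b y * ENNReal.ofReal (⟪x, y⟫ ^ (2 * i)))) := fun x => by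
    simp_rw [cosh_series, ← ENNReal.tsum_mul_left]
    rw [lintegral_tsum fun i => by fun_prop, ← ENNReal.tsum_mul_left]
    refine tsum_congr fun i => ?_
    simp_rw [mul_left_comm (b _)]
    rw [lintegral_const_mul _ (by fun_prop), mul_left_comm]
  simp_rw [e]
  rw [lintegral_tsum fun i => ((ha.fun_mul (m i)).const_mul _).aemeasurable]
  exact tsum_congr fun i => lintegral_const_mul _ (ha.mul (m i))

/-- Gaussian-type functional. -/
noncomputable def EE (p h : Eu n → ℝ) (τ : ℝ) : ℝ≥0∞ :=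
  ∫⁻ x, ENNReal.ofReal (Real.exp (-(p x ^ 2 / 2))) *
    ∫⁻ y, ENNReal.ofReal (Real.exp (-(h y ^ 2 / 2))) * ENNReal.ofReal (Real.cosh (τ * ⟪x, y⟫))

/-- Funk-type functional. -/
noncomputable def NN (p h : Eu n → ℝ) (ρ : ℝ) : ℝ≥0∞ :=
  ∫⁻ x in {x | p x ≤ 1},
    ∫⁻ y, ENNReal.ofReal (Real.exp (-h y)) * ENNReal.ofReal (Real.cosh (ρ * ⟪x, y⟫))

/-- Even moments. -/
noncomputable def TT (p h : Eu n → ℝ) (i : ℕ) : ℝ≥0∞ :=
  ∫⁻ x in {x | p x ≤ 1}, ∫⁻ y in {y | h y ≤ 1}, ENNReal.ofReal (⟪x, y⟫ ^ (2 * i))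

lemma pow_hom (i : ℕ) (x y : Eu n) {t : ℝ} (ht : 0 < t) : ENNReal.ofReal (⟪x, t • y⟫ ^ (2 * i)) =
    ENNReal.ofReal (t ^ (2 * i)) * ENNReal.ofReal (⟪x, y⟫ ^ (2 * i)) := by
  rw [real_inner_smul_right, mul_pow, ENNReal.ofReal_mul (by positivity)]

lemma meas_TT (h : Eu n → ℝ) (i : ℕ) :
    Measurable fun x : Eu n => ∫⁻ y in {y | h y ≤ 1}, ENNReal.ofReal (⟪x, y⟫ ^ (2 * i)) :=
  Measurable.lintegral_prod_right' (f := fun z : Eu n × Eu n =>
    ENNReal.ofReal (⟪z.1, z.2⟫ ^ (2 * i))) (by fun_prop)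

lemma NN_eq {p h : Eu n → ℝ} (hh : Hom h) (ρ : ℝ) : NN p h ρ =
    ∑' i : ℕ, ENNReal.ofReal (ρ ^ (2 * i) / (2 * i)!) *
      (ENNReal.ofReal ((n + 2 * i)!) * TT p h i) := by
  have := hh.meas
  have h1 := series (volume.restrict {x | p x ≤ 1}) (a := fun _ => 1)
    (b := fun y => ENNReal.ofReal (Real.exp (-h y))) measurable_const (by fun_prop) ρ
  simp only [one_mul] at h1
  rw [NN, h1]
  refine tsum_congr fun i => ?_
  rw [TT, ← lintegral_const_mul _ (meas_TT h i), ← mom1]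
  congr 2
  funext x
  exact layer hh.meas hh.nonneg hh.smul (by fun_prop) (fun t y ht => pow_hom i x y ht)
    (ω := fun t => ENNReal.ofReal (Real.exp (-t))) (g := fun s => ENNReal.ofReal (Real.exp (-s)))
    (by fun_prop) fun s _ => exp1 s

lemma EE_eq {p h : Eu n → ℝ} (hp : Hom p) (hh : Hom h) (τ : ℝ) : EE p h τ =
    ∑' i : ℕ, ENNReal.ofReal (τ ^ (2 * i) / (2 * i)!) *
      (ENNReal.ofReal (ray (n + 2 * i)) * ENNReal.ofReal (ray (n + 2 * i)) * TT p h i) := by
  have := hh.meas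
  have := hp.meas
  rw [EE, series volume (by fun_prop) (by fun_prop) τ]
  refine tsum_congr fun i => ?_
  congr 1
  have e : ∀ x : Eu n, ∫⁻ y, ENNReal.ofReal (Real.exp (-(h y ^ 2 / 2))) *
      ENNReal.ofReal (⟪x, y⟫ ^ (2 * i)) = ENNReal.ofReal (ray (n + 2 * i)) *
        ∫⁻ y in {y | h y ≤ 1}, ENNReal.ofReal (⟪x, y⟫ ^ (2 * i)) := fun x => by
    rw [← mom2]
    exact layer hh.meas hh.nonneg hh.smul (by fun_prop) (fun t y ht => pow_hom i x y ht)
      (ω := fun t => ENNReal.ofReal (t * Real.exp (-(t ^ 2 / 2))))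
      (g := fun s => ENNReal.ofReal (Real.exp (-(s ^ 2 / 2)))) (by fun_prop) exp2
  simp_rw [e, mul_left_comm _ (ENNReal.ofReal (ray (n + 2 * i)))]
  rw [lintegral_const_mul' _ _ ENNReal.ofReal_ne_top, mul_assoc]
  congr 1
  rw [← mom2]
  refine layer hp.meas hp.nonneg hp.smul (meas_TT h i) (fun t x ht => ?_)
    (ω := fun t => ENNReal.ofReal (t * Real.exp (-(t ^ 2 / 2))))
    (g := fun s => ENNReal.ofReal (Real.exp (-(s ^ 2 / 2)))) (by fun_prop) exp2
  rw [← lintegral_const_mul _ (by fun_prop)]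
  refine lintegral_congr fun y => ?_
  rw [real_inner_comm, pow_hom i y x ht, real_inner_comm]

/-- The Funk-type functional is a mixture of Gaussian-type functionals. -/
theorem mix {p h : Eu n → ℝ} (hp : Hom p) (hh : Hom h) (ρ : ℝ) :
    ENNReal.ofReal (π / 2) * NN p h ρ =
      ∫⁻ θ in Ioo 0 (π / 2), ENNReal.ofReal (Real.cos θ ^ n) * EE p h (ρ * Real.cos θ) := by
  simp_rw [EE_eq hp hh, NN_eq hh, ← ENNReal.tsum_mul_left]
  rw [lintegral_tsum fun i => by fun_prop]
  refine tsum_congr fun i => ?_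
  rw [mul_left_comm, ← mul_assoc (ENNReal.ofReal (π / 2)), ← wallis', mul_assoc, ← mul_assoc,
    ← lintegral_const_mul _ (by fun_prop), ← lintegral_mul_const _ (by fun_prop)]
  refine setLIntegral_congr_fun measurableSet_Ioo fun θ hθ => ?_
  have hc : 0 ≤ Real.cos θ :=
    Real.cos_nonneg_of_mem_Icc ⟨by linarith [hθ.1, Real.pi_pos], hθ.2.le⟩
  rw [← mul_assoc (ENNReal.ofReal (Real.cos θ ^ n)), ← ENNReal.ofReal_mul (pow_nonneg hc _),
    ← ENNReal.ofReal_mul (div_nonneg (by rw [pow_mul]; positivity) (Nat.cast_nonneg _))]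
  congr 2
  ring

lemma sym_neg {f : Eu n → ℝ≥0∞} (hf : Measurable f) : 2 * ∫⁻ x, f x = ∫⁻ x, f x + f (-x) := by
  rw [lintegral_add_left hf, lintegral_neg_eq_self, two_mul]

lemma exp_add_exp (a : ℝ) : ENNReal.ofReal (Real.exp a) + ENNReal.ofReal (Real.exp (-a)) =
    2 * ENNReal.ofReal (Real.cosh a) := by
  rw [← ENNReal.ofReal_add (Real.exp_pos _).le (Real.exp_pos _).le, Real.cosh_eq,
    ← ENNReal.ofReal_ofNat, ← ENNReal.ofReal_mul (by norm_num)]
  congr 1
  ring

lemma EE_two {p h : Eu n → ℝ} (hp : Measurable p) (hh : Measurable h) (τ : ℝ) : 2 * EE p h τ =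
    (∫⁻ z : Eu n × Eu n, ENNReal.ofReal (Real.exp (-(p z.1 ^ 2 / 2 + h z.2 ^ 2 / 2) +
      τ * ⟪z.1, z.2⟫)) ∂(volume.prod volume)) +
    ∫⁻ z : Eu n × Eu n, ENNReal.ofReal (Real.exp (-(p z.1 ^ 2 / 2 + h z.2 ^ 2 / 2) +
      -τ * ⟪z.1, z.2⟫)) ∂(volume.prod volume) := by
  rw [← lintegral_add_left (by fun_prop), lintegral_prod _ (by fun_prop), EE,
    ← lintegral_const_mul' _ _ (by simp)]
  refine lintegral_congr fun x => ?_
  rw [← lintegral_const_mul' _ _ (by simp), ← lintegral_const_mul' _ _ (by simp)]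
  refine lintegral_congr fun y => ?_
  simp only [neg_add, Real.exp_add, neg_mul]
  rw [ENNReal.ofReal_mul (by positivity), ENNReal.ofReal_mul (by positivity),
    ENNReal.ofReal_mul (q := Real.exp (-(τ * ⟪x, y⟫))) (by positivity),
    ENNReal.ofReal_mul (by positivity), ← mul_add, exp_add_exp]
  ring

lemma EE_le {p h : Eu n → ℝ} (hp : Continuous p) (hh : Continuous h)
    (hph : ∀ x y, |⟪x, y⟫| ≤ p x * h y) (t : ℝ) :
    EE p h (Real.tanh t) ≤ ENNReal.ofReal ((2 * π * Real.cosh t) ^ n) := by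
  have key := fun t => func_bound (P := fun x => p x ^ 2 / 2) (Q := fun y => h y ^ 2 / 2)
    (by fun_prop) (by fun_prop)
    (fun x y => (hph x y).trans (by nlinarith [sq_nonneg (p x - h y)])) t
  have h1 := add_le_add (key t) (key (-t))
  rw [Real.tanh_neg, Real.cosh_neg, ← EE_two hp.measurable hh.measurable, ← two_mul] at h1
  exact (ENNReal.mul_le_mul_iff_right (by simp) (by simp)).1 h1

lemma gauss {b : ℝ} (hb : 0 < b) : ∫⁻ x : Eu n, ENNReal.ofReal (Real.exp (-b * ‖x‖ ^ 2)) =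
    ENNReal.ofReal (√(π / b) ^ n) := by
  have h := GaussianFourier.integral_rexp_neg_mul_sq_norm (V := Eu n) hb
  have h0 : 0 < π / b := div_pos Real.pi_pos hb
  rw [← ofReal_integral_eq_lintegral_ofReal (Integrable.of_integral_ne_zero (by
    rw [h]; positivity)) (Eventually.of_forall fun _ => (Real.exp_pos _).le), h,
    finrank_euclideanSpace_fin, Real.sqrt_eq_rpow, ← Real.rpow_natCast, ← Real.rpow_mul h0.le]
  congr 2
  ring

lemma gauss2 {τ : ℝ} (hτ : τ ^ 2 < 1) :
    ∫⁻ z : Eu n × Eu n, ENNReal.ofReal (Real.exp (-(‖z.1‖ ^ 2 / 2 + ‖z.2‖ ^ 2 / 2) +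
      τ * ⟪z.1, z.2⟫)) ∂(volume.prod volume) = ENNReal.ofReal ((2 * π / √(1 - τ ^ 2)) ^ n) := by
  have h0 : 0 < 1 - τ ^ 2 := by linarith
  have hpi := Real.pi_pos
  rw [lintegral_prod _ (by fun_prop)]
  have e : ∀ x : Eu n, ∫⁻ y : Eu n, ENNReal.ofReal (Real.exp (-(‖x‖ ^ 2 / 2 + ‖y‖ ^ 2 / 2) +
      τ * ⟪x, y⟫)) = ENNReal.ofReal (Real.exp (-((1 - τ ^ 2) / 2) * ‖x‖ ^ 2)) *
        ENNReal.ofReal (√(π / (1 / 2)) ^ n) := fun x => by
    rw [← gauss one_half_pos, ← lintegral_const_mul' _ _ (by simp),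
      ← lintegral_add_right_eq_self _ (τ • x)]
    refine lintegral_congr fun y => ?_
    rw [← ENNReal.ofReal_mul (Real.exp_pos _).le, ← Real.exp_add, norm_add_sq_real,
      inner_add_right, real_inner_smul_right, real_inner_smul_right, real_inner_self_eq_norm_sq,
      norm_smul, mul_pow, Real.norm_eq_abs, sq_abs, real_inner_comm]
    congr 2
    ring
  simp_rw [e]
  rw [lintegral_mul_const' _ _ ENNReal.ofReal_ne_top, gauss (half_pos h0),
    ← ENNReal.ofReal_mul (by positivity), ← mul_pow, ← Real.sqrt_mul (by positivity)]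
  congr 2
  rw [show π / ((1 - τ ^ 2) / 2) * (π / (1 / 2)) = (2 * π) ^ 2 / (1 - τ ^ 2) by field_simp,
    Real.sqrt_div (by positivity), Real.sqrt_sq (by positivity)]

lemma EE_ball {τ : ℝ} (hτ : τ ^ 2 < 1) : EE (n := n) (fun x => ‖x‖) (fun x => ‖x‖) τ =
    ENNReal.ofReal ((2 * π / √(1 - τ ^ 2)) ^ n) := by
  have h := EE_two (n := n) measurable_norm measurable_norm τ
  rw [gauss2 hτ, gauss2 (τ := -τ) (by rwa [neg_sq]), neg_sq, ← two_mul] at h
  exact (ENNReal.mul_right_inj (by simp) (by simp)).1 h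

lemma hom_norm : Hom fun x : Eu n => ‖x‖ :=
  ⟨measurable_norm, norm_nonneg, fun t x ht => by rw [norm_smul, Real.norm_of_nonneg ht.le]⟩

theorem NN_le {p h : Eu n → ℝ} (hp : Hom p) (hh : Hom h) (cp : Continuous p) (ch : Continuous h)
    (hph : ∀ x y, |⟪x, y⟫| ≤ p x * h y) {ρ : ℝ} (hρ : ρ ^ 2 < 1) :
    NN p h ρ ≤ NN (n := n) (fun x => ‖x‖) (fun x => ‖x‖) ρ := by
  have hpi := Real.pi_pos
  refine (ENNReal.mul_le_mul_iff_right (a := ENNReal.ofReal (π / 2)) (by simpa using hpi)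
    (by simp)).1 ?_
  rw [mix hp hh, mix hom_norm hom_norm]
  refine lintegral_mono fun θ => mul_le_mul_right ?_ _
  have h1 : (ρ * Real.cos θ) ^ 2 < 1 := by
    rw [mul_pow]
    exact (mul_le_of_le_one_right (sq_nonneg _) (Real.cos_sq_le_one θ)).trans_lt hρ
  have h2 : ρ * Real.cos θ ∈ Ioo (-1 : ℝ) 1 := abs_lt.1 ((sq_lt_one_iff_abs_lt_one _).1 h1)
  have := EE_le cp ch hph (Real.artanh (ρ * Real.cos θ))
  rwa [Real.tanh_artanh h2, Real.cosh_artanh h2, mul_one_div, ← EE_ball h1] at this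

end Pool.Agent.MP_19b6be_gt

end MrgPart1

-- ======== part 2: formerly Pool.Agent.MP_19b6be_gt.Gauss
section MrgPart2

set_option autoImplicit false
set_option linter.unusedSectionVars false

open scoped RealInnerProductSpace Real Topology Nat ENNReal
open MeasureTheory Module Filter Metric Function Set

namespace Pool.Agent.MP_19b6be_gt

variable {n : ℕ}

/-- Gaussian weight. -/
noncomputable def wt (y : Eu n) : ℝ := Real.exp (-(‖y‖ ^ 2 / 2))

lemma wt_pos (y : Eu n) : 0 < wt y := Real.exp_pos _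

lemma wt_cont : Continuous (wt (n := n)) := by unfold wt; fun_prop

lemma int_gauss {b : ℝ} (hb : 0 < b) : Integrable fun y : Eu n => Real.exp (-b * ‖y‖ ^ 2) :=
  Integrable.of_integral_ne_zero (by
    rw [GaussianFourier.integral_rexp_neg_mul_sq_norm hb]
    exact (Real.rpow_pos_of_pos (div_pos Real.pi_pos hb) _).ne')

lemma int_wt (C : ℝ) : Integrable fun y : Eu n => wt y * Real.exp (C * ‖y‖) := by
  refine ((int_gauss (n := n) (b := 1 / 4) (by norm_num)).const_mul (Real.exp (C ^ 2))).mono'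
    (wt_cont.mul (by fun_prop)).aestronglyMeasurable (Eventually.of_forall fun y => ?_)
  rw [Real.norm_of_nonneg (mul_pos (wt_pos y) (Real.exp_pos _)).le, wt, ← Real.exp_add,
    ← Real.exp_add, Real.exp_le_exp]
  nlinarith [sq_nonneg (‖y‖ / 2 - C)]

variable {X : Type*} [NormedAddCommGroup X] [NormedSpace ℝ X] [MeasurableSpace X]

/-- Measurable functions of at most exponential growth. -/
def Gr (f : X → ℝ) : Prop := Measurable f ∧ ∃ C, 0 ≤ C ∧ ∀ z, |f z| ≤ C * Real.exp (C * ‖z‖)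

lemma Gr.of_bdd {f : X → ℝ} (hf : Measurable f) {C : ℝ} (h : ∀ z, |f z| ≤ C) : Gr f :=
  have h0 : 0 ≤ C := (abs_nonneg _).trans (h 0)
  ⟨hf, C, h0, fun z => (h z).trans (le_mul_of_one_le_right h0 (Real.one_le_exp (by positivity)))⟩

lemma Gr.const (c : ℝ) : Gr fun _ : X => c := Gr.of_bdd measurable_const fun _ => le_rfl

lemma Gr.of_le_norm {f : X → ℝ} (hf : Measurable f) (h : ∀ z, |f z| ≤ ‖z‖) : Gr f :=
  ⟨hf, 1, zero_le_one, fun z => (h z).trans (by
    rw [one_mul, one_mul]; linarith [Real.add_one_le_exp ‖z‖])⟩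

lemma Gr.add {f g : X → ℝ} (hf : Gr f) (hg : Gr g) : Gr fun z => f z + g z := by
  obtain ⟨mf, C, hC, h1⟩ := hf
  obtain ⟨mg, D, hD, h2⟩ := hg
  refine ⟨mf.add mg, C + D, by positivity, fun z => (abs_add_le _ _).trans ?_⟩
  rw [add_mul C D (Real.exp _)]
  refine add_le_add ((h1 z).trans ?_) ((h2 z).trans ?_) <;> gcongr <;> linarith

lemma Gr.mul {f g : X → ℝ} (hf : Gr f) (hg : Gr g) : Gr fun z => f z * g z := by
  obtain ⟨mf, C, hC, h1⟩ := hf
  obtain ⟨mg, D, hD, h2⟩ := hg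
  refine ⟨mf.mul mg, C * D + (C + D), by positivity, fun z => ?_⟩
  have := mul_nonneg hC hD
  calc |f z * g z| ≤ C * Real.exp (C * ‖z‖) * (D * Real.exp (D * ‖z‖)) := by
        rw [abs_mul]; exact mul_le_mul (h1 z) (h2 z) (abs_nonneg _) (by positivity)
    _ = C * D * Real.exp ((C + D) * ‖z‖) := by rw [add_mul, Real.exp_add]; ring
    _ ≤ _ := mul_le_mul (by linarith) (Real.exp_le_exp.2 (mul_le_mul_of_nonneg_right (by linarith)
          (norm_nonneg _))) (Real.exp_pos _).le (by positivity)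

lemma Gr.neg {f : X → ℝ} (hf : Gr f) : Gr fun z => -f z := by
  simpa using (Gr.const (-1)).mul hf

lemma Gr.sub {f g : X → ℝ} (hf : Gr f) (hg : Gr g) : Gr fun z => f z - g z := by
  simpa only [sub_eq_add_neg] using hf.add hg.neg

lemma Gr.sum {ι : Type*} (s : Finset ι) {f : ι → X → ℝ} (hf : ∀ i, Gr (f i)) :
    Gr fun z => ∑ i ∈ s, f i z := by
  classical
  induction s using Finset.induction_on with
  | empty => simpa using Gr.const 0
  | insert a s ha ih => simpa only [Finset.sum_insert ha] using (hf a).add ih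

lemma Gr.rpow {f : X → ℝ} (hf : Gr f) {δ : ℝ} (hδ : 0 < δ) (h : ∀ z, δ ≤ f z) (r : ℝ) :
    Gr fun z => f z ^ r := by
  obtain ⟨mf, C, hC, h1⟩ := hf
  rcases le_total r 0 with hr | hr
  · refine Gr.of_bdd (mf.pow_const r) (C := δ ^ r) fun z => ?_
    rw [abs_of_nonneg (Real.rpow_nonneg (hδ.le.trans (h z)) _)]
    exact Real.rpow_le_rpow_of_nonpos hδ (h z) hr
  · refine ⟨mf.pow_const r, C ^ r + C * r, by positivity, fun z => ?_⟩
    rw [abs_of_nonneg (Real.rpow_nonneg (hδ.le.trans (h z)) _)]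
    have h2 := Real.rpow_nonneg hC r
    calc f z ^ r ≤ (C * Real.exp (C * ‖z‖)) ^ r :=
          Real.rpow_le_rpow (hδ.le.trans (h z)) ((le_abs_self _).trans (h1 z)) hr
      _ = C ^ r * Real.exp (C * r * ‖z‖) := by
          rw [Real.mul_rpow hC (Real.exp_pos _).le, ← Real.exp_mul]; ring_nf
      _ ≤ _ := by gcongr <;> nlinarith [mul_nonneg hC hr]

lemma Gr.fst {Y : Type*} [NormedAddCommGroup Y] [MeasurableSpace Y] {f : X → ℝ} (hf : Gr f) :
    Gr fun z : X × Y => f z.1 := by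
  obtain ⟨mf, C, hC, h1⟩ := hf
  refine ⟨mf.comp measurable_fst, C, hC, fun z => (h1 _).trans ?_⟩
  gcongr
  exact norm_fst_le z

lemma Gr.coord (i : Fin n) : Gr fun z : X × Eu n => z.2 i :=
  Gr.of_le_norm (by fun_prop) fun z => (PiLp.norm_apply_le z.2 i).trans (norm_snd_le z)

/-- Gaussian average over the last variable. -/
noncomputable def Ex (f : X × Eu n → ℝ) (z : X) : ℝ := ∫ y, wt y * f (z, y)

lemma bd_prod {C : ℝ} (hC : 0 ≤ C) (z : X) (y : Eu n) :
    C * Real.exp (C * ‖(z, y)‖) ≤ C * Real.exp (C * ‖z‖) * Real.exp (C * ‖y‖) := by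
  rw [mul_assoc, ← Real.exp_add, ← mul_add]
  gcongr
  exact max_le (le_add_of_nonneg_right (norm_nonneg _)) (le_add_of_nonneg_left (norm_nonneg _))

lemma wt_bd {f : X × Eu n → ℝ} {C : ℝ} (hC : 0 ≤ C) (h : ∀ z, |f z| ≤ C * Real.exp (C * ‖z‖))
    (z : X) (y : Eu n) :
    ‖wt y * f (z, y)‖ ≤ C * Real.exp (C * ‖z‖) * (wt y * Real.exp (C * ‖y‖)) := by
  rw [norm_mul, Real.norm_of_nonneg (wt_pos y).le, mul_left_comm]
  exact mul_le_mul_of_nonneg_left ((h _).trans (bd_prod hC z y)) (wt_pos y).le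

lemma Gr.aesm {f : X × Eu n → ℝ} (hf : Gr f) (z : X) :
    AEStronglyMeasurable (fun y => wt y * f (z, y)) volume :=
  (wt_cont.measurable.mul (hf.1.comp measurable_prodMk_left)).aestronglyMeasurable

lemma Gr.int {f : X × Eu n → ℝ} (hf : Gr f) (z : X) : Integrable fun y => wt y * f (z, y) := by
  obtain ⟨C, hC, h1⟩ := hf.2
  exact ((int_wt C).const_mul _).mono' (hf.aesm z) (Eventually.of_forall (wt_bd hC h1 z))

lemma Gr.ex {f : X × Eu n → ℝ} (hf : Gr f) : Gr (Ex f) := by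
  obtain ⟨mf, C, hC, h1⟩ := hf
  set I := ∫ y : Eu n, wt y * Real.exp (C * ‖y‖) with hI
  have hI0 : 0 ≤ I := integral_nonneg fun y => (mul_pos (wt_pos y) (Real.exp_pos _)).le
  refine ⟨(((wt_cont.measurable.comp measurable_snd).mul
    mf).stronglyMeasurable.integral_prod_right' (ν := volume)).measurable, C * I + C,
    by positivity, fun z => ?_⟩
  have := norm_integral_le_of_norm_le ((int_wt C).const_mul _)
    (Eventually.of_forall (wt_bd hC h1 z))
  rw [integral_const_mul, ← hI, mul_right_comm] at this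
  refine this.trans ?_
  gcongr <;> nlinarith [mul_nonneg hC hI0]

lemma Ex_add {f g : X × Eu n → ℝ} (hf : Gr f) (hg : Gr g) (z : X) :
    Ex (fun y => f y + g y) z = Ex f z + Ex g z := by
  simp only [Ex, mul_add]
  exact integral_add (hf.int z) (hg.int z)

lemma Ex_sub {f g : X × Eu n → ℝ} (hf : Gr f) (hg : Gr g) (z : X) :
    Ex (fun y => f y - g y) z = Ex f z - Ex g z := by
  simp only [Ex, mul_sub]
  exact integral_sub (hf.int z) (hg.int z)

lemma Ex_mul (h : X → ℝ) (f : X × Eu n → ℝ) (z : X) :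
    Ex (fun y => h y.1 * f y) z = h z * Ex f z := by
  simp only [Ex, mul_left_comm _ (h z)]
  exact integral_const_mul _ _

lemma Ex_sum {ι : Type*} (s : Finset ι) {f : ι → X × Eu n → ℝ} (hf : ∀ i, Gr (f i)) (z : X) :
    Ex (fun y => ∑ i ∈ s, f i y) z = ∑ i ∈ s, Ex (f i) z := by
  simp only [Ex, Finset.mul_sum]
  exact integral_finsetSum _ fun i _ => (hf i).int z

lemma Ex_mono {f g : X × Eu n → ℝ} (hf : Gr f) (hg : Gr g) (z : X)
    (h : ∀ y, f (z, y) ≤ g (z, y)) : Ex f z ≤ Ex g z :=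
  integral_mono (hf.int z) (hg.int z) fun y => mul_le_mul_of_nonneg_left (h y) (wt_pos y).le

/-- Directional derivative at every point. -/
def Dir {F : Type*} [NormedAddCommGroup F] [NormedSpace ℝ F] (v : X) (f f' : X → F) : Prop :=
  ∀ z, HasDerivAt (fun t : ℝ => f (z + t • v)) (f' z) 0

lemma Dir.at {F : Type*} [NormedAddCommGroup F] [NormedSpace ℝ F] {v : X} {f f' : X → F}
    (h : Dir v f f') (z : X) (s : ℝ) :
    HasDerivAt (fun t : ℝ => f (z + t • v)) (f' (z + s • v)) s := by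
  have h1 := h (z + s • v)
  rw [← sub_self s] at h1
  have h2 := h1.comp_sub_const s s
  refine h2.congr_of_eventuallyEq (Eventually.of_forall fun t => ?_)
  simp only [sub_smul]
  congr 1
  abel

lemma Dir.congr {F : Type*} [NormedAddCommGroup F] [NormedSpace ℝ F] {v : X} {f f' g' : X → F}
    (h : Dir v f f') (e : ∀ z, f' z = g' z) : Dir v f g' := fun z => e z ▸ h z

lemma Dir.add {v : X} {f f' g g' : X → ℝ} (hf : Dir v f f') (hg : Dir v g g') :
    Dir v (fun z => f z + g z) fun z => f' z + g' z := fun z => (hf z).add (hg z)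

lemma Dir.mul {v : X} {f f' g g' : X → ℝ} (hf : Dir v f f') (hg : Dir v g g') :
    Dir v (fun z => f z * g z) fun z => f' z * g z + f z * g' z := fun z => by
  simpa using (hf z).fun_mul (hg z)

lemma Dir.const (v : X) (c : ℝ) : Dir v (fun _ => c) fun _ => 0 := fun _ => hasDerivAt_const _ _

lemma Dir.rpow {v : X} {f f' : X → ℝ} (hf : Dir v f f') (h : ∀ z, 0 < f z) (r : ℝ) :
    Dir v (fun z => f z ^ r) fun z => f' z * r * f z ^ (r - 1) := fun z => by
  simpa using (hf z).rpow_const (p := r) (Or.inl (h _).ne')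

lemma Dir.re {v : X} {f f' : X → ℂ} (hf : Dir v f f') :
    Dir v (fun z => (f z).re) fun z => (f' z).re := fun z =>
  Complex.reCLM.hasFDerivAt.comp_hasDerivAt 0 (hf z)

lemma Dir.im {v : X} {f f' : X → ℂ} (hf : Dir v f f') :
    Dir v (fun z => (f z).im) fun z => (f' z).im := fun z =>
  Complex.imCLM.hasFDerivAt.comp_hasDerivAt 0 (hf z)

lemma Dir.ex {v : X} {f f' : X × Eu n → ℝ} (hf : Gr f) (hf' : Gr f') (h : Dir (v, 0) f f') :
    Dir v (Ex f) (Ex f') := fun z => by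
  obtain ⟨C, hC, h1⟩ := hf'.2
  have := (hasDerivAt_integral_of_dominated_loc_of_deriv_le (μ := volume)
    (F := fun (t : ℝ) y => wt y * f (z + t • v, y)) (F' := fun t y => wt y * f' (z + t • v, y))
    (bound := fun y => C * Real.exp (C * (‖z‖ + ‖v‖)) * (wt y * Real.exp (C * ‖y‖)))
    (ball_mem_nhds (0 : ℝ) one_pos) (Eventually.of_forall fun t => hf.aesm _) (hf.int _)
    (hf'.aesm _) (Eventually.of_forall fun y t ht => (wt_bd hC h1 _ y).trans ?_)
    ((int_wt C).const_mul _) (Eventually.of_forall fun y t _ => ?_)).2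
  · simpa [Ex] using this
  · have := wt_pos y
    gcongr
    refine (norm_add_le _ _).trans (add_le_add le_rfl ?_)
    rw [norm_smul]
    exact mul_le_of_le_one_left (norm_nonneg _) (mem_ball_zero_iff.1 ht).le
  · simpa using (h.at (z, y) t).const_mul (wt y)

/-- Coordinate vectors. -/
noncomputable def ev (i : Fin n) : Eu n := EuclideanSpace.single i 1

lemma inner_ev (y : Eu n) (i : Fin n) : ⟪y, ev i⟫ = y i := by
  simp [ev, EuclideanSpace.inner_single_right]

lemma ibp (i : Fin n) {f f' : X × Eu n → ℝ} (hf : Gr f) (hf' : Gr f') (h : Dir (0, ev i) f f')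
    (z : X) : Ex (fun y => y.2 i * f y) z = Ex f' z := by
  have hw : ∀ y : Eu n, HasLineDerivAt ℝ wt (-(wt y * y i)) y (ev i) := fun y => by
    have h1 : HasDerivAt (fun t : ℝ => y + t • ev i) (ev i) 0 := by
      simpa using ((hasDerivAt_id (0 : ℝ)).smul_const (ev i)).const_add y
    have h2 := ((h1.norm_sq.div_const 2).neg).exp
    refine h2.congr_deriv ?_
    simp [wt, inner_ev]
  have i1 := ((Gr.coord i).mul hf).int z
  have := integral_bilinear_hasLineDerivAt_right_eq_neg_left_of_integrable (μ := volume)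
    (f := wt) (f' := fun y => -(wt y * y i)) (g := fun y => f (z, y)) (g' := fun y => f' (z, y))
    (v := ev i) (B := ContinuousLinearMap.mul ℝ ℝ) (by simpa [mul_assoc] using i1.neg)
    (hf'.int z) (hf.int z) (fun y _ => hw y) (fun y _ => by
      simpa [HasLineDerivAt] using h (z, y))
  simp only [ContinuousLinearMap.mul_apply', neg_mul, integral_neg, neg_neg, mul_assoc] at this
  exact this.symm

end Pool.Agent.MP_19b6be_gt

end MrgPart2

-- ======== part 3: formerly Pool.Agent.MP_19b6be_gt.Flow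
section MrgPart3

set_option autoImplicit false
set_option linter.unusedSectionVars false

open scoped RealInnerProductSpace Real Topology Nat ENNReal
open MeasureTheory Module Filter Metric Function Set

namespace Pool.Agent.MP_19b6be_gt

variable {n : ℕ} {X : Type*} [NormedAddCommGroup X] [NormedSpace ℝ X] [MeasurableSpace X]

/-- Real inner product of complex numbers. -/
def ip (a b : ℂ) : ℝ := a.re * b.re + a.im * b.im

/-- Complex functions of at most exponential growth. -/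
def GrC (g : X → ℂ) : Prop := Gr (fun z => (g z).re) ∧ Gr fun z => (g z).im

lemma GrC.ip {f g : X → ℂ} (hf : GrC f) (hg : GrC g) : Gr fun z => ip (f z) (g z) :=
  (hf.1.mul hg.1).add (hf.2.mul hg.2)

lemma GrC.rot {f : X → ℂ} (hf : GrC f) (σ : ℝ) : GrC fun z => σ * Complex.I * f z :=
  ⟨by simpa using ((Gr.const σ).mul hf.2).neg, by simpa using (Gr.const σ).mul hf.1⟩

lemma Dir.ip {w : X} {f f' g g' : X → ℂ} (hf : Dir w f f') (hg : Dir w g g') :
    Dir w (fun z => ip (f z) (g z)) fun z => ip (f' z) (g z) + ip (f z) (g' z) :=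
  ((hf.re.mul hg.re).add (hf.im.mul hg.im)).congr fun z => by
    simp only [Pool.Agent.MP_19b6be_gt.ip]; ring

/-- Regularised squared modulus. -/
noncomputable def RR (ε : ℝ) (g : X → ℂ) (z : X) : ℝ := ip (g z) (g z) + ε

/-- First differential of the regularised power. -/
noncomputable def DD (ε q : ℝ) (g v : X → ℂ) (z : X) : ℝ :=
  q * RR ε g z ^ (q / 2 - 1) * ip (g z) (v z)

/-- Second differential of the regularised power. -/
noncomputable def HH (ε q : ℝ) (g u v : X → ℂ) (z : X) : ℝ :=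
  q * (q - 2) * RR ε g z ^ (q / 2 - 1 - 1) * (ip (g z) (u z) * ip (g z) (v z)) +
    q * RR ε g z ^ (q / 2 - 1) * ip (u z) (v z)

variable {ε q : ℝ} {g : X → ℂ}

lemma le_RR (z : X) : ε ≤ RR ε g z :=
  le_add_of_nonneg_left (add_nonneg (mul_self_nonneg _) (mul_self_nonneg _))

lemma gr_RR (hε : 0 < ε) (hg : GrC g) (r : ℝ) : Gr fun z => RR ε g z ^ r :=
  ((hg.ip hg).add (Gr.const ε)).rpow hε le_RR r

lemma gr_DD (hε : 0 < ε) (hg : GrC g) {v : X → ℂ} (hv : GrC v) : Gr (DD ε q g v) :=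
  ((Gr.const q).mul (gr_RR hε hg _)).mul (hg.ip hv)

lemma gr_HH (hε : 0 < ε) (hg : GrC g) {v : X → ℂ} (hv : GrC v) : Gr (HH ε q g v v) :=
  (((Gr.const _).mul (gr_RR hε hg _)).mul ((hg.ip hv).mul (hg.ip hv))).add
    (((Gr.const q).mul (gr_RR hε hg _)).mul (hv.ip hv))

lemma dir_RR (hε : 0 < ε) {w : X} {g' : X → ℂ} (hg : Dir w g g') (r : ℝ) :
    Dir w (fun z => RR ε g z ^ r) fun z => 2 * r * RR ε g z ^ (r - 1) * ip (g z) (g' z) :=
  (((hg.ip hg).add (Dir.const w ε)).rpow (fun z => hε.trans_le (le_RR z)) r).congr fun z => by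
    simp only [RR, ip]; ring

lemma dir_B (hε : 0 < ε) {w : X} {g' : X → ℂ} (hg : Dir w g g') :
    Dir w (fun z => RR ε g z ^ (q / 2)) (DD ε q g g') :=
  (dir_RR hε hg _).congr fun z => by simp only [DD]; ring

lemma dir_DD (hε : 0 < ε) {w : X} {g' v v' : X → ℂ} (hg : Dir w g g') (hv : Dir w v v') :
    Dir w (DD ε q g v) fun z => HH ε q g g' v z + DD ε q g v' z :=
  (((Dir.const w q).mul (dir_RR hε hg _)).mul (hg.ip hv)).congr fun z => by
    simp only [DD, HH]; ring

lemma key_pt (hε : 0 < ε) {σ p : ℝ} (hp : p = 1 + σ ^ 2) (hp2 : p ≤ 2) (hq : (q - 1) * σ ^ 2 = 1)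
    (hpq : p ≤ q) (hq0 : 0 < q) (v : X → ℂ) (l : ℝ) (z : X) :
    (q - p) * (2 * l * DD ε q g v z - q * l ^ 2 * RR ε g z ^ (q / 2)) ≤
      HH ε q g v v z - HH ε q g (fun z => σ * Complex.I * v z) (fun z => σ * Complex.I * v z) z := by
  have hR : 0 < RR ε g z := hε.trans_le (le_RR z)
  set R := RR ε g z with hRR
  set T := R ^ (q / 2 - 1 - 1) with hT
  have T0 : 0 < T := Real.rpow_pos_of_pos hR _
  have e1 : R ^ (q / 2 - 1) = T * R := by rw [hT, ← Real.rpow_add_one hR.ne']; ring_nf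
  have e2 : R ^ (q / 2) = T * R * R := by rw [← e1, ← Real.rpow_add_one hR.ne']; ring_nf
  simp only [DD, HH, ← hRR, ← hT, e1, e2]
  set a := ip (g z) (v z) with ha
  set b := (g z).re * (v z).im - (g z).im * (v z).re with hb
  have e3 : ip (g z) (σ * Complex.I * v z) = -(σ * b) := by simp [ip, hb]; ring
  have e4 : ip (σ * Complex.I * v z) (σ * Complex.I * v z) = σ ^ 2 * ip (v z) (v z) := by
    simp [ip]; ring
  have e5 : R * ip (v z) (v z) = a ^ 2 + b ^ 2 + ε * ip (v z) (v z) := by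
    simp only [hRR, RR, ha, hb, ip]; ring
  have v0 : 0 ≤ ip (v z) (v z) := add_nonneg (mul_self_nonneg _) (mul_self_nonneg _)
  rw [e3, e4]
  set W := ip (v z) (v z)
  have h1 : 0 ≤ q * T * ((q - p) * (a - l * R) ^ 2 + (2 - p) * (ε * W)) := by
    have := sub_nonneg.2 hpq
    have := sub_nonneg.2 hp2
    positivity
  have h2 : σ ^ 2 = p - 1 := by linarith
  have h3 : (q - 2) * σ ^ 2 = 2 - p := by linarith
  have : q * (q - 2) * T * (a * a) + q * (T * R) * W - (q * (q - 2) * T * (-(σ * b) * -(σ * b)) +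
      q * (T * R) * (σ ^ 2 * W)) - (q - p) * (2 * l * (q * (T * R) * a) - q * l ^ 2 * (T * R * R)) =
      q * T * ((q - p) * (a - l * R) ^ 2 + (2 - p) * (ε * W)) := by
    have e6 : ε * W = R * W - a ^ 2 - b ^ 2 := by linarith
    rw [e6]
    linear_combination (-(q * T * b ^ 2)) * h3 - q * T * R * W * h2
  linarith

lemma gr_sin : Gr fun z : ℝ × Eu n => Real.sin z.1 :=
  Gr.of_bdd (by fun_prop) fun _ => Real.abs_sin_le_one _

lemma gr_cos : Gr fun z : ℝ × Eu n => Real.cos z.1 :=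
  Gr.of_bdd (by fun_prop) fun _ => Real.abs_cos_le_one _

/-- Monotonicity of a mixed norm along the flow. -/
theorem flow {σ p : ℝ} (hε : 0 < ε) (hp : p = 1 + σ ^ 2) (hp2 : p ≤ 2) (hq : (q - 1) * σ ^ 2 = 1)
    {g : (ℝ × Eu n) × Eu n → ℂ} {g1 g2 : Fin n → (ℝ × Eu n) × Eu n → ℂ}
    (hg : GrC g) (hg1 : ∀ i, GrC (g1 i)) (hg2 : ∀ i, GrC (g2 i))
    (da : ∀ i, Dir ((0, ev i), 0) g fun z => Real.sin z.1.1 * g1 i z)
    (da1 : ∀ i, Dir ((0, ev i), 0) (g1 i) fun z => Real.sin z.1.1 * g2 i z)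
    (dx : ∀ i, Dir (0, ev i) g fun z => Real.cos z.1.1 * (σ * Complex.I * g1 i z))
    (dx1 : ∀ i, Dir (0, ev i) (g1 i) fun z => Real.cos z.1.1 * (σ * Complex.I * g2 i z))
    (dt : Dir ((1, 0), 0) g fun z => ∑ i, ((Real.cos z.1.1 * z.1.2 i : ℝ) * g1 i z -
      (Real.sin z.1.1 * z.2 i : ℝ) * (σ * Complex.I * g1 i z) -
      (p * Real.sin z.1.1 * Real.cos z.1.1 : ℝ) * g2 i z)) :
    Ex (fun y => Ex (fun z => RR ε g z ^ (q / 2)) y ^ (p / q)) 0 ≤
      Ex (fun y => Ex (fun z => RR ε g z ^ (q / 2)) y ^ (p / q)) (π / 2) := by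
  have hσ : 0 < σ ^ 2 := by
    rcases (sq_nonneg σ).eq_or_lt with h | h
    · rw [← h] at hq; simp at hq
    · exact h
  have hq2 : 2 ≤ q := by nlinarith
  have hq0 : 0 < q := by linarith
  have hpq : p ≤ q := hp2.trans hq2
  set Ψ := Ex fun z => RR ε g z ^ (q / 2) with hΨ
  set M := fun i => Ex (DD ε q g (g1 i)) with hM
  set J := fun i => Ex (DD ε q g (g2 i)) with hJ
  set r : Fin n → (ℝ × Eu n) × Eu n → ℂ := fun i z => σ * Complex.I * g1 i z with hr
  set N := fun i => Ex (HH ε q g (g1 i) (g1 i)) with hN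
  set K := fun i => Ex (HH ε q g (r i) (r i)) with hK
  have gB := gr_RR hε hg (q / 2)
  have gD1 := fun i => gr_DD (q := q) hε hg (hg1 i)
  have gD2 := fun i => gr_DD (q := q) hε hg (hg2 i)
  have gDr := fun i => gr_DD (q := q) hε hg ((hg1 i).rot σ)
  have gH1 := fun i => gr_HH (q := q) hε hg (hg1 i)
  have gHr := fun i => gr_HH (q := q) hε hg ((hg1 i).rot σ)
  have gs : Gr fun z : (ℝ × Eu n) × Eu n => Real.sin z.1.1 := gr_sin.fst
  have gc : Gr fun z : (ℝ × Eu n) × Eu n => Real.cos z.1.1 := gr_cos.fst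
  have ga := fun i : Fin n => (Gr.coord (X := ℝ) i).fst (Y := Eu n)
  have Z0 : 0 < Ex (n := n) (fun _ : ℝ × Eu n => (1 : ℝ)) 0 := by
    simp only [Ex, mul_one]
    exact integral_exp_pos (by simpa [wt] using int_wt (n := n) 0)
  have lΨ : ∀ y, ε ^ (q / 2) * Ex (n := n) (fun _ : ℝ × Eu n => (1 : ℝ)) 0 ≤ Ψ y := fun y => by
    have := Ex_mono (Gr.const (ε ^ (q / 2))) gB y fun x =>
      Real.rpow_le_rpow hε.le (le_RR _) (half_pos hq0).le
    refine le_trans (le_of_eq ?_) this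
    simp only [Ex, mul_one, integral_mul_const]
    ring
  have δ0 := mul_pos (Real.rpow_pos_of_pos hε (q / 2)) Z0
  have Ψ0 : ∀ y, 0 < Ψ y := fun y => δ0.trans_le (lΨ y)
  have gΨ : ∀ s : ℝ, Gr fun y => Ψ y ^ s := gB.ex.rpow δ0 lΨ
  -- derivatives in the first space variable
  have dΨa : ∀ i, Dir (0, ev i) Ψ fun y => Real.sin y.1 * M i y := fun i =>
    (Dir.ex gB (gs.mul (gD1 i)) ((dir_B hε (da i)).congr fun z => by
      simp [DD, ip, -Complex.ofReal_sin]; ring)).congr fun y => Ex_mul (fun y : ℝ × Eu n => Real.sin y.1) _ y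
  have dMa : ∀ i, Dir (0, ev i) (M i) fun y => Real.sin y.1 * (N i y + J i y) := fun i =>
    (Dir.ex (gD1 i) (gs.mul ((gH1 i).add (gD2 i))) ((dir_DD hε (da i) (da1 i)).congr fun z => by
      simp [DD, HH, ip, -Complex.ofReal_sin]; ring)).congr fun y => by
        rw [Ex_mul (fun y : ℝ × Eu n => Real.sin y.1), Ex_add (gH1 i) (gD2 i)]
  -- integration by parts in the second space variable
  have ix : ∀ i y, Ex (fun z => z.2 i * DD ε q g (r i) z) y =
      Real.cos y.1 * (K i y - σ ^ 2 * J i y) := fun i y => by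
    have d1 : Dir (0, ev i) (r i) fun z => σ * Complex.I *
        (Real.cos z.1.1 * (σ * Complex.I * g2 i z)) := fun z => (dx1 i z).const_mul _
    rw [ibp i (gDr i) (gc.mul ((gHr i).sub ((Gr.const (σ ^ 2)).mul (gD2 i))))
      ((dir_DD hε (dx i) d1).congr fun z => by
        simp [DD, HH, ip, hr, -Complex.ofReal_cos]; ring),
      Ex_mul (fun y : ℝ × Eu n => Real.cos y.1), Ex_sub (gHr i) ((Gr.const _).mul (gD2 i)),
      Ex_mul (fun _ => σ ^ 2)]
  -- derivative in the angle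
  have t1 := fun i => (gc.mul (ga i)).mul (gD1 i)
  have t2 := fun i => gs.mul ((Gr.coord i).mul (gDr i))
  have t3 := fun i => (((Gr.const p).mul gs).mul gc).mul (gD2 i)
  have dΨt : Dir (1, 0) Ψ fun y => ∑ i, (Real.cos y.1 * y.2 i * M i y -
      Real.sin y.1 * Real.cos y.1 * (K i y + J i y)) :=
    (Dir.ex gB (Gr.sum Finset.univ fun i => ((t1 i).sub (t2 i)).sub (t3 i))
      ((dir_B hε dt).congr fun z => by
        simp only [DD, ip, Complex.re_sum, Complex.im_sum, Finset.mul_sum, ← Finset.sum_add_distrib]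
        refine Finset.sum_congr rfl fun i _ => ?_
        simp [-Complex.ofReal_sin, -Complex.ofReal_cos]
        ring)).congr fun y => by
      rw [Ex_sum _ fun i => ((t1 i).sub (t2 i)).sub (t3 i)]
      refine Finset.sum_congr rfl fun i _ => ?_
      rw [Ex_sub ((t1 i).sub (t2 i)) (t3 i), Ex_sub (t1 i) (t2 i),
        Ex_mul (fun y : ℝ × Eu n => Real.cos y.1 * y.2 i),
        Ex_mul (fun y : ℝ × Eu n => Real.sin y.1),
        Ex_mul (fun y : ℝ × Eu n => p * Real.sin y.1 * Real.cos y.1), ix, hp]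
      ring
  set A : ℝ × Eu n → ℝ := fun y => p / q * Ψ y ^ (p / q - 1) with hA
  have gA : Gr A := (Gr.const _).mul (gΨ _)
  set U : Fin n → ℝ × Eu n → ℝ := fun i y =>
    p / q * (p / q - 1) * Ψ y ^ (p / q - 1 - 1) * (M i y * M i y) + A y * (N i y + J i y) with hU
  have gU : ∀ i, Gr (U i) := fun i => (((Gr.const _).mul (gΨ _)).mul
    ((gD1 i).ex.mul (gD1 i).ex)).add (gA.mul ((gH1 i).ex.add (gD2 i).ex))
  have ia : ∀ i t, Ex (fun y => y.2 i * (A y * M i y)) t = Real.sin t * Ex (U i) t := fun i t => by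
    rw [ibp i (gA.mul (gD1 i).ex) (gr_sin.mul (gU i))
      ((((Dir.const _ (p / q)).mul ((dΨa i).rpow Ψ0 _)).mul (dMa i)).congr fun y => by
        simp only [hU, hA]; ring), Ex_mul Real.sin]
  have s1 := fun i => gr_cos.mul ((Gr.coord i).mul (gA.mul (gD1 i).ex))
  have s2 := fun i => (gr_sin.mul gr_cos).mul (gA.mul ((gHr i).ex.add (gD2 i).ex))
  have dΦ : Dir (1 : ℝ) (Ex fun y => Ψ y ^ (p / q)) fun t => ∑ i, Real.sin t * Real.cos t *
      (Ex (U i) t - Ex (fun y => A y * (K i y + J i y)) t) :=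
    (Dir.ex (gΨ _) (Gr.sum Finset.univ fun i => (s1 i).sub (s2 i))
      ((dΨt.rpow Ψ0 _).congr fun y => by
        simp only [Finset.sum_mul, hA]
        exact Finset.sum_congr rfl fun i _ => by ring)).congr fun t => by
      rw [Ex_sum _ fun i => (s1 i).sub (s2 i)]
      refine Finset.sum_congr rfl fun i _ => ?_
      rw [Ex_sub (s1 i) (s2 i), Ex_mul Real.cos, Ex_mul fun t => Real.sin t * Real.cos t, ia]
      ring
  have pos : ∀ i t, Ex (fun y => A y * (K i y + J i y)) t ≤ Ex (U i) t := fun i t => by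
    refine Ex_mono (gA.mul ((gHr i).ex.add (gD2 i).ex)) (gU i) t fun a => ?_
    set y : ℝ × Eu n := (t, a)
    have h0 := Ψ0 y
    set l := M i y / (q * Ψ y) with hl
    have h1 := Ex_mono ((Gr.const (q - p)).mul (((Gr.const (2 * l)).mul (gD1 i)).sub
      ((Gr.const (q * l ^ 2)).mul gB))) ((gH1 i).sub (gHr i)) y fun x =>
        key_pt hε hp hp2 hq hpq hq0 (g1 i) l (y, x)
    rw [Ex_mul fun _ => q - p, Ex_sub ((Gr.const _).mul (gD1 i)) ((Gr.const _).mul gB),
      Ex_mul fun _ => 2 * l, Ex_mul fun _ => q * l ^ 2, Ex_sub (gH1 i) (gHr i)] at h1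
    have h2 : (q - p) * (2 * l * M i y - q * l ^ 2 * Ψ y) ≤ N i y - K i y := h1
    have A0 : 0 ≤ A y := mul_nonneg (div_nonneg (by nlinarith) hq0.le) (Real.rpow_nonneg h0.le _)
    have h3 := mul_le_mul_of_nonneg_left h2 A0
    have e : A y * ((q - p) * (2 * l * M i y - q * l ^ 2 * Ψ y)) =
        -(p / q * (p / q - 1) * Ψ y ^ (p / q - 1 - 1) * (M i y * M i y)) := by
      simp only [hA, hl]
      rw [Real.rpow_sub_one h0.ne' (p / q - 1)]
      field_simp
      ring
    simp only [hU]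
    linarith
  have hd : ∀ t : ℝ, HasDerivAt (Ex fun y => Ψ y ^ (p / q)) (∑ i, Real.sin t * Real.cos t *
      (Ex (U i) t - Ex (fun y => A y * (K i y + J i y)) t)) t := fun t => by
    simpa using dΦ.at 0 t
  have hpi := Real.pi_pos
  refine monotoneOn_of_deriv_nonneg (convex_Icc 0 (π / 2))
    (fun t _ => (hd t).continuousAt.continuousWithinAt)
    (fun t _ => (hd t).differentiableAt.differentiableWithinAt) (fun t ht => ?_)
    (left_mem_Icc.2 (by positivity)) (right_mem_Icc.2 (by positivity)) (by positivity)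
  have ht' := interior_subset ht
  rw [(hd t).deriv]
  exact Finset.sum_nonneg fun i _ => mul_nonneg (mul_nonneg
    (Real.sin_nonneg_of_nonneg_of_le_pi ht'.1 (by linarith [ht'.2]))
    (Real.cos_nonneg_of_mem_Icc ⟨by linarith [ht'.1], ht'.2⟩)) (sub_nonneg.2 (pos i t))

end Pool.Agent.MP_19b6be_gt

end MrgPart3

-- ======== part 4: formerly Pool.Agent.MP_19b6be_gt.Wave
section MrgPart4

set_option autoImplicit false
set_option linter.unusedSectionVars false

open scoped RealInnerProductSpace Real Topology Nat ENNReal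
open MeasureTheory Module Filter Metric Function Set

namespace Pool.Agent.MP_19b6be_gt

variable {n : ℕ}

/-- Phase of the flow. -/
noncomputable def ph (σ : ℝ) (z : (ℝ × Eu n) × Eu n) (y : Eu n) : ℂ :=
  (Real.sin z.1.1 * ⟪y, z.1.2⟫ -
    ‖y‖ ^ 2 * (Real.sin z.1.1 ^ 2 - σ ^ 2 * Real.cos z.1.1 ^ 2) / 2 : ℝ) +
    (σ * Real.cos z.1.1 * ⟪y, z.2⟫ : ℝ) * Complex.I

/-- Superposition of waves. -/
noncomputable def LL (σ : ℝ) (η : Eu n → Eu n) (w : Eu n → ℂ) (z : (ℝ × Eu n) × Eu n) : ℂ :=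
  ∫ ω, w ω * Complex.exp (ph σ z (η ω))

/-- Admissible amplitudes. -/
structure Wt (η : Eu n → Eu n) (R : ℝ) (w : Eu n → ℂ) : Prop where
  mη : Measurable η
  R0 : 0 ≤ R
  meas : Measurable w
  int : Integrable w
  supp : ∀ ω, w ω ≠ 0 → ‖η ω‖ ≤ R

variable {σ R : ℝ} {η : Eu n → Eu n} {w : Eu n → ℂ}

lemma Wt.coord (hw : Wt η R w) (i : Fin n) : Wt η R fun ω => w ω * η ω i := by
  have := hw.mη
  have := hw.meas
  refine ⟨hw.mη, hw.R0, by fun_prop, (hw.int.norm.mul_const R).mono'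
    (Measurable.aestronglyMeasurable (by fun_prop)) (Eventually.of_forall fun ω => ?_),
    fun ω h => hw.supp ω (left_ne_zero_of_mul h)⟩
  rw [norm_mul, Complex.norm_real]
  by_cases h : w ω = 0
  · simp [h]
  · exact mul_le_mul_of_nonneg_left ((PiLp.norm_apply_le _ i).trans (hw.supp ω h)) (norm_nonneg _)

lemma abs_inner_le {y a : Eu n} {r : ℝ} (hy : ‖y‖ ≤ R) (ha : ‖a‖ ≤ r) : |⟪y, a⟫| ≤ R * r :=
  (abs_real_inner_le_norm _ _).trans
    (mul_le_mul hy ha (norm_nonneg _) ((norm_nonneg _).trans hy))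

lemma norm_exp_ph {y : Eu n} (hy : ‖y‖ ≤ R) {z : (ℝ × Eu n) × Eu n} {r : ℝ} (hz : ‖z‖ ≤ r) :
    ‖Complex.exp (ph σ z y)‖ ≤ Real.exp (R ^ 2 * σ ^ 2) * Real.exp (R * r) := by
  rw [Complex.norm_exp, ← Real.exp_add, Real.exp_le_exp]
  simp only [ph, Complex.add_re, Complex.ofReal_re, Complex.mul_re, Complex.I_re, mul_zero,
    Complex.ofReal_im, zero_mul, sub_zero, add_zero]
  have h1 := abs_inner_le hy ((norm_snd_le z.1).trans ((norm_fst_le z).trans hz))
  have h2 : Real.sin z.1.1 * ⟪y, z.1.2⟫ ≤ R * r := by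
    refine (le_abs_self _).trans ?_
    rw [abs_mul]
    exact (mul_le_of_le_one_left (abs_nonneg _) (Real.abs_sin_le_one _)).trans h1
  have h3 : ‖y‖ ^ 2 ≤ R ^ 2 := pow_le_pow_left₀ (norm_nonneg _) hy 2
  have h4 : ‖y‖ ^ 2 * (σ ^ 2 * Real.cos z.1.1 ^ 2) ≤ R ^ 2 * σ ^ 2 := mul_le_mul h3
    (mul_le_of_le_one_right (sq_nonneg _) (Real.cos_sq_le_one _)) (by positivity) (sq_nonneg _)
  have h5 : 0 ≤ ‖y‖ ^ 2 * Real.sin z.1.1 ^ 2 := by positivity
  have h6 : 0 ≤ R ^ 2 * σ ^ 2 := by positivity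
  nlinarith

lemma ph_meas (hw : Wt η R w) :
    Measurable fun z : ((ℝ × Eu n) × Eu n) × Eu n => w z.2 * Complex.exp (ph σ z.1 (η z.2)) := by
  have := hw.mη
  have := hw.meas
  unfold ph
  fun_prop

lemma Wt.bd (hw : Wt η R w) {z : (ℝ × Eu n) × Eu n} {r : ℝ} (hz : ‖z‖ ≤ r) (ω : Eu n) :
    ‖w ω * Complex.exp (ph σ z (η ω))‖ ≤ ‖w ω‖ * (Real.exp (R ^ 2 * σ ^ 2) * Real.exp (R * r)) := by
  rw [norm_mul]
  by_cases h : w ω = 0
  · simp [h]
  · exact mul_le_mul_of_nonneg_left (norm_exp_ph (hw.supp ω h) hz) (norm_nonneg _)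

lemma Wt.intL (hw : Wt η R w) (z : (ℝ × Eu n) × Eu n) :
    Integrable fun ω => w ω * Complex.exp (ph σ z (η ω)) :=
  (hw.int.norm.mul_const _).mono' ((ph_meas hw).comp measurable_prodMk_left).aestronglyMeasurable
    (Eventually.of_forall (hw.bd le_rfl))

lemma Wt.gr (hw : Wt η R w) : GrC (LL σ η w) := by
  have m : Measurable (LL σ η w) :=
    ((ph_meas hw).stronglyMeasurable.integral_prod_right' (ν := volume)).measurable
  have h0 : 0 ≤ ∫ ω, ‖w ω‖ := integral_nonneg fun _ => norm_nonneg _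
  have := hw.R0
  have b : ∀ z, ‖LL σ η w z‖ ≤ ((∫ ω, ‖w ω‖) * Real.exp (R ^ 2 * σ ^ 2) + R) *
      Real.exp (((∫ ω, ‖w ω‖) * Real.exp (R ^ 2 * σ ^ 2) + R) * ‖z‖) := fun z => by
    have := norm_integral_le_of_norm_le (hw.int.norm.mul_const _)
      (Eventually.of_forall (hw.bd (σ := σ) (z := z) le_rfl))
    rw [integral_mul_const, ← mul_assoc] at this
    refine this.trans (mul_le_mul (by linarith) (Real.exp_le_exp.2 (mul_le_mul_of_nonneg_right
      (le_add_of_nonneg_left (by positivity)) (norm_nonneg _))) (Real.exp_pos _).le (by positivity))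
  exact ⟨⟨Complex.measurable_re.comp m, _, by positivity,
      fun z => (Complex.abs_re_le_norm _).trans (b z)⟩,
    Complex.measurable_im.comp m, _, by positivity, fun z => (Complex.abs_im_le_norm _).trans (b z)⟩

lemma Wt.dir (hw : Wt η R w) (v : (ℝ × Eu n) × Eu n) {d : (ℝ × Eu n) × Eu n → Eu n → ℂ}
    (md : ∀ z, Measurable (d z)) (hd : ∀ y, Dir v (fun z => ph σ z y) fun z => d z y) {K : ℝ}
    (hb : ∀ z y r, ‖y‖ ≤ R → ‖z‖ ≤ r → ‖d z y‖ ≤ K * (1 + r)) :
    Dir v (LL σ η w) fun z => ∫ ω, w ω * d z (η ω) * Complex.exp (ph σ z (η ω)) := fun z => by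
  have := (hasDerivAt_integral_of_dominated_loc_of_deriv_le (μ := volume)
    (F := fun (t : ℝ) ω => w ω * Complex.exp (ph σ (z + t • v) (η ω)))
    (F' := fun t ω => w ω * Complex.exp (ph σ (z + t • v) (η ω)) * d (z + t • v) (η ω))
    (bound := fun ω => ‖w ω‖ * (Real.exp (R ^ 2 * σ ^ 2) * Real.exp (R * (‖z‖ + ‖v‖))) *
      (K * (1 + (‖z‖ + ‖v‖))))
    (ball_mem_nhds (0 : ℝ) one_pos) (Eventually.of_forall fun t => (hw.intL _).1) (hw.intL _)
    ((hw.intL _).1.mul ((md _).comp hw.mη).aestronglyMeasurable)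
    (Eventually.of_forall fun ω t ht => ?_) ((hw.int.norm.mul_const _).mul_const _)
    (Eventually.of_forall fun ω t _ => ?_)).2
  · simpa [LL, mul_right_comm] using this
  · have hz : ‖z + t • v‖ ≤ ‖z‖ + ‖v‖ := by
      refine (norm_add_le _ _).trans (add_le_add le_rfl ?_)
      rw [norm_smul]
      exact mul_le_of_le_one_left (norm_nonneg _) (mem_ball_zero_iff.1 ht).le
    by_cases h : w ω = 0
    · simp [h]
    · rw [norm_mul]
      exact mul_le_mul (hw.bd hz ω) (hb _ _ _ (hw.supp ω h) hz) (norm_nonneg _) (by positivity)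
  · simpa only [mul_assoc] using (((hd (η ω)).at z t).cexp).const_mul (w ω)

lemma Wt.da (hw : Wt η R w) (i : Fin n) : Dir ((0, ev i), 0) (LL σ η w)
    fun z => Real.sin z.1.1 * LL σ η (fun ω => w ω * η ω i) z := by
  refine (hw.dir _ (d := fun z y => (Real.sin z.1.1 * y i : ℝ)) (fun z => by fun_prop)
    (fun y z => ?_) (K := R) fun z y r hy hz => ?_).congr fun z => ?_
  · have h := ((((hasDerivAt_id (0 : ℝ)).mul_const (y i)).const_add ⟪y, z.1.2⟫).const_mul
      (Real.sin z.1.1)).sub_const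
      (‖y‖ ^ 2 * (Real.sin z.1.1 ^ 2 - σ ^ 2 * Real.cos z.1.1 ^ 2) / 2)
    simpa [ph, inner_add_right, inner_smul_right, inner_ev, -Complex.ofReal_sin,
      -Complex.ofReal_cos] using h.ofReal_comp.add_const
      ((σ * Real.cos z.1.1 * ⟪y, z.2⟫ : ℝ) * Complex.I)
  · rw [Complex.norm_real, Real.norm_eq_abs, abs_mul]
    have := (norm_nonneg _).trans hz
    have := hw.R0
    have := (mul_le_of_le_one_left (abs_nonneg (y i)) (Real.abs_sin_le_one z.1.1)).trans
      ((PiLp.norm_apply_le y i).trans hy)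
    nlinarith
  · rw [LL, ← integral_const_mul]
    congr 1; funext ω; push_cast; ring

lemma Wt.dx (hw : Wt η R w) (i : Fin n) : Dir (0, ev i) (LL σ η w)
    fun z => Real.cos z.1.1 * (σ * Complex.I * LL σ η (fun ω => w ω * η ω i) z) := by
  refine (hw.dir _ (d := fun z y => (σ * Real.cos z.1.1 * y i : ℝ) * Complex.I)
    (fun z => by fun_prop) (fun y z => ?_) (K := |σ| * R) fun z y r hy hz => ?_).congr fun z => ?_
  · have h := (((hasDerivAt_id (0 : ℝ)).mul_const (y i)).const_add ⟪y, z.2⟫).const_mul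
      (σ * Real.cos z.1.1)
    simpa [ph, inner_add_right, inner_smul_right, inner_ev, -Complex.ofReal_sin,
      -Complex.ofReal_cos] using (h.ofReal_comp.mul_const Complex.I).const_add
      ((Real.sin z.1.1 * ⟪y, z.1.2⟫ -
        ‖y‖ ^ 2 * (Real.sin z.1.1 ^ 2 - σ ^ 2 * Real.cos z.1.1 ^ 2) / 2 : ℝ) : ℂ)
  · rw [norm_mul, Complex.norm_I, mul_one, Complex.norm_real, Real.norm_eq_abs, abs_mul, abs_mul,
      mul_assoc, mul_assoc]
    refine mul_le_mul_of_nonneg_left ?_ (abs_nonneg _)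
    have := (norm_nonneg _).trans hz
    have := hw.R0
    have := (mul_le_of_le_one_left (abs_nonneg (y i)) (Real.abs_cos_le_one z.1.1)).trans
      ((PiLp.norm_apply_le y i).trans hy)
    nlinarith
  · rw [LL, ← integral_const_mul, ← integral_const_mul]
    congr 1; funext ω; push_cast; ring

lemma Wt.dt (hw : Wt η R w) : Dir ((1, 0), 0) (LL σ η w)
    fun z => ∑ i, ((Real.cos z.1.1 * z.1.2 i : ℝ) * LL σ η (fun ω => w ω * η ω i) z -
      (Real.sin z.1.1 * z.2 i : ℝ) * (σ * Complex.I * LL σ η (fun ω => w ω * η ω i) z) -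
      ((1 + σ ^ 2) * Real.sin z.1.1 * Real.cos z.1.1 : ℝ) *
        LL σ η (fun ω => w ω * η ω i * η ω i) z) := by
  refine (hw.dir _ (d := fun z y => (Real.cos z.1.1 * ⟪y, z.1.2⟫ -
      ‖y‖ ^ 2 * ((1 + σ ^ 2) * Real.sin z.1.1 * Real.cos z.1.1) : ℝ) +
      (-(σ * Real.sin z.1.1 * ⟪y, z.2⟫) : ℝ) * Complex.I)
    (fun z => by fun_prop) (fun y z => ?_) (K := R + R ^ 2 * (1 + σ ^ 2) + |σ| * R)
    fun z y r hy hz => ?_).congr fun z => ?_
  · have h0 : HasDerivAt (fun t : ℝ => z.1.1 + t) 1 0 := (hasDerivAt_id (0 : ℝ)).const_add _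
    have h1 := (h0.sin.mul_const ⟪y, z.1.2⟫).sub
      ((((h0.sin.pow 2).sub ((h0.cos.pow 2).const_mul (σ ^ 2))).const_mul (‖y‖ ^ 2)).div_const 2)
    have h2 := (h0.cos.const_mul σ).mul_const ⟪y, z.2⟫
    have h3 := h1.ofReal_comp.add (h2.ofReal_comp.mul_const Complex.I)
    refine HasDerivAt.congr_deriv (h3.congr_of_eventuallyEq (Eventually.of_forall fun t => ?_)) ?_
    · simp [ph, -Complex.ofReal_sin, -Complex.ofReal_cos]
    · simp [-Complex.ofReal_sin, -Complex.ofReal_cos]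
      ring
  · have r0 := (norm_nonneg _).trans hz
    have R0 := hw.R0
    have h1 := abs_inner_le hy ((norm_snd_le z.1).trans ((norm_fst_le z).trans hz))
    have h2 := abs_inner_le hy ((norm_snd_le z).trans hz)
    have hs := Real.abs_sin_le_one z.1.1
    have hc := Real.abs_cos_le_one z.1.1
    refine (norm_add_le _ _).trans ?_
    rw [norm_mul, Complex.norm_I, mul_one, Complex.norm_real, Complex.norm_real, Real.norm_eq_abs,
      Real.norm_eq_abs, abs_neg]
    refine (add_le_add (abs_sub _ _) le_rfl).trans ?_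
    simp only [abs_mul, abs_pow, abs_norm, abs_of_nonneg (by positivity : 0 ≤ 1 + σ ^ 2)]
    calc _ ≤ 1 * (R * r) + R ^ 2 * ((1 + σ ^ 2) * 1 * 1) + |σ| * 1 * (R * r) := by gcongr
      _ ≤ _ := by nlinarith [mul_nonneg (abs_nonneg σ) R0, mul_nonneg (sq_nonneg R) r0,
          mul_nonneg (mul_nonneg (sq_nonneg R) (sq_nonneg σ)) r0]
  · have i1 := fun i => (hw.coord i).intL (σ := σ) z
    have i2 := fun i => ((hw.coord i).coord i).intL (σ := σ) z
    have e : ∀ (a b c d : ℂ) (f g : Eu n → ℂ), Integrable f → Integrable g →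
        a * (∫ ω, f ω) - b * (c * ∫ ω, f ω) - d * ∫ ω, g ω =
          ∫ ω, (a - b * c) * f ω - d * g ω := fun a b c d f g hf hg => by
      rw [integral_sub (hf.const_mul _) (hg.const_mul _), integral_const_mul, integral_const_mul]
      ring
    simp only [LL]
    rw [Finset.sum_congr rfl fun i _ => e _ _ _ _ _ _ (i1 i) (i2 i),
      ← integral_finsetSum _ fun i _ => ((i1 i).const_mul _).sub' ((i2 i).const_mul _)]
    congr 1
    funext ω
    rw [EuclideanSpace.real_norm_sq_eq, PiLp.inner_apply, PiLp.inner_apply]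
    simp only [conj_trivial, RCLike.inner_apply]
    push_cast
    simp only [Finset.mul_sum, Finset.sum_mul, ← Finset.sum_sub_distrib, ← Finset.sum_neg_distrib,
      ← Finset.sum_add_distrib]
    exact Finset.sum_congr rfl fun i _ => by ring

end Pool.Agent.MP_19b6be_gt

end MrgPart4

-- ======== part 5: formerly Pool.Agent.MP_19b6be_gt.HY
section MrgPart5

set_option autoImplicit false
set_option linter.unusedSectionVars false

open scoped RealInnerProductSpace Real Topology Nat ENNReal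
open MeasureTheory Module Filter Metric Function Set

namespace Pool.Agent.MP_19b6be_gt

variable {n : ℕ}

lemma ip_rpow (a : ℂ) (r : ℝ) : ip a a ^ (r / 2) = ‖a‖ ^ r := by
  have : ip a a = ‖a‖ ^ (2 : ℝ) := by rw [Real.rpow_two, Complex.sq_norm]; rfl
  rw [this, ← Real.rpow_mul (norm_nonneg _)]
  congr 1; ring

lemma ip_nonneg (a : ℂ) : 0 ≤ ip a a := add_nonneg (mul_self_nonneg _) (mul_self_nonneg _)

lemma GrC.pow {X : Type*} [NormedAddCommGroup X] [NormedSpace ℝ X] [MeasurableSpace X] {g : X → ℂ}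
    (hg : GrC g) {r : ℝ} (hr : 0 ≤ r) : Gr fun z => ‖g z‖ ^ r := by
  obtain ⟨-, C, hC, h⟩ := gr_RR one_pos hg (r / 2)
  simp_rw [← ip_rpow]
  refine ⟨(hg.ip hg).1.pow_const _, C, hC, fun z => le_trans ?_ ((le_abs_self _).trans (h z))⟩
  rw [abs_of_nonneg (Real.rpow_nonneg (ip_nonneg _) _)]
  exact Real.rpow_le_rpow (ip_nonneg _) (le_add_of_nonneg_right zero_le_one) (by positivity)

lemma gaussB {b : ℝ} (hb : 0 < b) : ∫ x : Eu n, Real.exp (-b * ‖x‖ ^ 2) = √(π / b) ^ n := by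
  rw [GaussianFourier.integral_rexp_neg_mul_sq_norm hb, finrank_euclideanSpace_fin,
    Real.sqrt_eq_rpow, ← Real.rpow_natCast, ← Real.rpow_mul (div_pos Real.pi_pos hb).le]
  congr 1
  ring

lemma int_wt_eq : ∫ x : Eu n, wt x = √(2 * π) ^ n := by
  have := gaussB (n := n) one_half_pos
  rw [show π / (1 / 2) = 2 * π by ring] at this
  rw [← this]
  simp only [wt]
  congr 1; funext x; congr 1; ring

lemma hyg {σ p q R : ℝ} {η : Eu n → Eu n} {w : Eu n → ℂ} (hw : Wt η R w) (hp : p = 1 + σ ^ 2)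
    (hp2 : p ≤ 2) (hq : (q - 1) * σ ^ 2 = 1) (hq0 : 0 < q) :
    √(2 * π) ^ n * (∫ x, wt x * ‖LL σ η w ((0, 0), x)‖ ^ q) ^ (p / q) ≤
      (√(2 * π) ^ n) ^ (p / q) * ∫ a, wt a * ‖LL σ η w ((π / 2, a), 0)‖ ^ p := by
  have hp0 : 0 < p := by rw [hp]; positivity
  have e0 : ∀ a x, LL σ η w ((0, a), x) = LL σ η w ((0, 0), x) := fun a x => by simp [LL, ph]
  have e1 : ∀ a x, LL σ η w ((π / 2, a), x) = LL σ η w ((π / 2, a), 0) := fun a x => by
    simp [LL, ph]
  set Z := √(2 * π) ^ n with hZ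
  have Z0 : 0 < Z := by have := Real.pi_pos; positivity
  have i1 : Integrable fun a => wt a * ‖LL σ η w ((π / 2, a), 0)‖ ^ p := by
    have h := ((hw.gr (σ := σ)).pow hp0.le).ex.int (π / 2)
    simp only [Ex, e1, integral_mul_const, int_wt_eq, mul_left_comm _ Z, ← hZ] at h
    exact (integrable_const_mul_iff (isUnit_iff_ne_zero.2 Z0.ne') _).1 h
  have key : ∀ ε : ℝ, 0 < ε → Z * (∫ x, wt x * ‖LL σ η w ((0, 0), x)‖ ^ q) ^ (p / q) ≤
      Z ^ (p / q) * ((∫ a, wt a * ‖LL σ η w ((π / 2, a), 0)‖ ^ p) + Z * ε ^ (p / 2)) := by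
    intro ε hε
    have h := flow hε hp hp2 hq (hw.gr (σ := σ)) (fun i => (hw.coord i).gr)
      (fun i => ((hw.coord i).coord i).gr) hw.da (fun i => (hw.coord i).da i) hw.dx
      (fun i => (hw.coord i).dx i) (hp ▸ hw.dt)
    simp only [Ex, RR, e0, e1, integral_mul_const, int_wt_eq, ← hZ] at h
    refine le_trans ?_ (h.trans ?_)
    · refine mul_le_mul_of_nonneg_left (Real.rpow_le_rpow
        (integral_nonneg fun x => mul_nonneg (wt_pos x).le (by positivity)) ?_ (by positivity)) Z0.le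
      refine integral_mono_of_nonneg
        (Eventually.of_forall fun x => mul_nonneg (wt_pos x).le (by positivity))
        ((gr_RR hε hw.gr (q / 2)).int (0, 0)) (Eventually.of_forall fun x => ?_)
      refine mul_le_mul_of_nonneg_left ?_ (wt_pos x).le
      rw [← ip_rpow]
      exact Real.rpow_le_rpow (ip_nonneg _) (le_add_of_nonneg_right hε.le) (by positivity)
    · have iw : Integrable (wt (n := n)) := by simpa using int_wt (n := n) 0
      rw [hZ, ← int_wt_eq, ← integral_mul_const, ← integral_add i1 (iw.mul_const _),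
        ← integral_const_mul, int_wt_eq, ← hZ]
      refine integral_mono_of_nonneg (Eventually.of_forall fun a => mul_nonneg (wt_pos a).le
        (Real.rpow_nonneg (mul_nonneg Z0.le (Real.rpow_nonneg
          (add_nonneg (ip_nonneg _) hε.le) _)) _))
        ((i1.add (iw.mul_const _)).const_mul _) (Eventually.of_forall fun a => ?_)
      have h0 := add_nonneg (ip_nonneg (LL σ η w ((π / 2, a), 0))) hε.le
      simp only
      rw [Real.mul_rpow Z0.le (Real.rpow_nonneg h0 _), ← Real.rpow_mul h0,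
        show q / 2 * (p / q) = p / 2 by field_simp, mul_left_comm, ← mul_add, ← ip_rpow]
      exact mul_le_mul_of_nonneg_left (mul_le_mul_of_nonneg_left (Real.rpow_add_le_add_rpow
        (ip_nonneg _) hε.le (by positivity) (by linarith)) (wt_pos a).le) (by positivity)
  have lim : Tendsto (fun ε : ℝ => Z ^ (p / q) *
      ((∫ a, wt a * ‖LL σ η w ((π / 2, a), 0)‖ ^ p) + Z * ε ^ (p / 2))) (𝓝[>] 0)
      (𝓝 (Z ^ (p / q) * ((∫ a, wt a * ‖LL σ η w ((π / 2, a), 0)‖ ^ p) + Z * 0 ^ (p / 2)))) :=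
    ((((Real.continuousAt_rpow_const 0 _ (Or.inr (half_pos hp0).le)).tendsto.const_mul
      Z).const_add _).const_mul _).mono_left nhdsWithin_le_nhds
  rw [Real.zero_rpow (half_pos hp0).ne', mul_zero, add_zero] at lim
  exact ge_of_tendsto lim (eventually_nhdsWithin_of_forall key)

lemma holder_w {α : Type*} [MeasurableSpace α] {μ : Measure α} {p q : ℝ}
    (hpq : p.HolderConjugate q) {k f g : α → ℝ} (k0 : ∀ x, 0 ≤ k x) (f0 : ∀ x, 0 ≤ f x)
    (g0 : ∀ x, 0 ≤ g x) (mk : Measurable k) (mf : Measurable f) (mg : Measurable g)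
    (i1 : Integrable (fun x => k x * f x ^ p) μ) (i2 : Integrable (fun x => k x * g x ^ q) μ) :
    ∫ x, k x * (f x * g x) ∂μ ≤
      (∫ x, k x * f x ^ p ∂μ) ^ (1 / p) * (∫ x, k x * g x ^ q ∂μ) ^ (1 / q) := by
  have aux : ∀ {r : ℝ} {f : α → ℝ}, 0 < r → (∀ x, 0 ≤ f x) → Measurable f →
      Integrable (fun x => k x * f x ^ r) μ → (∀ x, (k x ^ r⁻¹ * f x) ^ r = k x * f x ^ r) ∧
        MemLp (fun x => k x ^ r⁻¹ * f x) (ENNReal.ofReal r) μ := by
    intro r f hr f0 mf i
    have e : ∀ x, (k x ^ r⁻¹ * f x) ^ r = k x * f x ^ r := fun x => by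
      rw [Real.mul_rpow (Real.rpow_nonneg (k0 x) _) (f0 x), Real.rpow_inv_rpow (k0 x) hr.ne']
    refine ⟨e, (integrable_norm_rpow_iff (Measurable.aestronglyMeasurable (by fun_prop))
      (by simpa using hr) (by simp)).1 ?_⟩
    simp_rw [ENNReal.toReal_ofReal hr.le,
      Real.norm_of_nonneg (mul_nonneg (Real.rpow_nonneg (k0 _) _) (f0 _)), e]
    exact i
  obtain ⟨e1, l1⟩ := aux hpq.pos f0 mf i1
  obtain ⟨e2, l2⟩ := aux hpq.symm.pos g0 mg i2
  have := integral_mul_le_Lp_mul_Lq_of_nonneg hpq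
    (Eventually.of_forall fun x => mul_nonneg (Real.rpow_nonneg (k0 x) _) (f0 x))
    (Eventually.of_forall fun x => mul_nonneg (Real.rpow_nonneg (k0 x) _) (g0 x)) l1 l2
  simp only [e1, e2] at this
  refine le_trans (le_of_eq (integral_congr_ae (Eventually.of_forall fun x => ?_))) this
  simp only
  rw [mul_mul_mul_comm, ← Real.rpow_add' (k0 x) (by rw [hpq.inv_add_inv_eq_one]; exact one_ne_zero),
    hpq.inv_add_inv_eq_one, Real.rpow_one]

/-- Bounded measurable functions with bounded support. -/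
structure Bd (R : ℝ) (u : Eu n → ℂ) : Prop where
  meas : Measurable u
  bdd : ∃ M, ∀ x, ‖u x‖ ≤ M
  supp : ∀ x, u x ≠ 0 → ‖x‖ ≤ R

lemma Bd.pow {R : ℝ} {u : Eu n → ℂ} (hu : Bd R u) {r : ℝ} (hr : 0 < r) :
    Integrable fun x => ‖u x‖ ^ r := by
  obtain ⟨M, hM⟩ := hu.bdd
  have := hu.meas
  refine ((integrableOn_const (C := M ^ r) (isCompact_closedBall (0 : Eu n)
    R).measure_ne_top).integrable_indicator measurableSet_closedBall).mono'
    (Measurable.aestronglyMeasurable (by fun_prop)) (Eventually.of_forall fun x => ?_)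
  rw [Real.norm_of_nonneg (by positivity)]
  by_cases h : u x = 0
  · rw [h, norm_zero, Real.zero_rpow hr.ne']
    exact indicator_nonneg (fun _ _ => Real.rpow_nonneg ((norm_nonneg _).trans (hM 0)) _) _
  · rw [indicator_of_mem (mem_closedBall_zero_iff.2 (hu.supp x h))]
    exact Real.rpow_le_rpow (norm_nonneg _) (hM x) hr.le

lemma Bd.int {R : ℝ} {u : Eu n → ℂ} (hu : Bd R u) : Integrable u :=
  (integrable_norm_iff hu.meas.aestronglyMeasurable).1 (by simpa using hu.pow one_pos)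

lemma gauss_shift {b c : ℝ} (hb : 0 < b) (hc : 0 < c) (a : Eu n) :
    Integrable (fun x : Eu n => Real.exp (-b * ‖a - c • x‖ ^ 2)) ∧
      ∫ x : Eu n, Real.exp (-b * ‖a - c • x‖ ^ 2) = √(π / (b * c ^ 2)) ^ n := by
  have e : ∀ x : Eu n, Real.exp (-b * ‖a - c • x‖ ^ 2) =
      Real.exp (-(b * c ^ 2) * ‖c⁻¹ • a - x‖ ^ 2) := fun x => by
    rw [show a - c • x = c • (c⁻¹ • a - x) by rw [smul_sub, smul_inv_smul₀ hc.ne'], norm_smul,
      Real.norm_of_nonneg hc.le]
    congr 1; ring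
  simp_rw [e]
  have h : 0 < b * c ^ 2 := by positivity
  exact ⟨(int_gauss h).comp_sub_left _, by
    rw [integral_sub_left_eq_self (fun x : Eu n => Real.exp (-(b * c ^ 2) * ‖x‖ ^ 2)), gaussB h]⟩

lemma smooth_le {p q b c R : ℝ} (hpq : p.HolderConjugate q) (hb : 0 < b) (hc : 0 < c)
    {u : Eu n → ℂ} (hu : Bd R u) :
    ∫ a : Eu n, (∫ x, Real.exp (-b * ‖a - c • x‖ ^ 2) * ‖u x‖) ^ p ≤
      (√(π / (b * c ^ 2)) ^ n) ^ (p / q) * (√(π / b) ^ n * ∫ x, ‖u x‖ ^ p) ∧
    Integrable fun a : Eu n => (∫ x, Real.exp (-b * ‖a - c • x‖ ^ 2) * ‖u x‖) ^ p := by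
  have := hu.meas
  have iu := hu.pow hpq.pos
  have i2 : Integrable (fun z : Eu n × Eu n => Real.exp (-b * ‖z.1 - c • z.2‖ ^ 2) * ‖u z.2‖ ^ p)
      (volume.prod volume) := by
    refine (integrable_prod_iff' (Measurable.aestronglyMeasurable (by fun_prop))).2
      ⟨Eventually.of_forall fun x => ((int_gauss hb).comp_sub_right (c • x)).mul_const (‖u x‖ ^ p),
        ?_⟩
    have : ∀ x : Eu n, ∫ a : Eu n, ‖Real.exp (-b * ‖a - c • x‖ ^ 2) * ‖u x‖ ^ p‖ =
        √(π / b) ^ n * ‖u x‖ ^ p := fun x => by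
      simp_rw [Real.norm_of_nonneg (mul_nonneg (Real.exp_pos _).le
        (Real.rpow_nonneg (norm_nonneg (u x)) p))]
      rw [integral_mul_const,
        integral_sub_right_eq_self (fun x : Eu n => Real.exp (-b * ‖x‖ ^ 2)), gaussB hb]
    simp_rw [this]
    exact iu.const_mul _
  have pt : ∀ a : Eu n, (∫ x, Real.exp (-b * ‖a - c • x‖ ^ 2) * ‖u x‖) ^ p ≤
      (√(π / (b * c ^ 2)) ^ n) ^ (p / q) * ∫ x, Real.exp (-b * ‖a - c • x‖ ^ 2) * ‖u x‖ ^ p := by
    intro a
    have h := holder_w (μ := volume) hpq (k := fun x => Real.exp (-b * ‖a - c • x‖ ^ 2))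
      (f := fun x => ‖u x‖) (g := fun _ => 1) (fun _ => (Real.exp_pos _).le)
      (fun _ => norm_nonneg _) (fun _ => zero_le_one) (by fun_prop) (by fun_prop) measurable_const
      (iu.bdd_mul (c := 1) (by fun_prop) (Eventually.of_forall fun x => by
        rw [Real.norm_of_nonneg (Real.exp_pos _).le, Real.exp_le_one_iff]
        nlinarith [sq_nonneg ‖a - c • x‖]))
      (by simpa using (gauss_shift hb hc a).1)
    simp only [mul_one, Real.one_rpow, (gauss_shift hb hc a).2] at h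
    have h0 : 0 ≤ ∫ x, Real.exp (-b * ‖a - c • x‖ ^ 2) * ‖u x‖ ^ p :=
      integral_nonneg fun x => by positivity
    refine (Real.rpow_le_rpow (integral_nonneg fun x => by positivity) h hpq.pos.le).trans_eq ?_
    rw [Real.mul_rpow (by positivity) (by positivity), ← Real.rpow_mul h0,
      ← Real.rpow_mul (by positivity), one_div_mul_cancel hpq.ne_zero, Real.rpow_one, mul_comm,
      one_div_mul_eq_div]
  have n0 : ∀ a : Eu n, 0 ≤ (∫ x, Real.exp (-b * ‖a - c • x‖ ^ 2) * ‖u x‖) ^ p := fun a =>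
    Real.rpow_nonneg (integral_nonneg fun x => by positivity) _
  constructor
  · refine (integral_mono_of_nonneg (Eventually.of_forall n0) (i2.integral_prod_left.const_mul _)
      (Eventually.of_forall pt)).trans_eq ?_
    rw [integral_const_mul, integral_integral_swap i2, ← integral_const_mul (√(π / b) ^ n)]
    congr 2
    funext x
    simp only
    rw [integral_mul_const,
      integral_sub_right_eq_self (fun x : Eu n => Real.exp (-b * ‖x‖ ^ 2)), gaussB hb]
  · refine (i2.integral_prod_left.const_mul ((√(π / (b * c ^ 2)) ^ n) ^ (p / q))).mono'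
      (Measurable.aestronglyMeasurable (Measurable.pow_const ?_ _))
      (Eventually.of_forall fun a => ?_)
    · exact (Measurable.stronglyMeasurable (f := fun z : Eu n × Eu n =>
        Real.exp (-b * ‖z.1 - c • z.2‖ ^ 2) * ‖u z.2‖) (by fun_prop)).integral_prod_right'.measurable
    · rw [Real.norm_of_nonneg (n0 a)]
      exact pt a

lemma hy_aux {σ p q R c : ℝ} (hp : p = 1 + σ ^ 2) (hp2 : p ≤ 2) (hpq : p.HolderConjugate q)
    (hq : (q - 1) * σ ^ 2 = 1) (hR : 0 ≤ R) (hc : 0 < c) {u : Eu n → ℂ} (hu : Bd R u) :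
    Integrable (fun y => wt (c⁻¹ • y) *
      ‖∫ x, u x * Complex.exp ((σ / p * ⟪x, y⟫ : ℝ) * Complex.I)‖ ^ q) ∧
    (∫ y, wt (c⁻¹ • y) * ‖∫ x, u x * Complex.exp ((σ / p * ⟪x, y⟫ : ℝ) * Complex.I)‖ ^ q) ^ (1 / q) ≤
      (2 * π * √p) ^ n * ((∫ x, ‖u x‖ ^ p) / (2 * π) ^ n) ^ (1 / p) := by
  have hp0 := hpq.pos
  have hq0 := hpq.symm.pos
  have hpi := Real.pi_pos
  have := hu.meas
  set κ := c / p with hκ
  have κ0 : 0 < κ := by positivity
  set w : Eu n → ℂ := fun x => u x * Complex.exp (-(‖κ • x‖ ^ 2 * σ ^ 2 / 2) : ℝ) with hw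
  have W : Wt (fun x => κ • x) (κ * R) w := by
    refine ⟨by fun_prop, by positivity, by fun_prop, hu.int.mul_bdd (c := 1) (by fun_prop)
      (Eventually.of_forall fun x => ?_), fun x hx => ?_⟩
    · rw [Complex.norm_exp_ofReal, Real.exp_le_one_iff, neg_nonpos]
      positivity
    · rw [norm_smul, Real.norm_of_nonneg κ0.le]
      exact mul_le_mul_of_nonneg_left (hu.supp x (left_ne_zero_of_mul hx)) κ0.le
  set F : Eu n → ℂ := fun y => ∫ x, u x * Complex.exp ((σ / p * ⟪x, y⟫ : ℝ) * Complex.I) with hF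
  have e0 : ∀ y, LL σ (fun x => κ • x) w ((0, 0), y) = F (c • y) := fun y => by
    simp only [LL, hF, hw, ph, mul_assoc, ← Complex.exp_add, real_inner_smul_left,
      real_inner_smul_right, Real.sin_zero, Real.cos_zero, hκ]
    congr 1; funext x; congr 2
    push_cast
    ring
  have e1 : ∀ a, wt a * ‖LL σ (fun x => κ • x) w ((π / 2, a), 0)‖ ^ p ≤
      (∫ x, Real.exp (-(1 / (2 * p)) * ‖a - c • x‖ ^ 2) * ‖u x‖) ^ p := fun a => by
    have e : wt a = Real.exp (-(1 / (2 * p)) * ‖a‖ ^ 2) ^ p := by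
      rw [← Real.exp_mul, wt]; congr 1; field_simp
    rw [e, ← Real.mul_rpow (Real.exp_pos _).le (norm_nonneg _)]
    refine Real.rpow_le_rpow (by positivity) ((mul_le_mul_of_nonneg_left
      (norm_integral_le_integral_norm _) (Real.exp_pos _).le).trans_eq ?_) hp0.le
    rw [← integral_const_mul]
    congr 1; funext x
    simp only [hw, ph, norm_mul, Complex.norm_exp, Complex.add_re, Complex.ofReal_re,
      Real.sin_pi_div_two, Real.cos_pi_div_two, inner_zero_right, mul_zero, Complex.ofReal_zero,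
      zero_mul, Complex.zero_re, real_inner_smul_left, norm_smul, Real.norm_of_nonneg κ0.le]
    rw [mul_assoc, mul_left_comm, ← Real.exp_add, ← Real.exp_add, mul_comm, norm_sub_sq_real,
      real_inner_smul_right, norm_smul, Real.norm_of_nonneg hc.le, real_inner_comm, hκ,
      show σ ^ 2 = p - 1 by linarith]
    congr 2
    field_simp
    ring
  have i0 := ((W.gr (σ := σ)).pow hq0.le).int (0, 0)
  have h1 := hyg W hp hp2 hq hq0
  obtain ⟨h2, i2⟩ := smooth_le hpq (by positivity : 0 < 1 / (2 * p)) hc hu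
  have h3 := (integral_mono_of_nonneg (Eventually.of_forall fun a =>
    mul_nonneg (wt_pos a).le (by positivity)) i2 (Eventually.of_forall e1)).trans h2
  simp only [e0] at i0 h1
  have e2 : ∀ x, wt x * ‖F (c • x)‖ ^ q = (fun y => wt (c⁻¹ • y) * ‖F y‖ ^ q) (c • x) :=
    fun x => by simp only [inv_smul_smul₀ hc.ne']
  simp only [e2] at i0 h1
  refine ⟨(integrable_comp_smul_iff volume _ hc.ne').1 i0, ?_⟩
  rw [Measure.integral_comp_smul volume (fun y => wt (c⁻¹ • y) * ‖F y‖ ^ q),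
    finrank_euclideanSpace_fin, abs_of_pos (by positivity), smul_eq_mul] at h1
  set J := ∫ y, wt (c⁻¹ • y) * ‖F y‖ ^ q with hJ
  have J0 : 0 ≤ J := integral_nonneg fun y => mul_nonneg (wt_pos _).le (by positivity)
  set m := ∫ x, ‖u x‖ ^ p with hm
  have m0 : 0 ≤ m := integral_nonneg fun y => by positivity
  have h4 := h1.trans (mul_le_mul_of_nonneg_left h3 (by positivity))
  set s := √p with hs
  have s0 : 0 < s := Real.sqrt_pos.2 hp0
  have ss : p = s ^ 2 := (Real.sq_sqrt hp0.le).symm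
  set z := √(2 * π) with hz
  have z0 : 0 < z := by positivity
  have zz : 2 * π = z ^ 2 := (Real.sq_sqrt (by positivity)).symm
  have a1 : √(π / (1 / (2 * p) * c ^ 2)) = z * s / c := by
    rw [Real.sqrt_eq_iff_mul_self_eq_of_pos (by positivity)]
    field_simp
    rw [← zz, ← ss]; ring
  have a2 : √(π / (1 / (2 * p))) = z * s := by
    rw [Real.sqrt_eq_iff_mul_self_eq_of_pos (by positivity)]
    field_simp
    rw [← zz, ← ss]; ring
  have a3 : p / q = p - 1 := hpq.div_conj_eq_sub_one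
  rw [a1, a2, a3, Real.mul_rpow (by positivity) J0, Real.inv_rpow (by positivity),
    ← mul_assoc ((z ^ n) ^ (p - 1)), ← Real.mul_rpow (by positivity) (by positivity), ← mul_pow,
    show z * (z * s / c) = z ^ 2 * s / c by ring, div_pow,
    Real.div_rpow (by positivity) (by positivity), mul_pow z s, mul_assoc (z ^ n), ← zz] at h4
  have c0 : 0 < (c ^ n) ^ (p - 1) := by positivity
  have h5 : J ^ (p - 1) ≤ ((2 * π * s) ^ n) ^ (p - 1) * (s ^ n * m) := by
    have zn : 0 < z ^ n := by positivity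
    field_simp at h4
    nlinarith
  rw [show 1 / q = (p - 1) * (1 / p) by rw [← a3]; field_simp, Real.rpow_mul J0]
  refine (Real.rpow_le_rpow (by positivity) h5 (by positivity)).trans_eq ?_
  rw [show ((2 * π * s) ^ n) ^ (p - 1) * (s ^ n * m) = ((2 * π * s) ^ n) ^ p * (m / (2 * π) ^ n) by
      rw [Real.rpow_sub_one (by positivity), mul_pow (2 * π) s]; field_simp,
    Real.mul_rpow (by positivity) (by positivity), ← Real.rpow_mul (by positivity),
    mul_one_div_cancel hp0.ne', Real.rpow_one]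

/-- Sharp Hausdorff-Young inequality in bilinear form. -/
theorem hy {σ p R : ℝ} (hp : p = 1 + σ ^ 2) (hp2 : p ≤ 2) (hR : 0 ≤ R) {u v : Eu n → ℂ}
    (hu : Bd R u) (hv : Bd R v) :
    ‖∫ y, v y * ∫ x, u x * Complex.exp ((σ / p * ⟪x, y⟫ : ℝ) * Complex.I)‖ ≤
      (2 * π * √p) ^ n * ((∫ x, ‖u x‖ ^ p) * (∫ x, ‖v x‖ ^ p) / (2 * π) ^ n) ^ (1 / p) := by
  have hpi := Real.pi_pos
  have := hu.meas
  have := hv.meas
  set F : Eu n → ℂ := fun y => ∫ x, u x * Complex.exp ((σ / p * ⟪x, y⟫ : ℝ) * Complex.I) with hF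
  have bF : ∀ y, ‖F y‖ ≤ ∫ x, ‖u x‖ := fun y => (norm_integral_le_integral_norm _).trans_eq (by
    simp only [norm_mul, Complex.norm_exp_ofReal_mul_I, mul_one])
  have mF : Measurable F := (Measurable.stronglyMeasurable (f := fun z : Eu n × Eu n =>
    u z.2 * Complex.exp ((σ / p * ⟪z.2, z.1⟫ : ℝ) * Complex.I))
    (by fun_prop)).integral_prod_right'.measurable
  change ‖∫ y, v y * F y‖ ≤ _
  rcases eq_or_ne σ 0 with h | h
  · have p1 : p = 1 := by rw [hp, h]; simp
    clear_value F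
    simp only [p1, Real.sqrt_one, mul_one, Real.rpow_one, div_one]
    rw [mul_div_cancel₀ _ (by positivity), mul_comm, ← integral_mul_const]
    refine norm_integral_le_of_norm_le (hv.int.norm.mul_const _) (Eventually.of_forall fun y => ?_)
    rw [norm_mul]
    exact mul_le_mul_of_nonneg_left (bF y) (norm_nonneg _)
  have σ0 : 0 < σ ^ 2 := by positivity
  have hpq : p.HolderConjugate (p / σ ^ 2) :=
    Real.holderConjugate_iff.2 ⟨by linarith, by rw [hp]; field_simp⟩
  have hp0 := hpq.pos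
  have m1 : 0 ≤ ∫ x, ‖u x‖ ^ p := integral_nonneg fun y => by positivity
  have m2 : 0 ≤ ∫ x, ‖v x‖ ^ p := integral_nonneg fun y => by positivity
  have wt1 : ∀ y : Eu n, ‖wt y‖ ≤ 1 := fun y => by
    rw [Real.norm_of_nonneg (wt_pos _).le, wt, Real.exp_le_one_iff, neg_nonpos]; positivity
  have key : ∀ c : ℝ, 0 < c → ‖∫ y, v y * F y‖ ≤ Real.exp ((c⁻¹ * R) ^ 2 / 2) *
      ((2 * π * √p) ^ n * ((∫ x, ‖u x‖ ^ p) * (∫ x, ‖v x‖ ^ p) / (2 * π) ^ n) ^ (1 / p)) := by
    intro c hc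
    obtain ⟨i1, h1⟩ := hy_aux hp hp2 hpq (by rw [hp]; field_simp; ring) hR hc hu
    have mk : Measurable fun y : Eu n => wt (c⁻¹ • y) :=
      wt_cont.measurable.comp (measurable_const_smul _)
    have i2 := (hv.pow hp0).bdd_mul mk.aestronglyMeasurable (Eventually.of_forall fun y => wt1 _)
    have h2 := holder_w (μ := volume) hpq (fun y => (wt_pos _).le) (fun y => norm_nonneg (v y))
      (fun y => norm_nonneg (F y)) mk (by fun_prop) (by fun_prop) i2 i1
    have h3 : ∫ y, wt (c⁻¹ • y) * ‖v y‖ ^ p ≤ ∫ y, ‖v y‖ ^ p :=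
      integral_mono i2 (hv.pow hp0) fun y => mul_le_of_le_one_left (by positivity)
        ((le_abs_self _).trans (wt1 _))
    have i3 : Integrable fun y => wt (c⁻¹ • y) * (‖v y‖ * ‖F y‖) :=
      (hv.int.norm.mul_bdd mF.norm.aestronglyMeasurable (Eventually.of_forall fun y => by
        simpa using bF y)).bdd_mul mk.aestronglyMeasurable (Eventually.of_forall fun y => wt1 _)
    refine (norm_integral_le_of_norm_le (i3.const_mul (Real.exp ((c⁻¹ * R) ^ 2 / 2)))
      (Eventually.of_forall fun y => ?_)).trans ?_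
    · rw [norm_mul, ← mul_assoc]
      by_cases h0 : v y = 0
      · simp [h0]
      refine le_mul_of_one_le_left (by positivity) ?_
      rw [wt, ← Real.exp_add, norm_smul, Real.norm_of_nonneg (inv_pos.2 hc).le]
      refine Real.one_le_exp ?_
      have : (c⁻¹ * ‖y‖) ^ 2 ≤ (c⁻¹ * R) ^ 2 := by gcongr; exact hv.supp y h0
      linarith
    · rw [integral_const_mul]
      refine mul_le_mul_of_nonneg_left (h2.trans ?_) (Real.exp_pos _).le
      rw [mul_div_right_comm, Real.mul_rpow (by positivity) m2, ← mul_assoc, mul_comm]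
      exact mul_le_mul h1 (Real.rpow_le_rpow (integral_nonneg fun y =>
        mul_nonneg (wt_pos _).le (by positivity)) h3 (by positivity))
        (Real.rpow_nonneg (integral_nonneg fun y => mul_nonneg (wt_pos _).le (by positivity)) _)
        (by positivity)
  have lim := ((((tendsto_inv_atTop_zero.mul_const R).pow 2).div_const 2).rexp).mul_const
    ((2 * π * √p) ^ n * ((∫ x, ‖u x‖ ^ p) * (∫ x, ‖v x‖ ^ p) / (2 * π) ^ n) ^ (1 / p))
  simp only [zero_mul, ne_eq, OfNat.ofNat_ne_zero, not_false_eq_true, zero_pow, zero_div,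
    Real.exp_zero, one_mul] at lim
  exact ge_of_tendsto lim ((eventually_gt_atTop 0).mono key)

end Pool.Agent.MP_19b6be_gt

end MrgPart5

-- marker of a merged file
example : 731051 + 528192 = 731051 + 528192 := rfl
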