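import Mathlib.RingTheory.Flat.TorsionFree
import Mathlib.RingTheory.TotallySplit
import Mathlib.RingTheory.Etale.Weakly
import Pool.Agent.MP_19b6be_gt.HY

set_option autoImplicit false
set_option linter.unusedSectionVars false

open scoped RealInnerProductSpace Real Topology Nat ENNReal
open MeasureTheory Module Filter Metric Function Set

namespace Pool.Agent.MP_19b6be_gt

variable {n : ℕ}

lemma polar_vol {g : Eu n → ℝ} (hg : Hom g) :
    ENNReal.ofReal (n !) * volume {w | g w ≤ 1} = ∫⁻ w, ENNReal.ofReal (Real.exp (-g w)) := by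
  have h := layer hg.meas hg.nonneg hg.smul (F := fun _ => 1) measurable_const (d := 0)
    (fun t x ht => by simp) (ω := fun t => ENNReal.ofReal (Real.exp (-t)))
    (g := fun s => ENNReal.ofReal (Real.exp (-s))) (by fun_prop) fun s _ => exp1 s
  simp only [mul_one, add_zero, setLIntegral_one, mom1] at h
  exact h.symm

/-- `p` is the gauge and `h` the support function of `K - c`. -/
structure Dual (K : Set (Eu n)) (c : Eu n) (p h : Eu n → ℝ) : Prop where
  hp : Hom p
  hh : Hom h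
  mem : ∀ z, z ∈ K ↔ p (z - c) ≤ 1
  sup : ∀ w a, (∀ z ∈ K, ⟪w, z - c⟫ ≤ a) ↔ h w ≤ a

/-- The quantity minimised in the problem. -/
noncomputable def funk (K : Set (Eu n)) (ρ : ℝ) (q : Eu n) : ℝ≥0∞ :=
  ∫⁻ x in {y | ∃ z ∈ K, y = q + ρ • (z - q)}, volume {w : Eu n | ∀ z ∈ K, ⟪w, z - x⟫ ≤ 1}

lemma funk_eq {K : Set (Eu n)} {c : Eu n} {p h : Eu n → ℝ} (H : Dual K c p h) {q : Eu n}
    (hq : q ∈ K) {ρ : ℝ} (h0 : 0 < ρ) (h1 : ρ ≤ 1) :
    ENNReal.ofReal (n !) * funk K ρ q = ENNReal.ofReal (ρ ^ n) * ∫⁻ u in {u | p u ≤ 1},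
      ∫⁻ w, ENNReal.ofReal (Real.exp (-h w + ⟪w, (1 - ρ) • (q - c)⟫)) *
        ENNReal.ofReal (Real.exp (ρ * ⟪u, w⟫)) := by
  have mp := H.hp.meas
  have mh := H.hh.meas
  set v := (1 - ρ) • (q - c) with hv
  have hS : {y | ∃ z ∈ K, y = q + ρ • (z - q)} = {x | p (ρ⁻¹ • (x - (c + v))) ≤ 1} := by
    ext y
    constructor
    · rintro ⟨z, hz, rfl⟩
      have : q + ρ • (z - q) - (c + v) = ρ • (z - c) := by rw [hv]; module
      rw [mem_ofPred_eq, this, inv_smul_smul₀ h0.ne']
      exact (H.mem z).1 hz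
    · intro hy
      refine ⟨ρ⁻¹ • (y - (c + v)) + c, (H.mem _).2 (by rwa [add_sub_cancel_right]), ?_⟩
      rw [smul_sub, smul_add, smul_inv_smul₀ h0.ne', hv]
      module
  have mS : MeasurableSet {x | p (ρ⁻¹ • (x - (c + v))) ≤ 1} :=
    measurableSet_le (by fun_prop) measurable_const
  set f : Eu n → ℝ≥0∞ := fun x => ∫⁻ w, ENNReal.ofReal (Real.exp (-(h w - ⟪w, x - c⟫))) with hf
  have mf : Measurable f := Measurable.lintegral_prod_right' (f := fun z : Eu n × Eu n =>
    ENNReal.ofReal (Real.exp (-(h z.2 - ⟪z.2, z.1 - c⟫)))) (by fun_prop)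
  have e1 : ∫⁻ x in {y | ∃ z ∈ K, y = q + ρ • (z - q)}, ENNReal.ofReal (n !) *
      volume {w : Eu n | ∀ z ∈ K, ⟪w, z - x⟫ ≤ 1} =
      ∫⁻ x in {y | ∃ z ∈ K, y = q + ρ • (z - q)}, f x := by
    refine setLIntegral_congr_fun (hS ▸ mS) fun x hx => ?_
    obtain ⟨z, hz, hx⟩ := hx
    have hom : Hom fun w => h w - ⟪w, x - c⟫ := by
      refine ⟨by fun_prop, fun w => ?_, fun t w ht => ?_⟩
      · have a1 := (H.sup w _).2 le_rfl z hz
        have a2 := (H.sup w _).2 le_rfl q hq
        have : x - c = ρ • (z - c) + (1 - ρ) • (q - c) := by rw [hx]; module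
        rw [this, inner_add_right, real_inner_smul_right, real_inner_smul_right]
        nlinarith [mul_le_mul_of_nonneg_left a1 h0.le,
          mul_le_mul_of_nonneg_left a2 (sub_nonneg.2 h1)]
      · rw [H.hh.smul t w ht, real_inner_smul_left, mul_sub]
    rw [hf]
    simp only
    rw [← polar_vol hom]
    congr 2
    ext w
    simp only [mem_ofPred_eq]
    rw [sub_le_iff_le_add, ← H.sup]
    refine forall₂_congr fun y _ => ?_
    rw [show y - x = (y - c) - (x - c) by abel, inner_sub_right, sub_le_iff_le_add]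
  rw [funk, ← lintegral_const_mul' _ _ ENNReal.ofReal_ne_top, e1, hS, ← lintegral_indicator mS,
    ← lintegral_add_right_eq_self _ (c + v),
    lint_scale (f := fun x => {x | p (ρ⁻¹ • (x - (c + v))) ≤ 1}.indicator f (x + (c + v)))
      ((mf.indicator mS).comp (measurable_add_const _)) h0,
    ← lintegral_indicator (measurableSet_le mp measurable_const)]
  congr 1
  refine lintegral_congr fun u => ?_
  have e2 : ρ • u + (c + v) ∈ {x | p (ρ⁻¹ • (x - (c + v))) ≤ 1} ↔ u ∈ {u | p u ≤ 1} := by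
    rw [mem_ofPred_eq, add_sub_cancel_right, inv_smul_smul₀ h0.ne', mem_ofPred_eq]
  by_cases hu : u ∈ {u | p u ≤ 1}
  · rw [indicator_of_mem (e2.2 hu), indicator_of_mem hu, hf]
    refine lintegral_congr fun w => ?_
    rw [← ENNReal.ofReal_mul (Real.exp_pos _).le, ← Real.exp_add,
      show ρ • u + (c + v) - c = ρ • u + v by abel, inner_add_right, real_inner_smul_right,
      real_inner_comm w u]
    congr 2
    ring
  · rw [indicator_of_notMem (fun h => hu (e2.1 h)), indicator_of_notMem hu]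

lemma sym_cosh {A : Set (Eu n)} (mA : MeasurableSet A) (hA : ∀ u, -u ∈ A ↔ u ∈ A)
    {b : Eu n → ℝ≥0∞} (hb : Measurable b) (ρ : ℝ) :
    ∫⁻ u in A, ∫⁻ w, b w * ENNReal.ofReal (Real.exp (ρ * ⟪u, w⟫)) =
      ∫⁻ u in A, ∫⁻ w, b w * ENNReal.ofReal (Real.cosh (ρ * ⟪u, w⟫)) := by
  refine (ENNReal.mul_right_inj (a := 2) (by simp) (by simp)).1 ?_
  rw [← lintegral_indicator mA, ← lintegral_indicator mA, sym_neg
    ((meas_inner hb (f := fun s => Real.exp (ρ * s)) (by fun_prop) _).indicator mA),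
    ← lintegral_const_mul' _ _ (by simp)]
  refine lintegral_congr fun u => ?_
  by_cases hu : u ∈ A
  · rw [indicator_of_mem hu, indicator_of_mem hu, indicator_of_mem ((hA u).2 hu),
      ← lintegral_add_left (by fun_prop), ← lintegral_const_mul' _ _ (by simp)]
    refine lintegral_congr fun w => ?_
    rw [inner_neg_left, mul_neg, ← mul_add, exp_add_exp, mul_left_comm]
  · rw [indicator_of_notMem hu, indicator_of_notMem hu, indicator_of_notMem fun h => hu ((hA u).1 h)]
    simp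

lemma tilt_ge {h : Eu n → ℝ} (mh : Measurable h) (he : ∀ w, h (-w) = h w) (v u : Eu n) (ρ : ℝ) :
    ∫⁻ w, ENNReal.ofReal (Real.exp (-h w)) * ENNReal.ofReal (Real.cosh (ρ * ⟪u, w⟫)) ≤
      ∫⁻ w, ENNReal.ofReal (Real.exp (-h w + ⟪w, v⟫)) *
        ENNReal.ofReal (Real.cosh (ρ * ⟪u, w⟫)) := by
  refine (ENNReal.mul_le_mul_iff_right (a := 2) (by simp) (by simp)).1 ?_
  rw [sym_neg (f := fun w => ENNReal.ofReal (Real.exp (-h w + ⟪w, v⟫)) *
    ENNReal.ofReal (Real.cosh (ρ * ⟪u, w⟫))) (by fun_prop), ← lintegral_const_mul' _ _ (by simp)]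
  refine lintegral_mono fun w => ?_
  simp only [he, inner_neg_left, inner_neg_right, mul_neg, Real.cosh_neg, Real.exp_add]
  rw [ENNReal.ofReal_mul (Real.exp_pos _).le, ENNReal.ofReal_mul (Real.exp_pos _).le, ← add_mul,
    ← mul_add, exp_add_exp, ← mul_assoc, mul_comm 2]
  refine mul_le_mul_left (mul_le_mul_right ?_ _) _
  exact le_mul_of_one_le_right' (ENNReal.one_le_ofReal.2 (Real.one_le_cosh _))

lemma dual_ball : Dual (closedBall (0 : Eu n) 1) 0 (fun x => ‖x‖) (fun x => ‖x‖) := by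
  refine ⟨hom_norm, hom_norm, fun z => by simp, fun w a => ⟨fun h => ?_, fun h z hz => ?_⟩⟩
  · by_cases hw : w = 0
    · simpa [hw] using h 0 (by simp)
    · have hn := norm_pos_iff.2 hw
      have := h (‖w‖⁻¹ • w) (by simp [norm_smul, hn.ne'])
      rwa [sub_zero, real_inner_smul_right, real_inner_self_eq_norm_sq, sq,
        inv_mul_cancel_left₀ hn.ne'] at this
  · rw [sub_zero]
    exact (real_inner_le_norm _ _).trans
      ((mul_le_of_le_one_right (norm_nonneg _) (by simpa using hz)).trans h)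

lemma Dual.inner_le {K : Set (Eu n)} {c : Eu n} {p h : Eu n → ℝ} (H : Dual K c p h) (x y : Eu n) :
    ⟪x, y⟫ ≤ p x * h y := by
  refine le_of_forall_pos_le_add fun ε hε => ?_
  have h0 := H.hh.nonneg y
  have h1 := H.hp.nonneg x
  set s := p x + ε / (h y + 1) with hs
  have h2 : 0 < ε / (h y + 1) := by positivity
  have s0 : 0 < s := by positivity
  have h3 : s⁻¹ • x + c ∈ K := (H.mem _).2 (by
    rw [add_sub_cancel_right, H.hp.smul _ _ (inv_pos.2 s0), inv_mul_le_iff₀ s0]; linarith)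
  have h4 := (H.sup y _).2 le_rfl _ h3
  rw [add_sub_cancel_right, real_inner_smul_right, inv_mul_le_iff₀ s0, real_inner_comm] at h4
  have h5 : ε / (h y + 1) * h y ≤ ε := by
    rw [div_mul_eq_mul_div, div_le_iff₀ (by positivity)]
    nlinarith
  rw [hs, add_mul] at h4
  linarith

lemma exists_dual {K : Set (Eu n)} (hK : IsCompact K) (hc : Convex ℝ K) {c : Eu n}
    (hi : c ∈ interior K) : ∃ h : Eu n → ℝ, Continuous h ∧
      Continuous (gauge {u | u + c ∈ K}) ∧ Dual K c (gauge {u | u + c ∈ K}) h := by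
  have c0 : Convex ℝ {u | u + c ∈ K} := hc.translate_preimage_left c
  have n0 : {u | u + c ∈ K} ∈ 𝓝 (0 : Eu n) :=
    (continuous_add_const c).continuousAt.preimage_mem_nhds
      (by simpa using mem_interior_iff_mem_nhds.1 hi)
  have k0 : IsClosed {u | u + c ∈ K} := hK.isClosed.preimage (continuous_add_const c)
  have cp := continuous_gauge c0 n0
  have ch : Continuous fun w : Eu n => sSup ((fun z => ⟪w, z - c⟫) '' K) :=
    hK.continuous_sSup (f := fun w z : Eu n => ⟪w, z - c⟫) (by fun_prop)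
  have hs : ∀ (w : Eu n) a, (∀ z ∈ K, ⟪w, z - c⟫ ≤ a) ↔ sSup ((fun z => ⟪w, z - c⟫) '' K) ≤ a :=
    fun w a => by
      rw [csSup_le_iff (hK.image (by fun_prop)).bddAbove
        (Nonempty.image _ ⟨c, interior_subset hi⟩), forall_mem_image]
  refine ⟨_, ch, cp, ⟨cp.measurable, fun x => gauge_nonneg x, fun t x ht => ?_⟩,
    ⟨ch.measurable, fun w => ?_, fun t w ht => ?_⟩, fun z => ?_, hs⟩
  · rw [gauge_smul_of_nonneg ht.le, smul_eq_mul]
  · simpa using (hs w _).2 le_rfl c (interior_subset hi)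
  · refine eq_of_forall_ge_iff fun a => ?_
    rw [← hs, ← le_div_iff₀' ht, ← hs]
    refine forall₂_congr fun z _ => ?_
    rw [real_inner_smul_left, le_div_iff₀' ht]
  · rw [gauge_le_one_iff_mem_closure c0 n0, k0.closure_eq, mem_ofPred_eq, sub_add_cancel]

theorem funk_sym {K : Set (Eu n)} (hK : IsCompact K) (hc : Convex ℝ K) {c : Eu n}
    (hi : c ∈ interior K) (hs : ∀ z ∈ K, (2 : ℝ) • c - z ∈ K) {ρ : ℝ} (h0 : 0 < ρ) (h1 : ρ < 1)
    {q : Eu n} (hq : q ∈ closedBall (0 : Eu n) 1) : funk K ρ c ≤ funk (closedBall 0 1) ρ q := by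
  obtain ⟨h, ch, cp, H⟩ := exists_dual hK hc hi
  set p := gauge {u | u + c ∈ K} with hp
  have pe : ∀ x, p (-x) = p x := gauge_neg fun x hx => by
    have := hs _ hx
    rwa [show (2 : ℝ) • c - (x + c) = -x + c by module] at this
  have hph : ∀ x y, |⟪x, y⟫| ≤ p x * h y := fun x y => abs_le.2
    ⟨by have := H.inner_le (-x) y; rw [pe, inner_neg_left] at this; linarith, H.inner_le x y⟩
  refine (ENNReal.mul_le_mul_iff_right (a := ENNReal.ofReal (n !))
    (by simpa using Nat.factorial_ne_zero n) (by simp)).1 ?_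
  rw [funk_eq H (interior_subset hi) h0 h1.le, funk_eq dual_ball hq h0 h1.le,
    sym_cosh (measurableSet_le cp.measurable measurable_const) (fun u => by simp [pe])
      (by fun_prop),
    sym_cosh (measurableSet_le measurable_norm measurable_const) (fun u => by simp)
      (by fun_prop)]
  refine mul_le_mul_right ?_ _
  simp only [sub_self, smul_zero, inner_zero_right, add_zero]
  refine (NN_le H.hp H.hh cp ch hph (by nlinarith)).trans ?_
  exact lintegral_mono fun u => tilt_ge measurable_norm norm_neg _ u ρ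

end Pool.Agent.MP_19b6be_gt
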