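import Mathlib.Analysis.Convex.Integral
import Mathlib.Combinatorics.SimpleGraph.Basic
import Pool.Agent.MP_19b6be_gt.HY
import Pool.Agent.MP_19b6be_gt.Geom

-- ======== part 0: formerly Pool.Agent.MP_19b6be_gt.Disc
section MrgPart0

set_option autoImplicit false
set_option linter.unusedSectionVars false

open scoped RealInnerProductSpace Real Topology Nat ENNReal
open MeasureTheory Module Filter Metric Function Set Complex

namespace Pool.Agent.MP_19b6be_gt

lemma one_le_norm_add {τ : ℂ} (h : 0 ≤ τ.re) : 1 ≤ ‖1 + τ‖ :=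
  le_trans (by simpa using h) (re_le_norm (1 + τ))

/-- Maximum principle on a half disc with one singular boundary point. -/
lemma half_disc {F : ℂ → ℂ} {K C : ℝ} {N : ℕ} (hC : 0 < C)
    (hd : ∀ τ : ℂ, ‖τ‖ ≤ 1 → 0 ≤ τ.re → τ ≠ 1 → DifferentiableAt ℂ F τ)
    (hK : ∀ τ : ℂ, ‖τ‖ ≤ 1 → 0 ≤ τ.re → τ ≠ 1 → ‖F τ‖ ≤ K)
    (hb : ∀ τ : ℂ, ‖τ‖ ≤ 1 → 0 ≤ τ.re → τ ≠ 1 → ‖τ‖ = 1 ∨ τ.re = 0 → ‖F τ‖ ≤ C * ‖1 - τ ^ 2‖ ^ N)
    {t : ℝ} (h0 : 0 ≤ t) (h1 : t < 1) : ‖F t‖ ≤ C * (1 - t ^ 2) ^ N := by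
  set s := √(1 - t) with hs
  have s0 : 0 < s := Real.sqrt_pos.2 (by linarith)
  have ss : s ^ 2 = 1 - t := Real.sq_sqrt (by linarith)
  have t2 : 0 < 1 - t ^ 2 := by nlinarith
  have key : ∀ ε : ℝ, 0 < ε → ‖F t‖ ≤ Real.exp (ε / s) * (C * (1 - t ^ 2) ^ N) := by
    intro ε hε
    have lim := (Real.tendsto_pow_mul_exp_neg_atTop_nhds_zero (2 * N)).const_mul
      (K * (2 / ε) ^ (2 * N))
    rw [mul_zero] at lim
    obtain ⟨x, hx1, hx2⟩ := ((lim.eventually (gt_mem_nhds hC)).and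
      (eventually_gt_atTop (ε / (2 * s)))).exists
    have x0 : 0 < x := lt_trans (by positivity) hx2
    set δ := ε / (2 * x) with hδ
    have δ0 : 0 < δ := by positivity
    have δs : δ < s := by
      rw [hδ, div_lt_iff₀ (by positivity)]
      rw [div_lt_iff₀ (by positivity)] at hx2
      linarith
    set f : ℂ → ℂ := fun ω => F (1 - ω ^ 2) * exp (-(ε / ω)) / (1 - (1 - ω ^ 2) ^ 2) ^ N with hf
    set U : Set ℂ := {ω | 0 < ω.re ∧ ‖1 - ω ^ 2‖ < 1 ∧ 0 < (1 - ω ^ 2).re ∧ δ < ‖ω‖} with hU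
    set V : Set ℂ := {ω | 0 ≤ ω.re ∧ ‖1 - ω ^ 2‖ ≤ 1 ∧ 0 ≤ (1 - ω ^ 2).re ∧ δ ≤ ‖ω‖} with hV
    have c1 : Continuous fun ω : ℂ => ‖1 - ω ^ 2‖ := by fun_prop
    have c2 : Continuous fun ω : ℂ => (1 - ω ^ 2).re := by fun_prop
    have oU : IsOpen U := (isOpen_lt continuous_const continuous_re).and
      ((isOpen_lt c1 continuous_const).and
        ((isOpen_lt continuous_const c2).and (isOpen_lt continuous_const continuous_norm)))
    have cV : IsClosed V := (isClosed_le continuous_const continuous_re).and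
      ((isClosed_le c1 continuous_const).and
        ((isClosed_le continuous_const c2).and (isClosed_le continuous_const continuous_norm)))
    have UV : closure U ⊆ V :=
      closure_minimal (fun ω h => ⟨h.1.le, h.2.1.le, h.2.2.1.le, h.2.2.2.le⟩) cV
    have n0 : ∀ ω ∈ V, ω ≠ 0 := fun ω h => norm_pos_iff.1 (δ0.trans_le h.2.2.2)
    have n1 : ∀ ω ∈ V, 1 - ω ^ 2 ≠ 1 := fun ω h => by simpa using n0 ω h
    have lo : ∀ ω ∈ V, ‖ω‖ ^ 2 ≤ ‖1 - (1 - ω ^ 2) ^ 2‖ := fun ω h => by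
      rw [show 1 - (1 - ω ^ 2) ^ 2 = ω ^ 2 * (1 + (1 - ω ^ 2)) by ring, norm_mul, norm_pow]
      exact le_mul_of_one_le_right (sq_nonneg _) (one_le_norm_add h.2.2.1)
    have po : ∀ ω ∈ V, 0 < ‖1 - (1 - ω ^ 2) ^ 2‖ := fun ω h =>
      (pow_pos (norm_pos_iff.2 (n0 ω h)) 2).trans_le (lo ω h)
    have re2 : ∀ ω ∈ V, ‖ω‖ ≤ 2 * ω.re := fun ω h => by
      have a1 := (re_le_norm _).trans h.2.1
      have a2 := Complex.sq_norm ω
      simp only [sq, sub_re, one_re, mul_re, normSq_apply] at a1 a2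
      refine abs_le_of_sq_le_sq' ?_ (by linarith [h.1]) |>.2
      nlinarith [mul_self_nonneg ω.re]
    have ex : ∀ ω ∈ V, ‖exp (-(ε / ω))‖ ≤ Real.exp (-(ε / (2 * ‖ω‖))) := fun ω h => by
      have := norm_pos_iff.2 (n0 ω h)
      rw [norm_exp, Real.exp_le_exp, neg_re, neg_le_neg_iff, div_eq_mul_inv (ε : ℂ), re_ofReal_mul,
        inv_re, ← Complex.sq_norm, div_eq_mul_inv ε]
      refine mul_le_mul_of_nonneg_left ?_ hε.le
      rw [inv_eq_one_div, div_le_div_iff₀ (by positivity) (by positivity)]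
      nlinarith [re2 ω h]
    have df : DifferentiableOn ℂ f (closure U) := fun ω h => by
      have h' := UV h
      have a1 := (hd _ h'.2.1 h'.2.2.1 (n1 ω h')).comp ω (f := fun ω => 1 - ω ^ 2) (by fun_prop)
      have a2 := n0 ω h'
      have a3 : DifferentiableAt ℂ (fun ω : ℂ => exp (-(ε / ω))) ω := by
        fun_prop (disch := assumption)
      have a4 : DifferentiableAt ℂ (fun ω : ℂ => (1 - (1 - ω ^ 2) ^ 2) ^ N) ω := by fun_prop
      exact ((a1.mul a3).div a4 (pow_ne_zero _ (norm_pos_iff.1 (po ω h')))).differentiableWithinAt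
    have bU : Bornology.IsBounded U := (isBounded_closedBall (x := (0 : ℂ)) (r := 2)).subset
      fun ω h => by
        have a1 := norm_sub_le 1 (1 - ω ^ 2)
        rw [sub_sub_cancel, norm_pow, norm_one] at a1
        rw [mem_closedBall_zero_iff]
        nlinarith [h.2.1, norm_nonneg ω]
    have e0 : 1 - (s : ℂ) ^ 2 = t := by rw [← ofReal_pow, ss]; simp
    have hsV : (s : ℂ) ∈ closure U ∨ t = 0 := by
      rcases h0.eq_or_lt with h | h
      · exact Or.inr h.symm
      · refine Or.inl (subset_closure ⟨s0, ?_, ?_, ?_⟩)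
        · rwa [e0, norm_real, Real.norm_of_nonneg h0]
        · rwa [e0]
        · rwa [norm_real, Real.norm_of_nonneg s0.le]
    rcases hsV with hsV | rfl
    · have h := norm_le_of_forall_mem_frontier_norm_le bU df.diffContOnCl (C := C)
        (fun ω hω => ?_) hsV
      · simp only [hf, e0, norm_div, norm_mul, norm_pow] at h
        rw [← ofReal_div, ← ofReal_neg, norm_exp_ofReal, ← ofReal_pow, ← ofReal_one, ← ofReal_sub,
          norm_real, Real.norm_of_nonneg t2.le, div_le_iff₀ (by positivity), Real.exp_neg,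
          ← div_eq_mul_inv, div_le_iff₀ (Real.exp_pos _), mul_comm] at h
        exact h
      · rw [oU.frontier_eq] at hω
        have h' := UV hω.1
        have p1 := po ω h'
        have p2 := norm_pos_iff.2 (n0 ω h')
        simp only [hf, norm_div, norm_mul, norm_pow]
        rw [div_le_iff₀ (by positivity)]
        by_cases hc : ‖1 - ω ^ 2‖ = 1 ∨ (1 - ω ^ 2).re = 0
        · refine (mul_le_of_le_one_right (norm_nonneg _) ((ex ω h').trans ?_)).trans
            (hb _ h'.2.1 h'.2.2.1 (n1 ω h') hc)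
          rw [Real.exp_le_one_iff, neg_nonpos]
          positivity
        · push Not at hc
          have e : ‖ω‖ = δ := by
            by_contra hne
            exact hω.2 ⟨by linarith [re2 ω h'], lt_of_le_of_ne h'.2.1 hc.1,
              lt_of_le_of_ne h'.2.2.1 hc.2.symm, lt_of_le_of_ne h'.2.2.2 (Ne.symm hne)⟩
          have a1 := hK _ h'.2.1 h'.2.2.1 (n1 ω h')
          have a2 := ex ω h'
          have a3 := lo ω h'
          rw [e] at a2 a3
          rw [show ε / (2 * δ) = x by rw [hδ]; field_simp] at a2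
          have a4 : K * Real.exp (-x) =
              K * (2 / ε) ^ (2 * N) * (x ^ (2 * N) * Real.exp (-x)) * (δ ^ 2) ^ N := by
            have : (2 / ε) ^ (2 * N) * x ^ (2 * N) * (δ ^ 2) ^ N = 1 := by
              rw [← pow_mul, ← mul_pow, ← mul_pow, show 2 / ε * x * δ = 1 by rw [hδ]; field_simp,
                one_pow]
            linear_combination (-(K * Real.exp (-x))) * this
          refine (mul_le_mul a1 a2 (norm_nonneg _) ((norm_nonneg _).trans a1)).trans ?_
          rw [a4]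
          exact mul_le_mul hx1.le (pow_le_pow_left₀ (sq_nonneg _) a3 _) (by positivity) hC.le
    · have := hb 0 (by simp) (by simp) (by simp) (Or.inr rfl)
      simp only [ne_eq, OfNat.ofNat_ne_zero, not_false_eq_true, zero_pow, sub_zero, norm_one,
        ofReal_zero] at this ⊢
      exact this.trans (le_mul_of_one_le_left (by positivity) (Real.one_le_exp (by positivity)))
  have lim : Tendsto (fun ε : ℝ => Real.exp (ε / s) * (C * (1 - t ^ 2) ^ N)) (𝓝[>] 0)
      (𝓝 (Real.exp (0 / s) * (C * (1 - t ^ 2) ^ N))) :=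
    (by fun_prop : Continuous fun ε : ℝ => Real.exp (ε / s) *
      (C * (1 - t ^ 2) ^ N)).continuousAt.tendsto.mono_left nhdsWithin_le_nhds
  rw [zero_div, Real.exp_zero, one_mul] at lim
  exact ge_of_tendsto lim (eventually_nhdsWithin_of_forall key)

lemma diff_two {α : Type*} [MeasurableSpace α] (μ : Measure α) [IsFiniteMeasure μ]
    {s t : α → ℝ} (hs : Measurable s) (ht : Measurable t) {M : ℝ}
    (hb : ∀ᵐ z ∂μ, |s z| ≤ M ∧ |t z| ≤ M) :
    Differentiable ℂ (fun w : ℂ × ℂ => ∫ z, exp (w.1 * s z + w.2 * t z) ∂μ) := by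
  intro w₀
  set L : α → ℂ × ℂ →L[ℂ] ℂ := fun z =>
    (s z : ℂ) • ContinuousLinearMap.fst ℂ ℂ ℂ + (t z : ℂ) • ContinuousLinearMap.snd ℂ ℂ ℂ with hL
  have eL : ∀ z w, L z w = w.1 * s z + w.2 * t z := fun z w => by simp [hL, mul_comm]
  have nL : ∀ᵐ z ∂μ, ‖L z‖ ≤ 2 * M := hb.mono fun z hz => by
    have M0 := (abs_nonneg _).trans hz.1
    refine ContinuousLinearMap.opNorm_le_bound _ (by positivity) fun w => ?_
    rw [eL]
    refine (norm_add_le _ _).trans ?_
    rw [norm_mul, norm_mul, norm_real, norm_real, Real.norm_eq_abs, Real.norm_eq_abs]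
    nlinarith [mul_le_mul (norm_fst_le w) hz.1 (abs_nonneg _) (norm_nonneg _),
      mul_le_mul (norm_snd_le w) hz.2 (abs_nonneg _) (norm_nonneg _)]
  have ex : ∀ᵐ z ∂μ, ∀ w ∈ ball w₀ 1, ‖exp (w.1 * s z + w.2 * t z)‖ ≤
      Real.exp (2 * M * (‖w₀‖ + 1)) := nL.mono fun z hz w hw => by
    rw [← eL]
    exact (norm_exp_le_exp_norm _).trans (Real.exp_le_exp.2 (((L z).le_opNorm w).trans
      (mul_le_mul hz (norm_lt_of_mem_ball hw).le (norm_nonneg _) ((norm_nonneg _).trans hz))))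
  have mL : AEStronglyMeasurable L μ :=
    ((measurable_ofReal.comp hs).aestronglyMeasurable.smul_const _).add
      ((measurable_ofReal.comp ht).aestronglyMeasurable.smul_const _)
  have mE : ∀ w : ℂ × ℂ, AEStronglyMeasurable (fun z => exp (w.1 * s z + w.2 * t z)) μ := fun w =>
    Measurable.aestronglyMeasurable (by fun_prop)
  have i0 : Integrable (fun z => exp (w₀.1 * s z + w₀.2 * t z)) μ :=
    (integrable_const _).mono' (mE w₀) (ex.mono fun z hz => hz w₀ (mem_ball_self one_pos))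
  have b1 : ∀ᵐ z ∂μ, ∀ w ∈ ball w₀ 1, ‖exp (w.1 * s z + w.2 * t z) • L z‖ ≤
      Real.exp (2 * M * (‖w₀‖ + 1)) * (2 * M) := by
    filter_upwards [ex, nL] with z h1 h2 w hw
    rw [norm_smul]
    exact mul_le_mul (h1 w hw) h2 (norm_nonneg _) (Real.exp_pos _).le
  have d1 : ∀ z (w : ℂ × ℂ), HasFDerivAt (fun w : ℂ × ℂ => exp (w.1 * s z + w.2 * t z))
      (exp (w.1 * s z + w.2 * t z) • L z) w := fun z w => by
    simpa only [eL] using ((L z).hasFDerivAt (x := w)).cexp
  exact (hasFDerivAt_integral_of_dominated_of_fderiv_le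
    (F := fun (w : ℂ × ℂ) z => exp (w.1 * s z + w.2 * t z))
    (F' := fun w z => exp (w.1 * s z + w.2 * t z) • L z) (ball_mem_nhds w₀ one_pos)
    (Eventually.of_forall mE) i0 ((mE w₀).smul mL) b1 (integrable_const _)
    (Eventually.of_forall fun z w _ => d1 z w)).differentiableAt

end Pool.Agent.MP_19b6be_gt

end MrgPart0

-- ======== part 1: formerly Pool.Agent.MP_19b6be_gt.Interp
section MrgPart1

set_option autoImplicit false
set_option linter.unusedSectionVars false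

open scoped RealInnerProductSpace Real Topology Nat ENNReal
open MeasureTheory Module Filter Metric Function Set Complex

namespace Pool.Agent.MP_19b6be_gt

variable {n : ℕ}

/-- Truncated exponential. -/
noncomputable def tr (R : ℝ) (a : ℂ) (P : Eu n → ℝ) : Eu n → ℂ :=
  (closedBall 0 R).indicator fun x => exp (a * P x)

lemma tr_bd (R : ℝ) (a : ℂ) {P : Eu n → ℝ} (hP : Continuous P) : Bd R (tr R a P) := by
  have hc : Continuous fun x => exp (a * P x) := by fun_prop
  obtain ⟨M, hM⟩ := (isCompact_closedBall (0 : Eu n) R).exists_bound_of_continuousOn hc.continuousOn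
  refine ⟨hc.measurable.indicator measurableSet_closedBall, ⟨max M 0, fun x => ?_⟩,
    fun x hx => mem_closedBall_zero_iff.1 (mem_of_indicator_ne_zero hx)⟩
  by_cases h : x ∈ closedBall (0 : Eu n) R
  · rw [tr, indicator_of_mem h]; exact (hM x h).trans (le_max_left _ _)
  · rw [tr, indicator_of_notMem h]; simp

lemma tr_pow (R : ℝ) {a : ℂ} (P : Eu n → ℝ) {r : ℝ} (hr : 0 < r) (h : a.re * r = -1) :
    ∫ x, ‖tr R a P x‖ ^ r = ∫ x in closedBall 0 R, Real.exp (-P x) := by
  rw [← integral_indicator measurableSet_closedBall]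
  congr 1; funext x
  by_cases hx : x ∈ closedBall (0 : Eu n) R
  · rw [tr, indicator_of_mem hx, indicator_of_mem hx, norm_exp, ← Real.exp_mul, re_mul_ofReal,
      mul_right_comm, h, neg_one_mul]
  · rw [tr, indicator_of_notMem hx, indicator_of_notMem hx, norm_zero, Real.zero_rpow hr.ne']

/-- The two-parameter family of truncated integrals. -/
noncomputable def Ph (R : ℝ) (P Q : Eu n → ℝ) (w : ℂ × ℂ) : ℂ :=
  ∫ z : Eu n × Eu n, exp (w.1 * (P z.1 + Q z.2 : ℝ) + w.2 * (⟪z.1, z.2⟫ : ℝ))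
    ∂((volume.prod volume).restrict (closedBall 0 R))

lemma Ph_eq (R : ℝ) {P Q : Eu n → ℝ} (hP : Continuous P) (hQ : Continuous Q) (a : ℂ) (c : ℝ) :
    Ph R P Q (a, c * I) = ∫ y, tr R a Q y * ∫ x, tr R a P x * exp ((c * ⟪x, y⟫ : ℝ) * I) := by
  have hc : Continuous fun z : Eu n × Eu n =>
      exp (a * (P z.1 + Q z.2 : ℝ) + c * I * (⟪z.1, z.2⟫ : ℝ)) := by fun_prop
  rw [Ph, ← integral_indicator measurableSet_closedBall, integral_prod_symm _
    ((hc.continuousOn.integrableOn_compact (isCompact_closedBall _ _)).integrable_indicator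
      measurableSet_closedBall)]
  congr 1; funext y
  rw [← integral_const_mul]
  congr 1; funext x
  rw [← Prod.mk_zero_zero, ← closedBall_prod_same]
  by_cases h1 : x ∈ closedBall (0 : Eu n) R <;> by_cases h2 : y ∈ closedBall (0 : Eu n) R <;>
    simp only [tr, indicator, mem_prod, h1, h2, and_true, and_false, if_true, if_false, mul_zero,
      zero_mul, ← exp_add]
  congr 1
  push_cast
  ring

lemma arc_bound {R : ℝ} {u v : Eu n → ℂ} (hu : Bd R u) (hv : Bd R v) {A B : ℝ} (hA : 0 < A)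
    (hB : 0 < B) (eA : ∫ x, ‖u x‖ ^ (2 : ℝ) = A) (eB : ∫ x, ‖v x‖ ^ (2 : ℝ) = B) {c : ℝ}
    (hc : c ≠ 0) :
    ‖∫ y, v y * ∫ x, u x * exp ((c * ⟪x, y⟫ : ℝ) * I)‖ ^ 2 ≤ (2 * π / |c|) ^ n * (A * B) := by
  have hpi := Real.pi_pos
  have c0 := abs_pos.2 hc
  have l2 : ∀ {u : Eu n → ℂ}, Bd R u → MemLp u 2 := fun hu =>
    (integrable_norm_rpow_iff hu.meas.aestronglyMeasurable two_ne_zero (by simp)).1
      (by simpa using hu.pow two_pos)
  simp only [Real.rpow_two] at eA eB
  set l := √(√B / √A) with hl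
  have l0 : 0 < l := by positivity
  have ll : l ^ 2 = √B / √A := Real.sq_sqrt (by positivity)
  have h := osc_bound (U := fun x => l * u x) (V := fun x => (l⁻¹ : ℝ) * v x) (hu.int.const_mul _)
    ((l2 hu).const_mul _) ((l2 hv).const_mul _) hc (k := √(|c| / (2 * π)) ^ n) (by positivity)
    (by rw [← pow_mul, mul_comm n, pow_mul, Real.sq_sqrt (by positivity),
      finrank_euclideanSpace_fin])
  simp only [norm_mul, mul_pow, integral_const_mul, mul_assoc, eA, eB, norm_real,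
    Real.norm_of_nonneg l0.le, Real.norm_of_nonneg (inv_pos.2 l0).le, mul_left_comm _ (l : ℂ)] at h
  rw [← mul_assoc l, mul_inv_cancel₀ l0.ne', one_mul, inv_pow, ll] at h
  have sA := Real.mul_self_sqrt hA.le
  have sB := Real.mul_self_sqrt hB.le
  have e : (√B / √A * A + (√B / √A)⁻¹ * B) / 2 = √(A * B) := by
    rw [Real.sqrt_mul hA.le]
    field_simp
    rw [sq, sq, sA, sB]
    ring
  rw [e] at h
  have h2 := pow_le_pow_left₀ (by positivity) h 2
  rw [mul_pow, ← pow_mul, mul_comm n, pow_mul, Real.sq_sqrt (by positivity),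
    Real.sq_sqrt (by positivity), ← le_div_iff₀' (by positivity)] at h2
  refine h2.trans_eq ?_
  rw [div_eq_inv_mul, ← inv_pow, inv_div]

lemma interp_ball {P Q : Eu n → ℝ} (hP : Continuous P) (hQ : Continuous Q)
    (hPQ : ∀ x y, ⟪x, y⟫ ≤ P x + Q y) {R : ℝ} (hR : 0 < R) {t : ℝ} (h0 : 0 ≤ t) (h1 : t < 1) :
    ∫ z in closedBall 0 R, Real.exp (-(P z.1 + Q z.2 - t * ⟪z.1, z.2⟫) / (1 - t ^ 2))
      ∂(volume.prod volume) ≤ (2 * π * √(1 - t ^ 2)) ^ n *
      ((∫ x in closedBall 0 R, Real.exp (-P x)) * (∫ x in closedBall 0 R, Real.exp (-Q x)) /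
        (2 * π) ^ n) ^ (1 / (1 + t)) := by
  have hpi := Real.pi_pos
  have pos : ∀ {P : Eu n → ℝ}, Continuous P → 0 < ∫ x in closedBall 0 R, Real.exp (-P x) :=
    fun hP => by
      have : NeZero ((volume : Measure (Eu n)).restrict (closedBall 0 R)) :=
        ⟨by simpa using (measure_closedBall_pos volume _ hR).ne'⟩
      exact integral_exp_pos
        (hP.neg.rexp.continuousOn.integrableOn_compact (isCompact_closedBall _ _))
  set A := ∫ x in closedBall 0 R, Real.exp (-P x) with hA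
  set B := ∫ x in closedBall 0 R, Real.exp (-Q x) with hB
  have A0 : 0 < A := pos hP
  have B0 : 0 < B := pos hQ
  set m := A * B / (2 * π) ^ n with hm
  have m0 : 0 < m := by positivity
  have cK : IsCompact (closedBall (0 : Eu n × Eu n) R) := isCompact_closedBall _ _
  have : IsFiniteMeasure (((volume : Measure (Eu n)).prod (volume : Measure (Eu n))).restrict
    (closedBall 0 R)) := isFiniteMeasure_restrict.2 cK.measure_ne_top
  obtain ⟨M, hM⟩ := cK.exists_bound_of_continuousOn (f := fun z => (P z.1 + Q z.2, ⟪z.1, z.2⟫))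
    (by fun_prop)
  have hb : ∀ᵐ z ∂((volume.prod volume).restrict (closedBall (0 : Eu n × Eu n) R)),
      |P z.1 + Q z.2| ≤ M ∧ |⟪z.1, z.2⟫| ≤ M :=
    (ae_restrict_mem measurableSet_closedBall).mono fun z hz => norm_prod_le_iff.1 (hM z hz)
  have hD : Differentiable ℂ (Ph R P Q) := diff_two _ (by fun_prop) (by fun_prop) hb
  have n1 : ∀ τ : ℂ, 0 ≤ τ.re → 1 + τ ≠ 0 := fun τ h =>
    norm_pos_iff.1 (one_pos.trans_le (one_le_norm_add h))
  have n2 : ∀ τ : ℂ, 0 ≤ τ.re → τ ≠ 1 → 1 - τ ^ 2 ≠ 0 := fun τ h h' => by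
    rw [show 1 - τ ^ 2 = (1 + τ) * (1 - τ) by ring]
    exact mul_ne_zero (n1 τ h) (sub_ne_zero.2 h'.symm)
  have nE : ∀ τ : ℂ, ‖exp (-(2 * (1 + τ)⁻¹ * Real.log m))‖ = m ^ (-(2 * ((1 + τ)⁻¹).re)) :=
    fun τ => by
      rw [norm_exp, Real.rpow_def_of_pos m0, neg_re, re_mul_ofReal, mul_re]
      simp [mul_comm]
  have key := half_disc (N := n) (C := (2 * π) ^ (2 * n))
    (F := fun τ => Ph R P Q (-(1 - τ ^ 2)⁻¹, τ / (1 - τ ^ 2)) ^ 2 *
      exp (-(2 * (1 + τ)⁻¹ * Real.log m)))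
    (K := (Real.exp M * ((volume.prod volume).restrict
      (closedBall (0 : Eu n × Eu n) R)).real univ) ^ 2 * Real.exp (2 * |Real.log m|))
    (by positivity) (fun τ _ a2 a3 => ?_) (fun τ a1 a2 a3 => ?_) (fun τ a1 a2 a3 a4 => ?_) h0 h1
  · have t2 : 0 < 1 - t ^ 2 := by nlinarith
    have e : Ph R P Q (-(1 - (t : ℂ) ^ 2)⁻¹, t / (1 - (t : ℂ) ^ 2)) = (∫ z in closedBall 0 R,
        Real.exp (-(P z.1 + Q z.2 - t * ⟪z.1, z.2⟫) / (1 - t ^ 2)) ∂(volume.prod volume) : ℝ) := by
      rw [Ph, ← integral_complex_ofReal]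
      congr 1; funext z
      push_cast
      congr 1
      ring
    rw [norm_mul, nE, norm_pow, e, norm_real, Real.norm_eq_abs, sq_abs, ← ofReal_one, ← ofReal_add,
      ← ofReal_inv, ofReal_re, Real.rpow_neg m0.le, ← div_eq_mul_inv,
      div_le_iff₀ (by positivity)] at key
    refine abs_le_of_sq_le_sq' (key.trans_eq ?_) (by positivity) |>.2
    rw [mul_pow _ (m ^ _), ← pow_mul _ n 2, mul_comm n 2, pow_mul (2 * π * _), mul_pow (2 * π),
      Real.sq_sqrt t2.le, mul_pow _ (1 - t ^ 2), ← pow_mul, mul_comm 2 (1 + t)⁻¹,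
      Real.rpow_mul m0.le, Real.rpow_two, one_div]
  · have b1 := n1 τ a2
    have b2 := n2 τ a2 a3
    refine (((hD _).comp τ (f := fun τ => (-(1 - τ ^ 2)⁻¹, τ / (1 - τ ^ 2))) ?_).pow 2).mul ?_ <;>
      fun_prop (disch := assumption)
  · have b1 := n1 τ a2
    have b2 := n2 τ a2 a3
    have b3 : |((1 + τ)⁻¹).re| ≤ 1 := (abs_re_le_norm _).trans (by
      rw [norm_inv]; exact inv_le_one_of_one_le₀ (one_le_norm_add a2))
    have b4 : 0 ≤ (τ / (1 - τ ^ 2)).re := by
      have := Complex.sq_norm τ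
      rw [div_re, ← add_div]
      refine div_nonneg ?_ (normSq_nonneg _)
      simp only [sq, sub_re, one_re, mul_re, sub_im, one_im, mul_im, normSq_apply] at this ⊢
      nlinarith [mul_nonneg a2 (sub_nonneg.2 (mul_le_one₀ a1 (norm_nonneg τ) a1))]
    rw [norm_mul, norm_pow]
    refine mul_le_mul (pow_le_pow_left₀ (norm_nonneg _)
      (norm_integral_le_of_norm_le_const (hb.mono fun z hz => ?_)) 2) ?_ (norm_nonneg _)
      (sq_nonneg _)
    · have e : -(1 - τ ^ 2)⁻¹ * (P z.1 + Q z.2 : ℝ) + τ / (1 - τ ^ 2) * (⟪z.1, z.2⟫ : ℝ) =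
          -((1 + τ)⁻¹ * (P z.1 + Q z.2 : ℝ)) -
            τ / (1 - τ ^ 2) * (P z.1 + Q z.2 - ⟪z.1, z.2⟫ : ℝ) := by
        push_cast
        field_simp
        ring
      simp only
      rw [e, norm_exp, sub_re, neg_re, re_mul_ofReal, re_mul_ofReal, Real.exp_le_exp]
      have c1 := mul_nonneg b4 (sub_nonneg.2 (hPQ z.1 z.2))
      have c2 := neg_le_abs (((1 + τ)⁻¹).re * (P z.1 + Q z.2))
      rw [abs_mul] at c2
      nlinarith [mul_le_mul b3 hz.1 (abs_nonneg _) zero_le_one]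
    · rw [nE, Real.rpow_def_of_pos m0, Real.exp_le_exp]
      have c2 := neg_le_abs (Real.log m * ((1 + τ)⁻¹).re)
      rw [abs_mul] at c2
      nlinarith [mul_le_mul_of_nonneg_left b3 (abs_nonneg (Real.log m))]
  · have b1 := n1 τ a2
    have b2 := n2 τ a2 a3
    have sq1 := Complex.sq_norm τ
    rw [normSq_apply] at sq1
    rw [norm_mul, nE, norm_pow]
    rcases a4 with a4 | a4
    · rw [a4, one_pow] at sq1
      have i0 : τ.im ≠ 0 := fun h => a3 (Complex.ext (by rw [h] at sq1; simp; nlinarith) h)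
      have e1 : 1 - τ ^ 2 = τ * (-(2 * τ.im : ℝ) * I) :=
        Complex.ext (by simp [sq]; linarith) (by simp [sq]; ring)
      have τ0 : τ ≠ 0 := norm_pos_iff.1 (a4 ▸ one_pos)
      have e2 : τ / (1 - τ ^ 2) = ((2 * τ.im)⁻¹ : ℝ) * I := by
        have : (τ.im : ℂ) ≠ 0 := ofReal_ne_zero.2 i0
        rw [e1]; push_cast; field_simp; simp
      have e3 : ((1 + τ)⁻¹).re = 1 / 2 := by
        rw [inv_re, normSq_apply]
        simp only [add_re, one_re, add_im, one_im, zero_add]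
        rw [div_eq_div_iff (by nlinarith) two_ne_zero]
        nlinarith
      have e4 : (-(1 - τ ^ 2)⁻¹).re * 2 = -1 := by
        rw [show -(1 - τ ^ 2)⁻¹ = -(1 + τ)⁻¹ - τ / (1 - τ ^ 2) by field_simp; ring, sub_re, neg_re,
          e3, e2]
        simp
      have e5 : ‖1 - τ ^ 2‖ = |2 * τ.im| := by
        rw [e1, norm_mul, a4, norm_mul, norm_neg, norm_real, norm_I, one_mul, mul_one,
          Real.norm_eq_abs]
      rw [e2, Ph_eq R hP hQ, e3, e5]
      have h := arc_bound (tr_bd R _ hP) (tr_bd R _ hQ) A0 B0 (tr_pow R P two_pos e4)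
        (tr_pow R Q two_pos e4) (c := (2 * τ.im)⁻¹) (by positivity)
      refine (mul_le_mul_of_nonneg_right h (by positivity)).trans_eq ?_
      rw [abs_inv, div_inv_eq_mul, show -(2 * (1 / 2 : ℝ)) = -1 by norm_num, Real.rpow_neg_one, hm,
        mul_pow, two_mul n, pow_add]
      field_simp
    · set σ := τ.im with hσ
      have e0 : τ = σ * I := Complex.ext (by simp [a4]) (by simp [hσ])
      have s1 : σ ^ 2 ≤ 1 := by nlinarith [norm_nonneg τ]
      set p := 1 + σ ^ 2 with hp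
      have p0 : 0 < p := by positivity
      have e1 : 1 - τ ^ 2 = (p : ℝ) := by rw [e0, mul_pow, I_sq, hp]; push_cast; ring
      have e2 : τ / (1 - τ ^ 2) = (σ / p : ℝ) * I := by rw [e1, e0]; push_cast; ring
      have e3 : ((1 + τ)⁻¹).re = 1 / p := by
        rw [inv_re, normSq_apply, hp]
        simp [a4, ← hσ, sq]
      have e4 : (-(1 - τ ^ 2)⁻¹).re * p = -1 := by
        rw [e1, ← ofReal_inv, neg_re, ofReal_re, neg_mul, inv_mul_cancel₀ p0.ne']
      rw [e2, Ph_eq R hP hQ, e3]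
      have h := hy hp (by linarith) hR.le (tr_bd R (-(1 - τ ^ 2)⁻¹) hP)
        (tr_bd R (-(1 - τ ^ 2)⁻¹) hQ)
      rw [tr_pow R P p0 e4, tr_pow R Q p0 e4, ← hA, ← hB, ← hm] at h
      refine (mul_le_mul_of_nonneg_right (pow_le_pow_left₀ (norm_nonneg _) h 2)
        (by positivity)).trans_eq ?_
      rw [e1, norm_real, Real.norm_of_nonneg p0.le, mul_pow, ← Real.rpow_two (m ^ _),
        ← Real.rpow_mul m0.le, mul_assoc, ← Real.rpow_add m0, mul_comm (1 / p), add_neg_cancel,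
        Real.rpow_zero, mul_one, ← pow_mul, mul_comm n, pow_mul, mul_pow (2 * π),
        Real.sq_sqrt p0.le, mul_pow, ← pow_mul]

/-- Interpolation inequality for a dual pair of functions. -/
theorem interp {P Q : Eu n → ℝ} (hP : Continuous P) (hQ : Continuous Q)
    (hPQ : ∀ x y, ⟪x, y⟫ ≤ P x + Q y) (iP : Integrable fun x => Real.exp (-P x))
    (iQ : Integrable fun x => Real.exp (-Q x)) {t : ℝ} (h0 : 0 ≤ t) (h1 : t < 1) :
    ∫⁻ z : Eu n × Eu n, ENNReal.ofReal (Real.exp (-(P z.1 + Q z.2 - t * ⟪z.1, z.2⟫) / (1 - t ^ 2)))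
      ∂(volume.prod volume) ≤ ENNReal.ofReal ((2 * π * √(1 - t ^ 2)) ^ n *
      ((∫ x, Real.exp (-P x)) * (∫ x, Real.exp (-Q x)) / (2 * π) ^ n) ^ (1 / (1 + t))) := by
  have hpi := Real.pi_pos
  have hc : Continuous fun z : Eu n × Eu n =>
      Real.exp (-(P z.1 + Q z.2 - t * ⟪z.1, z.2⟫) / (1 - t ^ 2)) := by fun_prop
  have lim := (aecover_closedBall (μ := (volume : Measure (Eu n)).prod (volume : Measure (Eu n)))
    (x := 0) (l := atTop) (r := fun R : ℝ => R) tendsto_id).lintegral_tendsto_of_countably_generated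
    hc.measurable.ennreal_ofReal.aemeasurable
  refine le_of_tendsto lim ((eventually_gt_atTop 0).mono fun R hR => ?_)
  rw [← ofReal_integral_eq_lintegral_ofReal
    (hc.continuousOn.integrableOn_compact (isCompact_closedBall _ _))
    (Eventually.of_forall fun z => (Real.exp_pos _).le)]
  refine ENNReal.ofReal_le_ofReal ((interp_ball hP hQ hPQ hR h0 h1).trans ?_)
  have a1 := setIntegral_le_integral (s := closedBall 0 R) iP
    (Eventually.of_forall fun x => (Real.exp_pos _).le)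
  have a2 := setIntegral_le_integral (s := closedBall 0 R) iQ
    (Eventually.of_forall fun x => (Real.exp_pos _).le)
  have b1 : 0 ≤ ∫ x in closedBall 0 R, Real.exp (-P x) := integral_nonneg fun _ => by positivity
  have b2 : 0 ≤ ∫ x in closedBall 0 R, Real.exp (-Q x) := integral_nonneg fun _ => by positivity
  have b3 := b1.trans a1
  gcongr

end Pool.Agent.MP_19b6be_gt

end MrgPart1

-- ======== part 2: formerly Pool.Agent.MP_19b6be_gt.Cs
section MrgPart2

set_option autoImplicit false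
set_option linter.unusedSectionVars false

open scoped RealInnerProductSpace Real Topology Nat ENNReal
open MeasureTheory Module Filter Metric Function Set

namespace Pool.Agent.MP_19b6be_gt

variable {n : ℕ}

lemma half_gauss {b : ℝ} (hb : 0 < b) :
    ∫⁻ v in Ioi (0 : ℝ), ENNReal.ofReal (Real.exp (-b * v ^ 2)) = ENNReal.ofReal (√(π / b) / 2) := by
  rw [← integral_gaussian_Ioi, ofReal_integral_eq_lintegral_ofReal
    (integrable_exp_neg_mul_sq hb).integrableOn
    (Eventually.of_forall fun _ => (Real.exp_pos _).le)]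

/-- The Cauchy-Schlomilch integral. -/
lemma cauchy_sch {h : ℝ} (hh : 0 ≤ h) :
    ∫⁻ z in Ioi (0 : ℝ), ENNReal.ofReal (Real.exp (-(z ^ 2 / 2 + (h / z) ^ 2 / 2))) =
      ENNReal.ofReal (√(π / (1 / 2)) / 2) * ENNReal.ofReal (Real.exp (-h)) := by
  rcases hh.eq_or_lt with rfl | h0
  · rw [← half_gauss one_half_pos]
    simp only [zero_div, neg_zero, Real.exp_zero, ENNReal.ofReal_one, mul_one]
    refine lintegral_congr fun z => ?_
    congr 2
    ring
  set g : ℝ → ℝ≥0∞ := fun u => ENNReal.ofReal (Real.exp (-(1 / 2) * u ^ 2)) with hg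
  have mg : Measurable g := by fun_prop
  have i1 : (fun z => h / z) '' Ioi 0 = Ioi 0 := by
    ext y
    exact ⟨fun ⟨z, hz, e⟩ => e ▸ div_pos h0 hz, fun hy => ⟨h / y, div_pos h0 hy, by
      have : y ≠ 0 := ne_of_gt hy
      field_simp⟩⟩
  have i2 : (fun z => z - h / z) '' Ioi 0 = univ := by
    refine eq_univ_of_forall fun u => ?_
    have a1 : |u| < √(u ^ 2 + 4 * h) := Real.lt_sqrt_of_sq_lt (by rw [sq_abs]; linarith)
    have a2 : √(u ^ 2 + 4 * h) ^ 2 = u ^ 2 + 4 * h := Real.sq_sqrt (by positivity)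
    have a3 : 0 < (u + √(u ^ 2 + 4 * h)) / 2 := by linarith [neg_abs_le u]
    refine ⟨_, a3, ?_⟩
    simp only
    rw [sub_eq_iff_eq_add, ← sub_eq_iff_eq_add', eq_div_iff a3.ne']
    nlinarith
  have d1 : ∀ z ∈ Ioi (0 : ℝ), HasDerivAt (fun z => h / z) (-(h / z ^ 2)) z := fun z hz => by
    refine ((hasDerivAt_const z h).div (hasDerivAt_id z) (ne_of_gt hz)).congr_deriv ?_
    simp [neg_div]
  have e1 := lintegral_image_eq_lintegral_abs_deriv_mul measurableSet_Ioi
    (fun z hz => (d1 z hz).hasDerivWithinAt)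
    (fun a ha b hb (e : h / a = h / b) => by
      rwa [div_eq_div_iff (ne_of_gt ha) (ne_of_gt hb), mul_right_inj' h0.ne', eq_comm] at e)
    fun z => g (z - h / z)
  have e2 := lintegral_image_eq_lintegral_abs_deriv_mul measurableSet_Ioi
    (fun z hz => ((hasDerivAt_id' z).sub (d1 z hz)).hasDerivWithinAt)
    (StrictMonoOn.injOn fun a ha b hb (e : a < b) => by
      have := div_le_div_of_nonneg_left h0.le ha e.le
      show a - h / a < b - h / b
      linarith) g
  rw [i1] at e1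
  rw [show ((fun x : ℝ => x) - fun z => h / z) = fun z => z - h / z from rfl, i2,
    Measure.restrict_univ] at e2
  have e3 : ∫⁻ u, g u = ENNReal.ofReal (√(π / (1 / 2))) := by
    rw [← integral_gaussian, ofReal_integral_eq_lintegral_ofReal
      (integrable_exp_neg_mul_sq one_half_pos) (Eventually.of_forall fun _ => (Real.exp_pos _).le)]
  have e4 : 2 * ∫⁻ z in Ioi (0 : ℝ), g (z - h / z) = ENNReal.ofReal (√(π / (1 / 2))) := by
    rw [← e3, e2, two_mul]
    nth_rewrite 2 [e1]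
    rw [← lintegral_add_left (by fun_prop)]
    refine setLIntegral_congr_fun measurableSet_Ioi fun z (hz : 0 < z) => ?_
    have a1 : 0 < h / z ^ 2 := by positivity
    simp only
    rw [abs_neg, abs_of_pos a1, sub_neg_eq_add, abs_of_pos (by positivity),
      ENNReal.ofReal_add zero_le_one a1.le, add_mul, ENNReal.ofReal_one, one_mul,
      show h / (h / z) = z by field_simp]
    congr 2
    simp only [hg]
    congr 2
    ring
  rw [ENNReal.ofReal_div_of_pos two_pos, ← e4, ENNReal.ofReal_ofNat, mul_comm 2, mul_div_assoc,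
    ENNReal.div_self (by simp) (by simp), mul_one, ← lintegral_mul_const _ (by fun_prop)]
  refine setLIntegral_congr_fun measurableSet_Ioi fun z (hz : 0 < z) => ?_
  simp only [hg]
  rw [← ENNReal.ofReal_mul (Real.exp_pos _).le, ← Real.exp_add]
  congr 2
  field_simp
  ring

lemma scale2 {f : Eu n × Eu n → ℝ≥0∞} (hf : Measurable f) {a b : ℝ} (ha : 0 < a) (hb : 0 < b) :
    ∫⁻ z, f z ∂(volume.prod volume) =
      ENNReal.ofReal ((a * b) ^ n) * ∫⁻ z, f (a • z.1, b • z.2) ∂(volume.prod volume) := by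
  rw [lintegral_prod _ hf.aemeasurable, lintegral_prod _ (by fun_prop),
    lint_scale hf.lintegral_prod_right' ha, mul_pow, ENNReal.ofReal_mul (by positivity), mul_assoc]
  congr 1
  rw [← lintegral_const_mul' _ _ ENNReal.ofReal_ne_top]
  exact lintegral_congr fun x => lint_scale (f := fun y => f (a • x, y)) (by fun_prop) hb

/-- One-sided Gaussian-type functional. -/
noncomputable def E1 (p h : Eu n → ℝ) (τ : ℝ) : ℝ≥0∞ :=
  ∫⁻ z : Eu n × Eu n, ENNReal.ofReal (Real.exp (-(p z.1 ^ 2 / 2 + h z.2 ^ 2 / 2) +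
    τ * ⟪z.1, z.2⟫)) ∂(volume.prod volume)

/-- One-sided Funk-type functional. -/
noncomputable def N1 (p h : Eu n → ℝ) (ρ : ℝ) : ℝ≥0∞ :=
  ∫⁻ u in {u | p u ≤ 1}, ∫⁻ w, ENNReal.ofReal (Real.exp (-h w)) *
    ENNReal.ofReal (Real.exp (ρ * ⟪u, w⟫))

/-- Intermediate functional. -/
noncomputable def K1 (p h : Eu n → ℝ) (ρ s : ℝ) : ℝ≥0∞ :=
  ∫⁻ z : Eu n × Eu n, {z : Eu n × Eu n | p z.1 ≤ s}.indicator
    (fun z => ENNReal.ofReal (Real.exp (-(h z.2 ^ 2 / 2) + ρ * ⟪z.1, z.2⟫))) z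
    ∂(volume.prod volume)

lemma meas_K {p h : Eu n → ℝ} (hp : Measurable p) (hh : Measurable h) (ρ : ℝ) :
    Measurable fun q : ℝ × Eu n × Eu n => {z : Eu n × Eu n | p z.1 ≤ q.1}.indicator
      (fun z => ENNReal.ofReal (Real.exp (-(h z.2 ^ 2 / 2) + ρ * ⟪z.1, z.2⟫))) q.2 :=
  Measurable.indicator (s := {q : ℝ × Eu n × Eu n | p q.2.1 ≤ q.1})
    (f := fun q => ENNReal.ofReal (Real.exp (-(h q.2.2 ^ 2 / 2) + ρ * ⟪q.2.1, q.2.2⟫)))
    (by fun_prop) (measurableSet_le (by fun_prop) measurable_fst)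

lemma N1_eq {p h : Eu n → ℝ} (hp : Hom p) (hh : Hom h) (ρ : ℝ) :
    ENNReal.ofReal (√(π / (1 / 2)) / 2) * N1 p h ρ =
      ∫⁻ s in Ioi (0 : ℝ), ENNReal.ofReal (Real.exp (-(s ^ 2 / 2))) * K1 p h ρ s := by
  have mp := hp.meas
  have mh := hh.meas
  have m1 : MeasurableSet {z : Eu n × Eu n | p z.1 ≤ 1} :=
    measurableSet_le (by fun_prop) measurable_const
  set G : Eu n × Eu n → ℝ → ℝ≥0∞ := fun z s => {z : Eu n × Eu n | p z.1 ≤ 1}.indicator
    (fun z => ENNReal.ofReal (Real.exp (ρ * ⟪z.1, z.2⟫))) z *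
      ENNReal.ofReal (Real.exp (-(s ^ 2 / 2 + (h z.2 / s) ^ 2 / 2))) with hG
  have mI : Measurable ({z : Eu n × Eu n | p z.1 ≤ 1}.indicator
    (fun z => ENNReal.ofReal (Real.exp (ρ * ⟪z.1, z.2⟫)))) := Measurable.indicator (by fun_prop) m1
  have mG : Measurable (uncurry G) := (mI.comp measurable_fst).mul (by fun_prop)
  have e1 : ENNReal.ofReal (√(π / (1 / 2)) / 2) * N1 p h ρ =
      ∫⁻ z, ∫⁻ s in Ioi (0 : ℝ), G z s ∂volume ∂(volume.prod volume) := by
    rw [lintegral_prod _ mG.lintegral_prod_right.aemeasurable, N1,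
      ← lintegral_indicator (measurableSet_le mp measurable_const),
      ← lintegral_const_mul' _ _ ENNReal.ofReal_ne_top]
    refine lintegral_congr fun u => ?_
    by_cases hu : p u ≤ 1
    · rw [indicator_of_mem (show u ∈ {u | p u ≤ 1} from hu),
        ← lintegral_const_mul' _ _ ENNReal.ofReal_ne_top]
      refine lintegral_congr fun w => ?_
      simp only [hG]
      rw [lintegral_const_mul _ (by fun_prop), cauchy_sch (hh.nonneg w),
        indicator_of_mem (show (u, w) ∈ {z : Eu n × Eu n | p z.1 ≤ 1} from hu)]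
      ring
    · simp [hG, hu]
  rw [e1, lintegral_lintegral_swap mG.aemeasurable]
  refine setLIntegral_congr_fun measurableSet_Ioi fun s (hs : 0 < s) => ?_
  simp only [K1]
  rw [scale2 (f := fun z => G z s) (mG.comp (measurable_id.prodMk measurable_const))
    (inv_pos.2 hs) hs, inv_mul_cancel₀ hs.ne', one_pow, ENNReal.ofReal_one, one_mul,
    ← lintegral_const_mul' _ _ ENNReal.ofReal_ne_top]
  refine lintegral_congr fun z => ?_
  have e2 : p (s⁻¹ • z.1) ≤ 1 ↔ p z.1 ≤ s := by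
    rw [hp.smul _ _ (inv_pos.2 hs), inv_mul_le_iff₀ hs, mul_one]
  by_cases hz : p z.1 ≤ s
  · simp only [hG]
    rw [indicator_of_mem (show (s⁻¹ • z.1, s • z.2) ∈ {z : Eu n × Eu n | p z.1 ≤ 1} from e2.2 hz),
      indicator_of_mem (show z ∈ {z : Eu n × Eu n | p z.1 ≤ s} from hz),
      ← ENNReal.ofReal_mul (Real.exp_pos _).le, ← ENNReal.ofReal_mul (Real.exp_pos _).le,
      ← Real.exp_add, ← Real.exp_add, real_inner_smul_left, real_inner_smul_right, hh.smul _ _ hs]
    congr 2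
    field_simp
    ring
  · simp [hG, e2, hz]

lemma exp3 {b : ℝ} (hb : 0 < b) (s : ℝ) (hs : 0 ≤ s) : ENNReal.ofReal (Real.exp (-(b * s ^ 2 / 2))) =
    ∫⁻ t in Ioi s, ENNReal.ofReal (b * t * Real.exp (-(b * t ^ 2 / 2))) := by
  have hd : ∀ x ∈ Ici s, HasDerivAt (fun t : ℝ => -Real.exp (-(b * t ^ 2 / 2)))
      (b * x * Real.exp (-(b * x ^ 2 / 2))) x := fun x _ => by
    refine ((((hasDerivAt_pow 2 x).const_mul b).div_const 2).neg.exp).neg.congr_deriv ?_
    simp
    ring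
  have hp : ∀ x ∈ Ioi s, 0 ≤ b * x * Real.exp (-(b * x ^ 2 / 2)) := fun x hx =>
    mul_nonneg (mul_nonneg hb.le (hs.trans (le_of_lt hx))) (Real.exp_pos _).le
  have hl : Tendsto (fun t : ℝ => -Real.exp (-(b * t ^ 2 / 2))) atTop (𝓝 (-0)) :=
    (Real.tendsto_exp_neg_atTop_nhds_zero.comp
      (((tendsto_pow_atTop two_ne_zero).const_mul_atTop hb).atTop_div_const two_pos)).neg
  rw [← ofReal_integral_eq_lintegral_ofReal (integrableOn_Ioi_deriv_of_nonneg' hd hp hl)
    ((ae_restrict_iff' measurableSet_Ioi).2 (Eventually.of_forall hp)),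
    integral_Ioi_of_hasDerivAt_of_nonneg' hd hp hl]
  simp

lemma E1_eq {p h : Eu n → ℝ} (hp : Hom p) (hh : Hom h) (ρ : ℝ) {b : ℝ} (hb : 0 < b) :
    ENNReal.ofReal ((√b)⁻¹ ^ n) * E1 p h (ρ * (√b)⁻¹) =
      ∫⁻ s in Ioi (0 : ℝ), ENNReal.ofReal (b * s * Real.exp (-(b * s ^ 2 / 2))) * K1 p h ρ s := by
  have mp := hp.meas
  have mh := hh.meas
  have hc : 0 < (√b)⁻¹ := by positivity
  have e1 := scale2 (n := n) (f := fun z => ENNReal.ofReal (Real.exp (-(b * p z.1 ^ 2 / 2))) *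
    ENNReal.ofReal (Real.exp (-(h z.2 ^ 2 / 2) + ρ * ⟪z.1, z.2⟫))) (by fun_prop) hc one_pos
  have e2 : ENNReal.ofReal ((√b)⁻¹ ^ n) * E1 p h (ρ * (√b)⁻¹) = ∫⁻ z : Eu n × Eu n,
      ENNReal.ofReal (Real.exp (-(b * p z.1 ^ 2 / 2))) *
      ENNReal.ofReal (Real.exp (-(h z.2 ^ 2 / 2) + ρ * ⟪z.1, z.2⟫)) ∂(volume.prod volume) := by
    rw [e1, mul_one, E1]
    congr 1
    refine lintegral_congr fun z => ?_
    simp only [one_smul]
    rw [← ENNReal.ofReal_mul (Real.exp_pos _).le, ← Real.exp_add, hp.smul _ _ hc,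
      real_inner_smul_left, mul_pow, inv_pow, Real.sq_sqrt hb.le]
    congr 2
    field_simp
    ring
  have mK := meas_K mp mh ρ
  simp only [K1]
  simp_rw [← lintegral_const_mul' _ _ ENNReal.ofReal_ne_top]
  rw [lintegral_lintegral_swap (Measurable.aemeasurable (Measurable.mul (f := fun q : ℝ × Eu n × Eu n
    => ENNReal.ofReal (b * q.1 * Real.exp (-(b * q.1 ^ 2 / 2)))) (by fun_prop) mK))]
  refine e2.trans (lintegral_congr fun z => ?_)
  rw [exp3 hb _ (hp.nonneg _), ← lintegral_mul_const _ (by fun_prop),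
    ← lintegral_indicator measurableSet_Ioi, ← lintegral_indicator measurableSet_Ioi]
  refine lintegral_congr_ae ?_
  filter_upwards [Measure.ae_ne volume (p z.1)] with t ht
  rcases lt_or_gt_of_ne ht with h | h
  · simp [indicator, h.not_gt, h.not_ge]
  · simp [indicator, h, h.le, (hp.nonneg _).trans_lt h]

/-- The Funk-type functional is a mixture of Gaussian-type functionals. -/
theorem mix1 {p h : Eu n → ℝ} (hp : Hom p) (hh : Hom h) (ρ : ℝ) :
    ENNReal.ofReal (√(π / (1 / 2)) / 2) * (ENNReal.ofReal (√(π / (1 / 2)) / 2) * N1 p h ρ) =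
      ∫⁻ v in Ioi (0 : ℝ), ENNReal.ofReal (1 + v ^ 2)⁻¹ *
        (ENNReal.ofReal ((√(1 + v ^ 2))⁻¹ ^ n) * E1 p h (ρ * (√(1 + v ^ 2))⁻¹)) := by
  have mK : Measurable (K1 p h ρ) := (meas_K hp.meas hh.meas ρ).lintegral_prod_right'
  have e : ∀ v : ℝ, 0 < 1 + v ^ 2 := fun v => by positivity
  simp_rw [E1_eq hp hh ρ (e _), N1_eq hp hh, ← lintegral_const_mul' _ _ ENNReal.ofReal_ne_top]
  rw [lintegral_lintegral_swap (by fun_prop)]
  refine setLIntegral_congr_fun measurableSet_Ioi fun s (hs : 0 < s) => ?_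
  have e1 : ∀ v : ℝ, ENNReal.ofReal (1 + v ^ 2)⁻¹ * (ENNReal.ofReal ((1 + v ^ 2) * s *
      Real.exp (-((1 + v ^ 2) * s ^ 2 / 2))) * K1 p h ρ s) =
      ENNReal.ofReal (Real.exp (-(s ^ 2 / 2) * v ^ 2)) * (ENNReal.ofReal s *
        (ENNReal.ofReal (Real.exp (-(s ^ 2 / 2))) * K1 p h ρ s)) := fun v => by
    rw [← mul_assoc, ← mul_assoc, ← mul_assoc, ← ENNReal.ofReal_mul (inv_pos.2 (e v)).le,
      ← ENNReal.ofReal_mul (Real.exp_pos _).le, ← ENNReal.ofReal_mul (by positivity),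
      show -((1 + v ^ 2) * s ^ 2 / 2) = -(s ^ 2 / 2) * v ^ 2 + -(s ^ 2 / 2) by ring, Real.exp_add]
    congr 2
    field_simp [(e v).ne']
  simp only [e1]
  rw [lintegral_mul_const _ (by fun_prop), half_gauss (by positivity), ← mul_assoc, ← mul_assoc,
    ← mul_assoc, ← ENNReal.ofReal_mul (q := s) (by positivity),
    show π / (1 / 2) = π / (s ^ 2 / 2) * s ^ 2 by field_simp,
    Real.sqrt_mul' _ (sq_nonneg s), Real.sqrt_sq hs.le, mul_div_right_comm]

theorem N1_le {p h p' h' : Eu n → ℝ} (hp : Hom p) (hh : Hom h) (hp' : Hom p') (hh' : Hom h')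
    {ρ : ℝ} (h0 : 0 ≤ ρ) (H : ∀ τ, 0 ≤ τ → τ ≤ ρ → E1 p h τ ≤ E1 p' h' τ) :
    N1 p h ρ ≤ N1 p' h' ρ := by
  have hpi := Real.pi_pos
  have c0 : ENNReal.ofReal (√(π / (1 / 2)) / 2) ≠ 0 := by
    rw [Ne, ENNReal.ofReal_eq_zero, not_le]
    positivity
  refine (ENNReal.mul_le_mul_iff_right c0 ENNReal.ofReal_ne_top).1
    ((ENNReal.mul_le_mul_iff_right c0 ENNReal.ofReal_ne_top).1 ?_)
  rw [mix1 hp hh, mix1 hp' hh']
  refine lintegral_mono fun v => mul_le_mul_right (mul_le_mul_right (H _ (by positivity) ?_) _) _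
  exact mul_le_of_le_one_right h0 (inv_le_one_of_one_le₀
    (Real.one_le_sqrt.2 (le_add_of_nonneg_right (sq_nonneg v))))

end Pool.Agent.MP_19b6be_gt

end MrgPart2

-- ======== part 3: formerly Pool.Agent.MP_19b6be_gt.Santalo
section MrgPart3

set_option autoImplicit false
set_option linter.unusedSectionVars false

open scoped RealInnerProductSpace Real Topology Nat ENNReal
open MeasureTheory Module Filter Metric Function Set

namespace Pool.Agent.MP_19b6be_gt

variable {n : ℕ}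

lemma int_hom {p : Eu n → ℝ} (hp : Hom p) (hv : volume {x | p x ≤ 1} ≠ ∞) :
    Integrable fun x => Real.exp (-(p x ^ 2 / 2)) := by
  have mp := hp.meas
  have h := layer hp.meas hp.nonneg hp.smul (F := fun _ => 1) measurable_const (d := 0)
    (fun t x ht => by simp) (ω := fun t => ENNReal.ofReal (t * Real.exp (-(t ^ 2 / 2))))
    (g := fun s => ENNReal.ofReal (Real.exp (-(s ^ 2 / 2)))) (by fun_prop) exp2
  simp only [mul_one, add_zero, setLIntegral_one, mom2] at h
  refine (lintegral_ofReal_ne_top_iff_integrable (by fun_prop)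
    (Eventually.of_forall fun _ => (Real.exp_pos _).le)).1 ?_
  rw [h]
  exact ENNReal.mul_ne_top ENNReal.ofReal_ne_top hv

lemma E1_upper {p h : Eu n → ℝ} (hp : Hom p) (hh : Hom h) (cp : Continuous p) (ch : Continuous h)
    (hph : ∀ x y, ⟪x, y⟫ ≤ p x * h y) (vp : volume {x | p x ≤ 1} ≠ ∞)
    (vh : volume {x | h x ≤ 1} ≠ ∞) {τ : ℝ} (h0 : 0 ≤ τ) (h1 : τ < 1) :
    E1 p h τ ≤ ENNReal.ofReal ((2 * π / √(1 - τ ^ 2)) ^ n *
      ((∫ x, Real.exp (-(p x ^ 2 / 2))) * (∫ x, Real.exp (-(h x ^ 2 / 2))) / (2 * π) ^ n) ^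
        (1 / (1 + τ))) := by
  have a0 : 0 < 1 - τ ^ 2 := by nlinarith
  have a1 : 0 < √(1 - τ ^ 2) := Real.sqrt_pos.2 a0
  have key := interp (P := fun x => p x ^ 2 / 2) (Q := fun y => h y ^ 2 / 2) (by fun_prop)
    (by fun_prop) (fun x y => (hph x y).trans (by nlinarith [sq_nonneg (p x - h y)]))
    (int_hom hp vp) (int_hom hh vh) h0 h1
  rw [E1, scale2 (by fun_prop) (inv_pos.2 a1) (inv_pos.2 a1)]
  refine (mul_le_mul_right (le_of_eq_of_le (lintegral_congr fun z => ?_) key) _).trans_eq ?_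
  · simp only
    rw [hp.smul _ _ (inv_pos.2 a1), hh.smul _ _ (inv_pos.2 a1), real_inner_smul_left,
      real_inner_smul_right, mul_pow, mul_pow, ← mul_assoc (√(1 - τ ^ 2))⁻¹, ← sq, inv_pow,
      Real.sq_sqrt a0.le]
    congr 2
    ring
  · rw [← ENNReal.ofReal_mul (by positivity), ← mul_assoc, ← mul_pow]
    congr 3
    field_simp

lemma E1_lower {p h : Eu n → ℝ} (hp : Hom p) (hh : Measurable h)
    (hc : ∀ y : Eu n, ∫⁻ x in {x | p x ≤ 1}, ENNReal.ofReal ⟪x, y⟫ =
      ∫⁻ x in {x | p x ≤ 1}, ENNReal.ofReal (-⟪x, y⟫)) {τ : ℝ} (h0 : 0 ≤ τ) :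
    (∫⁻ x, ENNReal.ofReal (Real.exp (-(p x ^ 2 / 2)))) *
      (∫⁻ x, ENNReal.ofReal (Real.exp (-(h x ^ 2 / 2)))) ≤ E1 p h τ := by
  have mp := hp.meas
  set w : Eu n × Eu n → ℝ≥0∞ := fun z => ENNReal.ofReal (Real.exp (-(p z.1 ^ 2 / 2))) *
    ENNReal.ofReal (Real.exp (-(h z.2 ^ 2 / 2))) with hw
  have mw : Measurable w := by fun_prop
  have e0 : E1 p h τ = ∫⁻ z, w z * ENNReal.ofReal (Real.exp (τ * ⟪z.1, z.2⟫))
      ∂(volume.prod volume) := lintegral_congr fun z => by
    simp only [hw]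
    rw [← ENNReal.ofReal_mul (Real.exp_pos _).le, ← ENNReal.ofReal_mul (by positivity),
      ← Real.exp_add, ← Real.exp_add, neg_add]
  have e1 : ∀ (ε : ℝ) (y : Eu n), ∫⁻ x, ENNReal.ofReal (Real.exp (-(p x ^ 2 / 2))) *
      ENNReal.ofReal (ε * ⟪x, y⟫) = ENNReal.ofReal (ray (n + 1)) *
        ∫⁻ x in {x | p x ≤ 1}, ENNReal.ofReal (ε * ⟪x, y⟫) := fun ε y => by
    rw [← mom2]
    refine layer hp.meas hp.nonneg hp.smul (by fun_prop) (fun t x ht => ?_)
      (ω := fun t => ENNReal.ofReal (t * Real.exp (-(t ^ 2 / 2))))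
      (g := fun s => ENNReal.ofReal (Real.exp (-(s ^ 2 / 2)))) (by fun_prop) exp2
    rw [real_inner_smul_left, pow_one, ← ENNReal.ofReal_mul ht.le, mul_left_comm]
  have e2 : ∫⁻ z, w z * ENNReal.ofReal (τ * ⟪z.1, z.2⟫) ∂(volume.prod volume) =
      ∫⁻ z, w z * ENNReal.ofReal (-τ * ⟪z.1, z.2⟫) ∂(volume.prod volume) := by
    rw [lintegral_prod_symm _ (by fun_prop), lintegral_prod_symm _ (by fun_prop)]
    refine lintegral_congr fun y => ?_
    simp only [hw, mul_right_comm _ (ENNReal.ofReal (Real.exp (-(h y ^ 2 / 2))))]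
    rw [lintegral_mul_const _ (by fun_prop), lintegral_mul_const _ (by fun_prop), e1, e1]
    simp only [neg_mul, ← mul_neg, ENNReal.ofReal_mul h0]
    rw [lintegral_const_mul _ (by fun_prop), lintegral_const_mul _ (by fun_prop), hc]
  by_cases hE : E1 p h τ = ∞
  · rw [hE]; exact le_top
  have e3 : ∫⁻ z, w z * ENNReal.ofReal (τ * ⟪z.1, z.2⟫) ∂(volume.prod volume) ≠ ∞ := by
    refine ne_top_of_le_ne_top hE (e0 ▸ lintegral_mono fun z => mul_le_mul_right
      (ENNReal.ofReal_le_ofReal ?_) _)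
    linarith [Real.add_one_le_exp (τ * ⟪z.1, z.2⟫)]
  rw [← lintegral_prod_mul (by fun_prop) (by fun_prop), ← ENNReal.add_le_add_iff_right e3]
  nth_rewrite 2 [e2]
  rw [e0, ← lintegral_add_left (by fun_prop), ← lintegral_add_left (by fun_prop)]
  refine lintegral_mono fun z => ?_
  show w z + _ ≤ _
  rw [← mul_one_add, ← mul_add]
  refine mul_le_mul_right ?_ _
  have a := Real.add_one_le_exp (τ * ⟪z.1, z.2⟫)
  rcases le_total 0 (τ * ⟪z.1, z.2⟫) with b | b
  · rw [← ENNReal.ofReal_one, ← ENNReal.ofReal_add zero_le_one b]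
    exact le_add_right (ENNReal.ofReal_le_ofReal (by linarith))
  · rw [ENNReal.ofReal_of_nonpos b, add_zero,
      ← ENNReal.ofReal_add (Real.exp_pos _).le (by linarith)]
    exact ENNReal.one_le_ofReal.2 (by linarith)

lemma num_le_one {m : ℝ} (H : ∀ τ : ℝ, 0 < τ → τ < 1 →
    m ≤ (1 / √(1 - τ ^ 2)) ^ n * m ^ (1 / (1 + τ))) : m ≤ 1 := by
  by_contra hm
  rw [not_le] at hm
  have m0 : 0 < m := by linarith
  have hL := Real.log_pos hm
  set L := Real.log m with hLd
  have n0 : (0 : ℝ) ≤ n := Nat.cast_nonneg n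
  set τ := L / (L + n + 1) with hτ
  have t0 : 0 < τ := by positivity
  have t1 : τ < 1 := (div_lt_one (by positivity)).2 (by linarith)
  have a0 : 0 < 1 - τ ^ 2 := by nlinarith
  have h1 := Real.log_le_log m0 (H τ t0 t1)
  rw [Real.log_mul (by positivity) (by positivity), Real.log_pow, Real.log_rpow m0, one_div,
    Real.log_inv, Real.log_sqrt a0.le, ← hLd] at h1
  have h2 := Real.one_sub_inv_le_log_of_pos a0
  have h3 : 1 - (1 - τ ^ 2)⁻¹ = -(τ / (1 + τ) * (L / (n + 1))) := by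
    have : 1 - τ = (n + 1) / (L + n + 1) := by rw [hτ]; field_simp; ring
    rw [show L / (n + 1) = τ / (1 - τ) by rw [this, hτ]; field_simp,
      show 1 - τ ^ 2 = (1 - τ) * (1 + τ) by ring]
    have := (sub_pos.2 t1).ne'
    field_simp
    ring
  have h4 : L - 1 / (1 + τ) * L = τ / (1 + τ) * L := by field_simp; ring
  have h5 : n * (L / (n + 1)) < L := by
    rw [← mul_div_assoc, div_lt_iff₀ (by positivity)]
    nlinarith
  have h6 : 0 < τ / (1 + τ) := by positivity
  have h7 : 0 ≤ n * (L / (n + 1)) := by positivity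
  nlinarith [mul_lt_mul_of_pos_left h5 h6, mul_le_mul_of_nonneg_left h2 n0, mul_nonneg h6.le h7]

theorem E1_le {p h : Eu n → ℝ} (hp : Hom p) (hh : Hom h) (cp : Continuous p) (ch : Continuous h)
    (hph : ∀ x y, ⟪x, y⟫ ≤ p x * h y) (vp : volume {x | p x ≤ 1} ≠ ∞)
    (vh : volume {x | h x ≤ 1} ≠ ∞)
    (hc : ∀ y : Eu n, ∫⁻ x in {x | p x ≤ 1}, ENNReal.ofReal ⟪x, y⟫ =
      ∫⁻ x in {x | p x ≤ 1}, ENNReal.ofReal (-⟪x, y⟫)) {τ : ℝ} (h0 : 0 ≤ τ) (h1 : τ < 1) :
    E1 p h τ ≤ E1 (n := n) (fun x => ‖x‖) (fun x => ‖x‖) τ := by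
  have hpi := Real.pi_pos
  have up := fun σ : ℝ => E1_upper hp hh cp ch hph vp vh (τ := σ)
  have z1 : 0 ≤ ∫ x, Real.exp (-(p x ^ 2 / 2)) := integral_nonneg fun _ => by positivity
  have z2 : 0 ≤ ∫ x, Real.exp (-(h x ^ 2 / 2)) := integral_nonneg fun _ => by positivity
  have hm : (∫ x, Real.exp (-(p x ^ 2 / 2))) * (∫ x, Real.exp (-(h x ^ 2 / 2))) / (2 * π) ^ n ≤ 1 := by
    refine num_le_one (n := n) fun σ s0 s1 => ?_
    have := (E1_lower hp hh.meas hc s0.le).trans (up σ s0.le s1)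
    rw [← ofReal_integral_eq_lintegral_ofReal (int_hom hp vp)
      (Eventually.of_forall fun _ => (Real.exp_pos _).le), ← ofReal_integral_eq_lintegral_ofReal
      (int_hom hh vh) (Eventually.of_forall fun _ => (Real.exp_pos _).le), ← ENNReal.ofReal_mul z1,
      ENNReal.ofReal_le_ofReal_iff (by positivity)] at this
    rw [div_le_iff₀ (by positivity)]
    refine this.trans_eq ?_
    rw [div_eq_mul_one_div (2 * π), mul_pow]
    ring
  refine (up τ h0 h1).trans ((ENNReal.ofReal_le_ofReal ?_).trans_eq (gauss2 (by nlinarith)).symm)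
  exact mul_le_of_le_one_right (by positivity)
    (Real.rpow_le_one (by positivity) hm (by positivity))

lemma centroid_mem {K : Set (Eu n)} (hK : IsCompact K) (hc : Convex ℝ K)
    (hi : (interior K).Nonempty) : (⨍ x in K, x) ∈ interior K := by
  obtain ⟨z, hz⟩ := hi
  obtain ⟨δ, d0, hd⟩ := nhds_basis_closedBall.mem_iff.1 (isOpen_interior.mem_nhds hz)
  have := Fact.mk hK.measure_lt_top (p := volume K < ∞)
  have hI : IntegrableOn (fun x : Eu n => x) K := continuousOn_id.integrableOn_compact hK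
  have h0 : volume.restrict K (closedBall z δ) ≠ 0 := by
    rw [Measure.restrict_apply measurableSet_closedBall,
      inter_eq_left.2 (hd.trans interior_subset)]
    exact (measure_closedBall_pos _ _ d0).ne'
  exact hc.average_mem_interior_of_set h0 (ae_restrict_mem hK.measurableSet) hI
    (hd ((convex_closedBall z δ).set_average_mem isClosed_closedBall h0 (measure_ne_top _ _)
      (ae_restrict_mem measurableSet_closedBall) (Integrable.integrableOn hI)))

theorem funk_all {K : Set (Eu n)} (hK : IsCompact K) (hc : Convex ℝ K)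
    (hi : (interior K).Nonempty) {ρ : ℝ} (h0 : 0 < ρ) (h1 : ρ < 1)
    {q : Eu n} (hq : q ∈ closedBall (0 : Eu n) 1) :
    funk K ρ (⨍ x in K, x) ≤ funk (closedBall 0 1) ρ q := by
  have hi := centroid_mem hK hc hi
  have h2 := setAverage_sub_setAverage (μ := volume) hK.measure_lt_top.ne fun x : Eu n => x
  set c := ⨍ x in K, x with hcd
  obtain ⟨h, ch, cp, H⟩ := exists_dual hK hc hi
  set p := gauge {u | u + c ∈ K} with hp
  have hS : {x | p x ≤ 1} = (fun x => x + c) ⁻¹' K := by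
    ext x
    rw [mem_preimage, H.mem, add_sub_cancel_right, mem_ofPred_eq]
  have vp : volume {x | p x ≤ 1} ≠ ∞ := by
    rw [hS, measure_preimage_add_right]
    exact hK.measure_lt_top.ne
  have vh : volume {x | h x ≤ 1} ≠ ∞ := by
    obtain ⟨δ, d0, hd⟩ := nhds_basis_closedBall.mem_iff.1 (mem_interior_iff_mem_nhds.1 hi)
    refine ne_top_of_le_ne_top (measure_closedBall_lt_top (x := 0) (r := 1 / δ)).ne
      (measure_mono fun w (hw : h w ≤ 1) => ?_)
    rw [mem_closedBall_zero_iff, le_div_iff₀ d0]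
    by_cases w0 : w = 0
    · simp [w0]
    have hn := norm_pos_iff.2 w0
    have := (H.sup w 1).2 hw (c + (δ * ‖w‖⁻¹) • w) (hd (by
      simp [norm_smul, abs_of_pos d0, hn.ne']))
    rwa [add_sub_cancel_left, real_inner_smul_right, real_inner_self_eq_norm_sq, sq, mul_assoc,
      inv_mul_cancel_left₀ hn.ne', mul_comm] at this
  have hcen : ∀ y : Eu n, ∫⁻ x in {x | p x ≤ 1}, ENNReal.ofReal ⟪x, y⟫ =
      ∫⁻ x in {x | p x ≤ 1}, ENNReal.ofReal (-⟪x, y⟫) := fun y => by
    have a := fun f : Eu n → ℝ≥0∞ =>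
      (measurePreserving_add_right volume c).setLIntegral_comp_preimage_emb
        (measurableEmbedding_addRight c) (fun x => f (x - c)) K
    simp only [add_sub_cancel_right] at a
    have hI : IntegrableOn (fun x : Eu n => ⟪y, x - c⟫) K :=
      (by fun_prop : Continuous fun x : Eu n => ⟪y, x - c⟫).continuousOn.integrableOn_compact hK
    have b := integral_eq_lintegral_pos_part_sub_lintegral_neg_part hI
    rw [integral_inner ((by fun_prop : Continuous fun x : Eu n =>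
      x - c).continuousOn.integrableOn_compact hK), h2, inner_zero_right, eq_comm, sub_eq_zero,
      ENNReal.toReal_eq_toReal_iff' hI.lintegral_lt_top.ne hI.fun_neg.lintegral_lt_top.ne] at b
    simp only [hS, real_inner_comm y]
    rw [a fun x => ENNReal.ofReal ⟪y, x⟫, a fun x => ENNReal.ofReal (-⟪y, x⟫), b]
  refine (ENNReal.mul_le_mul_iff_right (a := ENNReal.ofReal (n !))
    (by simpa using Nat.factorial_ne_zero n) (by simp)).1 ?_
  rw [funk_eq H (interior_subset hi) h0 h1.le, funk_eq dual_ball hq h0 h1.le,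
    sym_cosh (A := {u : Eu n | ‖u‖ ≤ 1}) (measurableSet_le measurable_norm measurable_const)
      (fun u => by simp) (by fun_prop)]
  refine mul_le_mul_right ?_ _
  simp only [sub_self, smul_zero, inner_zero_right, add_zero]
  refine (N1_le H.hp H.hh hom_norm hom_norm h0.le fun τ t0 t1 =>
    E1_le H.hp H.hh cp ch H.inner_le vp vh hcen t0 (t1.trans_lt h1)).trans ?_
  rw [N1, sym_cosh (measurableSet_le measurable_norm measurable_const) (fun u => by simp)
    (by fun_prop)]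
  exact lintegral_mono fun u => tilt_ge measurable_norm norm_neg _ u ρ

end Pool.Agent.MP_19b6be_gt

end MrgPart3

-- marker of a merged file
example : 731051 + 874319 = 731051 + 874319 := rfl
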