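import Mathlib.Probability.Moments.ComplexMGF
import Mathlib.Analysis.SpecialFunctions.Integrals.Basic
import Mathlib.LinearAlgebra.QuadraticForm.Basic
import Pool.Agent.MP_19b6be_gt.Affine

/-! The equality case: only ellipsoids attain the bound. -/

set_option autoImplicit false
set_option linter.unusedSectionVars false

open scoped RealInnerProductSpace Real Topology Nat ENNReal FourierTransform
open MeasureTheory Module Filter Metric Function Set ProbabilityTheory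

namespace Pool.Agent.MP_19b6be_gt.Eqc

variable {n : ℕ}

/-- A dual pair of gauges of bounded bodies. -/
structure Nice (p h : Eu n → ℝ) (R : ℝ) : Prop where
  hp : Hom p
  hh : Hom h
  cp : Continuous p
  ch : Continuous h
  le : ∀ x y, ⟪x, y⟫ ≤ p x * h y
  bp : ∀ x, ‖x‖ ≤ R * p x
  bh : ∀ y, ‖y‖ ≤ R * h y
  pos : 0 < R

lemma vol_fin {p : Eu n → ℝ} {R : ℝ} (hR : 0 < R) (hb : ∀ x, ‖x‖ ≤ R * p x) :
    volume {x | p x ≤ 1} ≠ ∞ :=
  ne_top_of_le_ne_top (measure_closedBall_lt_top (x := 0) (r := R)).ne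
    (measure_mono fun w (hw : p w ≤ 1) => by
      rw [mem_closedBall_zero_iff]
      exact (hb w).trans (mul_le_of_le_one_right hR.le hw))

lemma sc_eq {p : Eu n → ℝ} (hp : Hom p) {a : ℝ} (ha : 0 < a) (x : Eu n) :
    Real.exp (-(p (√a • x) ^ 2 / 2)) = Real.exp (-(a * (p x ^ 2 / 2))) := by
  rw [hp.smul _ _ (Real.sqrt_pos.2 ha), mul_pow, Real.sq_sqrt ha.le, mul_div_assoc]

lemma int_a {p : Eu n → ℝ} (hp : Hom p) (hv : volume {x | p x ≤ 1} ≠ ∞) {a : ℝ} (ha : 0 < a) :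
    Integrable fun x => Real.exp (-(a * (p x ^ 2 / 2))) := by
  simpa only [sc_eq hp ha] using (int_hom hp hv).comp_smul (Real.sqrt_pos.2 ha).ne'

lemma sq_eq (u : ℝ) : Real.exp (-u) ^ 2 = Real.exp (-(2 * u)) := by
  rw [← Real.exp_nat_mul]
  congr 1
  push_cast
  ring

lemma int_sq {p : Eu n → ℝ} (hp : Hom p) :
    ∫ x, Real.exp (-(p x ^ 2 / 2)) ^ 2 = (√2 ^ n)⁻¹ * ∫ x, Real.exp (-(p x ^ 2 / 2)) := by
  have := Measure.integral_comp_smul volume (fun x => Real.exp (-(p x ^ 2 / 2))) (√2)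
  simp only [sc_eq hp two_pos, finrank_euclideanSpace_fin, smul_eq_mul] at this
  simp only [sq_eq]
  rw [this, abs_of_nonneg (by positivity)]

variable {p h : Eu n → ℝ} {R : ℝ}

lemma Nice.int2 (H : Nice p h R) {t : ℝ} (ht : t ∈ Ioo (-(R ^ 2)⁻¹) 1) :
    Integrable (fun w : Eu n × Eu n => Real.exp (-(p w.1 ^ 2 / 2 + h w.2 ^ 2 / 2)) *
      Real.exp (t * ⟪w.1, w.2⟫)) (volume.prod volume) := by
  have hR := H.pos
  have cp := H.cp
  have ch := H.ch
  obtain ⟨θ, h1, hθ⟩ : ∃ θ : ℝ, θ < 1 ∧ ∀ x y, t * ⟪x, y⟫ ≤ θ * (p x ^ 2 / 2 + h y ^ 2 / 2) := by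
    have am : ∀ x y, p x * h y ≤ p x ^ 2 / 2 + h y ^ 2 / 2 := fun x y => by
      nlinarith [sq_nonneg (p x - h y)]
    rcases le_total 0 t with t0 | t0
    · exact ⟨t, ht.2, fun x y => mul_le_mul_of_nonneg_left ((H.le x y).trans (am x y)) t0⟩
    · refine ⟨-t * R ^ 2, ?_, fun x y => ?_⟩
      · rw [← lt_div_iff₀ (by positivity), one_div]
        linarith [ht.1]
      · have a1 : -⟪x, y⟫ ≤ R ^ 2 * (p x ^ 2 / 2 + h y ^ 2 / 2) :=
          calc -⟪x, y⟫ ≤ ‖x‖ * ‖y‖ := (neg_le_abs _).trans (abs_real_inner_le_norm x y)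
            _ ≤ (R * p x) * (R * h y) :=
                mul_le_mul (H.bp x) (H.bh y) (norm_nonneg _) ((norm_nonneg _).trans (H.bp x))
            _ = R ^ 2 * (p x * h y) := by ring
            _ ≤ _ := mul_le_mul_of_nonneg_left (am x y) (by positivity)
        have := mul_le_mul_of_nonneg_left a1 (neg_nonneg.2 t0)
        linarith
  refine ((int_a H.hp (vol_fin hR H.bp) (sub_pos.2 h1)).mul_prod
    (int_a H.hh (vol_fin hR H.bh) (sub_pos.2 h1))).mono'
    (Continuous.aestronglyMeasurable (by fun_prop)) (Eventually.of_forall fun w => ?_)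
  rw [Real.norm_of_nonneg (by positivity), ← Real.exp_add, ← Real.exp_add]
  refine Real.exp_le_exp.2 ?_
  linarith [hθ w.1 w.2]

/-- The analytic continuation of the Gaussian-type functional. -/
noncomputable def Fc (p h : Eu n → ℝ) (z : ℂ) : ℂ :=
  ∫ w : Eu n × Eu n, (Real.exp (-(p w.1 ^ 2 / 2 + h w.2 ^ 2 / 2)) : ℂ) *
    Complex.exp (z * (⟪w.1, w.2⟫ : ℝ)) ∂(volume.prod volume)

lemma Nice.anal (H : Nice p h R) :
    AnalyticOnNhd ℂ (Fc p h) {z | z.re ∈ Ioo (-(R ^ 2)⁻¹) 1} := by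
  have cp := H.cp
  have ch := H.ch
  set μ : Measure (Eu n × Eu n) := (volume.prod volume).withDensity
    fun w => ENNReal.ofReal (Real.exp (-(p w.1 ^ 2 / 2 + h w.2 ^ 2 / 2))) with hμ
  have e : Fc p h = complexMGF (fun w : Eu n × Eu n => ⟪w.1, w.2⟫) μ := by
    funext z
    rw [complexMGF, hμ, integral_withDensity_eq_integral_toReal_smul (by fun_prop)
      (Eventually.of_forall fun _ => ENNReal.ofReal_lt_top), Fc]
    refine integral_congr_ae (Eventually.of_forall fun w => ?_)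
    simp only
    rw [ENNReal.toReal_ofReal (Real.exp_pos _).le, Complex.real_smul]
  rw [e]
  refine analyticOnNhd_complexMGF.mono fun z hz => ?_
  refine interior_maximal (s := integrableExpSet _ μ) (fun t ht => ?_) isOpen_Ioo hz
  show Integrable _ μ
  rw [hμ, integrable_withDensity_iff_integrable_smul' (by fun_prop)
    (Eventually.of_forall fun _ => ENNReal.ofReal_lt_top)]
  simpa only [ENNReal.toReal_ofReal (Real.exp_pos _).le, smul_eq_mul] using H.int2 ht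

lemma Nice.real_val (H : Nice p h R) {τ : ℝ} (h0 : 0 ≤ τ) (h1 : τ < 1)
    (he : E1 p h τ = E1 (n := n) (fun x => ‖x‖) (fun x => ‖x‖) τ) :
    Fc p h τ ^ 2 * (1 - (τ : ℂ) ^ 2) ^ n = ((2 * π : ℝ) : ℂ) ^ (2 * n) := by
  have hpi := Real.pi_pos
  have hR := H.pos
  have a0 : 0 < 1 - τ ^ 2 := by nlinarith
  have hi := H.int2 (t := τ) ⟨lt_of_lt_of_le (neg_lt_zero.2 (by positivity)) h0, h1⟩
  have e1 : E1 (n := n) (fun x => ‖x‖) (fun x => ‖x‖) τ = _ := gauss2 (by linarith)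
  rw [e1, E1] at he
  simp only [Real.exp_add _ (τ * _)] at he
  rw [← ofReal_integral_eq_lintegral_ofReal hi (Eventually.of_forall fun w => by positivity),
    ENNReal.ofReal_eq_ofReal_iff (integral_nonneg fun w => by positivity) (by positivity)] at he
  have e2 : Fc p h τ = (((2 * π / √(1 - τ ^ 2)) ^ n : ℝ) : ℂ) := by
    rw [← he, ← integral_complex_ofReal, Fc]
    refine integral_congr_ae (Eventually.of_forall fun w => ?_)
    simp
  have e3 : ((2 * π / √(1 - τ ^ 2)) ^ n) ^ 2 * (1 - τ ^ 2) ^ n = (2 * π) ^ (2 * n) := by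
    rw [← pow_mul, mul_comm n, pow_mul, div_pow, Real.sq_sqrt a0.le, ← mul_pow,
      div_mul_cancel₀ _ a0.ne', pow_mul]
  rw [e2]
  exact_mod_cast e3

lemma Nice.strip (H : Nice p h R) {τ : ℝ → ℝ} (lim : Tendsto τ atTop (𝓝 0))
    (hf : ∃ᶠ v in atTop, 0 < τ v ∧ τ v < 1 ∧
      E1 p h (τ v) = E1 (n := n) (fun x => ‖x‖) (fun x => ‖x‖) (τ v)) {z : ℂ} (hz : z.re = 0) :
    Fc p h z ^ 2 * (1 - z ^ 2) ^ n = ((2 * π : ℝ) : ℂ) ^ (2 * n) := by
  have hR := H.pos
  have m0 : (0 : ℝ) ∈ Ioo (-(R ^ 2)⁻¹) 1 := ⟨neg_lt_zero.2 (by positivity), one_pos⟩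
  have hU : IsPreconnected {z : ℂ | z.re ∈ Ioo (-(R ^ 2)⁻¹) 1} :=
    ((convex_Ioo _ _).linear_preimage Complex.reLm).isPreconnected
  refine AnalyticOnNhd.eqOn_of_preconnected_of_mem_closure (z₀ := 0)
    (f := fun z => Fc p h z ^ 2 * (1 - z ^ 2) ^ n) (g := fun _ => ((2 * π : ℝ) : ℂ) ^ (2 * n))
    ((H.anal.pow 2).mul fun z _ => by fun_prop) analyticOnNhd_const hU m0 ?_
    (show z.re ∈ _ from hz ▸ m0)
  refine mem_closure_of_frequently_of_tendsto (f := fun v => (τ v : ℂ))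
    (hf.mono fun v hv => ⟨H.real_val hv.1.le hv.2.1 hv.2.2, ?_⟩) ?_
  · simpa using hv.1.ne'
  · simpa [Function.comp_def] using (Complex.continuous_ofReal.tendsto 0).comp lim

/-- The cosine transform of the Gaussian-type weight. -/
noncomputable def ps (h : Eu n → ℝ) (x : Eu n) : ℝ :=
  ∫ y, Real.exp (-(h y ^ 2 / 2)) * Real.cos ⟪x, y⟫

/-- The Fourier transform of the Gaussian-type weight. -/
noncomputable def ph (h : Eu n → ℝ) (x : Eu n) : ℂ :=
  ∫ y, (Real.exp (-(h y ^ 2 / 2)) : ℂ) * Complex.exp (Complex.I * (⟪x, y⟫ : ℝ))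

lemma ph_facts (hh : Hom h) (hv : volume {x | h x ≤ 1} ≠ ∞) :
    Continuous (ph h) ∧ (∀ x, (ph h x).re = ps h x) ∧ Integrable (fun x => ‖ph h x‖ ^ 2) ∧
      ∫ x, ‖ph h x‖ ^ 2 = (2 * π) ^ n * ∫ y, Real.exp (-(h y ^ 2 / 2)) ^ 2 := by
  have hpi := Real.pi_pos
  have mh := hh.meas
  set U : Eu n → ℂ := fun y => (Real.exp (-(h y ^ 2 / 2)) : ℂ) with hU
  have nU : ∀ y, ‖U y‖ = Real.exp (-(h y ^ 2 / 2)) := fun y => by
    rw [hU, Complex.norm_real, Real.norm_of_nonneg (Real.exp_pos _).le]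
  have h1 : Integrable U := (int_hom hh hv).ofReal
  have h2 : MemLp U 2 := (memLp_two_iff_integrable_sq_norm h1.1).2 (by
    simpa only [nU, sq_eq] using int_a hh hv two_pos)
  have s0 : (-(2 * π)⁻¹ : ℝ) ≠ 0 := neg_ne_zero.2 (by positivity)
  have e : ∀ x, ph h x = (𝓕 U : Eu n → ℂ) ((-(2 * π)⁻¹ : ℝ) • x) := fun x => by
    rw [Real.fourier_eq', ph]
    refine integral_congr_ae (Eventually.of_forall fun y => ?_)
    have : -2 * π * ⟪y, (-(2 * π)⁻¹ : ℝ) • x⟫ = ⟪x, y⟫ := by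
      rw [inner_smul_right, real_inner_comm]; field_simp
    beta_reduce
    rw [this, smul_eq_mul, mul_comm Complex.I, mul_comm]
  have hc : Continuous (𝓕 U : Eu n → ℂ) :=
    VectorFourier.fourierIntegral_continuous Real.continuous_fourierChar
      (innerSL ℝ).continuous₂ h1
  obtain ⟨p1, p2⟩ := plancherel h1 h2
  refine ⟨?_, fun x => ?_, ?_, ?_⟩
  · rw [funext e]
    fun_prop
  · have hi : Integrable fun y => U y * Complex.exp (Complex.I * (⟪x, y⟫ : ℝ)) :=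
      h1.mul_bdd (c := 1) (Continuous.aestronglyMeasurable (by fun_prop))
        (Eventually.of_forall fun y => by rw [Complex.norm_exp_I_mul_ofReal])
    have := integral_re hi
    rw [ph, ps]
    refine this.symm.trans (integral_congr_ae (Eventually.of_forall fun y => ?_))
    show (_ * _ : ℂ).re = _
    rw [hU, Complex.re_ofReal_mul, mul_comm Complex.I, Complex.exp_ofReal_mul_I_re]
  · simpa only [e] using p1.comp_smul s0
  · simp only [e]
    rw [Measure.integral_comp_smul volume (fun ξ => ‖(𝓕 U : Eu n → ℂ) ξ‖ ^ 2), p2, abs_inv,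
      abs_pow, abs_neg, abs_inv, abs_of_pos (by positivity), inv_pow, inv_inv,
      finrank_euclideanSpace_fin, smul_eq_mul]
    simp only [nU]

lemma hom_zero (hp : Hom p) : p 0 = 0 := by
  have := hp.smul 2 0 two_pos
  rw [smul_zero] at this
  linarith

lemma Nice.cos_eq (H : Nice p h R)
    (hz : ∀ z : ℂ, z.re = 0 → Fc p h z ^ 2 * (1 - z ^ 2) ^ n = ((2 * π : ℝ) : ℂ) ^ (2 * n))
    (x : Eu n) : ps h x = (∫ y, Real.exp (-(h y ^ 2 / 2))) * Real.exp (-(p x ^ 2 / 2)) := by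
  have hpi := Real.pi_pos
  have hR := H.pos
  have cp := H.cp
  have ch := H.ch
  have vp := vol_fin hR H.bp
  have vh := vol_fin hR H.bh
  obtain ⟨c1, c2, c3, c4⟩ := ph_facts H.hh vh
  have ip := int_hom H.hp vp
  have ih := int_hom H.hh vh
  have ip2 : Integrable fun x => Real.exp (-(p x ^ 2 / 2)) ^ 2 := by
    simpa only [sq_eq] using int_a H.hp vp two_pos
  have sp := int_sq H.hp
  rw [int_sq H.hh] at c4
  have A0 : 0 < ∫ x, Real.exp (-(p x ^ 2 / 2)) := integral_exp_pos ip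
  have B0 : 0 < ∫ x, Real.exp (-(h x ^ 2 / 2)) := integral_exp_pos ih
  have cs : Continuous (ps h) := by
    rw [← funext c2]
    fun_prop
  have le2 : ∀ x, ps h x ^ 2 ≤ ‖ph h x‖ ^ 2 := fun x => by
    rw [← c2, ← sq_abs]
    exact pow_le_pow_left₀ (abs_nonneg _) (Complex.abs_re_le_norm _) 2
  have is2 : Integrable fun x => ps h x ^ 2 :=
    c3.mono' (Continuous.aestronglyMeasurable (by fun_prop)) (Eventually.of_forall fun x => by
      rw [Real.norm_of_nonneg (sq_nonneg _)]; exact le2 x)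
  have j2 := (integral_mono is2 c3 le2).trans_eq c4
  have w0 : ∀ w : Eu n × Eu n, Real.exp (-(p w.1 ^ 2 / 2 + h w.2 ^ 2 / 2)) =
      Real.exp (-(p w.1 ^ 2 / 2)) * Real.exp (-(h w.2 ^ 2 / 2)) := fun w => by
    rw [← Real.exp_add, neg_add]
  have e0 : Fc p h 0 = (((∫ x, Real.exp (-(p x ^ 2 / 2))) *
      ∫ x, Real.exp (-(h x ^ 2 / 2)) : ℝ) : ℂ) := by
    rw [← integral_prod_mul, ← integral_complex_ofReal, Fc]
    simp only [zero_mul, Complex.exp_zero, mul_one, w0]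
  have hw : Integrable (fun w : Eu n × Eu n => (Real.exp (-(p w.1 ^ 2 / 2 + h w.2 ^ 2 / 2)) : ℂ) *
      Complex.exp (Complex.I * (⟪w.1, w.2⟫ : ℝ))) (volume.prod volume) := by
    simp only [w0]
    exact (ip.mul_prod ih).ofReal.mul_bdd (c := 1)
      (Continuous.aestronglyMeasurable (by fun_prop))
      (Eventually.of_forall fun y => by rw [Complex.norm_exp_I_mul_ofReal])
  have e1 : ∀ x : Eu n, ∫ y, (Real.exp (-(p x ^ 2 / 2 + h y ^ 2 / 2)) : ℂ) *
      Complex.exp (Complex.I * (⟪x, y⟫ : ℝ)) = (Real.exp (-(p x ^ 2 / 2)) : ℂ) * ph h x :=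
    fun x => by
      rw [ph, ← integral_const_mul]
      refine integral_congr_ae (Eventually.of_forall fun y => ?_)
      have := w0 (x, y)
      simp only at this ⊢
      rw [this, Complex.ofReal_mul, mul_assoc]
  have i1 : Integrable fun x => (Real.exp (-(p x ^ 2 / 2)) : ℂ) * ph h x := by
    simpa only [e1] using hw.integral_prod_left
  have r1 : ∀ x, RCLike.re ((Real.exp (-(p x ^ 2 / 2)) : ℂ) * ph h x) =
      Real.exp (-(p x ^ 2 / 2)) * ps h x := fun x => by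
    show (_ * _ : ℂ).re = _
    rw [Complex.re_ofReal_mul, c2]
  have i2 : Integrable fun x => Real.exp (-(p x ^ 2 / 2)) * ps h x := by
    simpa only [r1] using i1.re
  have e2 : (Fc p h Complex.I).re = ∫ x, Real.exp (-(p x ^ 2 / 2)) * ps h x := by
    rw [Fc, integral_prod _ hw]
    simp only [e1]
    have := integral_re i1
    simp only [r1] at this
    exact this.symm
  set A := ∫ x, Real.exp (-(p x ^ 2 / 2)) with hA
  set B := ∫ x, Real.exp (-(h x ^ 2 / 2)) with hB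
  set a := ∫ x, Real.exp (-(p x ^ 2 / 2)) * ps h x with ha
  set s := (√2 ^ n)⁻¹ with hs
  have s0 : 0 < s := by positivity
  have s2 : s ^ 2 * 2 ^ n = 1 := by
    rw [hs, inv_pow, ← pow_mul, mul_comm n, pow_mul, Real.sq_sqrt zero_le_two,
      inv_mul_cancel₀ (by positivity)]
  have AB : A * B = (2 * π) ^ n := by
    have := hz 0 rfl
    rw [e0] at this
    have h2 : (A * B) ^ 2 = ((2 * π) ^ n) ^ 2 := by
      rw [← pow_mul, mul_comm n]
      simp only [ne_eq, OfNat.ofNat_ne_zero, not_false_eq_true, zero_pow, sub_zero, one_pow,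
        mul_one] at this
      exact_mod_cast this
    exact (pow_left_inj₀ (by positivity) (by positivity) two_ne_zero).1 h2
  have aa : a ^ 2 = (s * (A * B)) ^ 2 := by
    have h1 := hz Complex.I Complex.I_re
    rw [Complex.I_sq, sub_neg_eq_add, one_add_one_eq_two, mul_comm 2 n, pow_mul,
      ← Complex.ofReal_pow, ← AB] at h1
    have h2 : Fc p h Complex.I ^ 2 = (((s * (A * B)) ^ 2 : ℝ) : ℂ) := by
      have h3 : ((s : ℂ)) ^ 2 * 2 ^ n = 1 := by exact_mod_cast s2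
      push_cast at h1 ⊢
      linear_combination (s : ℂ) ^ 2 * h1 - Fc p h Complex.I ^ 2 * h3
    rw [Complex.ofReal_pow, sq_eq_sq_iff_eq_or_eq_neg] at h2
    rw [← e2]
    rcases h2 with h2 | h2 <;> rw [h2] <;> simp only [Complex.neg_re, Complex.ofReal_re, neg_sq]
  obtain ⟨c, hc⟩ : ∃ c : ℝ, c * (s * A) = a := ⟨a / (s * A), div_mul_cancel₀ _ (by positivity)⟩
  have cB : c ^ 2 = B ^ 2 := by
    rw [← hc] at aa
    have : (s * A) ^ 2 * c ^ 2 = (s * A) ^ 2 * B ^ 2 := by linear_combination aa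
    exact mul_left_cancel₀ (by positivity) this
  have ex : ∀ x, (ps h x - c * Real.exp (-(p x ^ 2 / 2))) ^ 2 = ps h x ^ 2 -
      2 * c * (Real.exp (-(p x ^ 2 / 2)) * ps h x) + c ^ 2 * Real.exp (-(p x ^ 2 / 2)) ^ 2 :=
    fun x => by ring
  have i3 : Integrable fun x => (ps h x - c * Real.exp (-(p x ^ 2 / 2))) ^ 2 := by
    simp only [ex]
    exact (is2.sub (i2.const_mul _)).add (ip2.const_mul _)
  have z0 : ∫ x, (ps h x - c * Real.exp (-(p x ^ 2 / 2))) ^ 2 = 0 := by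
    refine le_antisymm ?_ (integral_nonneg fun x => sq_nonneg _)
    simp only [ex]
    have i4 : Integrable fun x => ps h x ^ 2 - 2 * c * (Real.exp (-(p x ^ 2 / 2)) * ps h x) :=
      is2.sub (i2.const_mul _)
    rw [integral_add i4 (ip2.const_mul _),
      integral_sub is2 (i2.const_mul _), integral_const_mul, integral_const_mul, sp, ← ha, ← hc]
    rw [← AB] at j2
    have : c ^ 2 * (s * A) = B ^ 2 * (s * A) := by rw [cB]
    linarith
  have z2 : ∀ x, ps h x = c * Real.exp (-(p x ^ 2 / 2)) := fun x => by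
    have h1 := (integral_eq_zero_iff_of_nonneg (fun x => sq_nonneg _) i3).1 z0
    have h3 : Continuous fun x => ps h x - c * Real.exp (-(p x ^ 2 / 2)) := by fun_prop
    have h2 := (Continuous.ae_eq_iff_eq volume (h3.pow 2) continuous_const).1 h1
    exact sub_eq_zero.1 (pow_eq_zero_iff two_ne_zero |>.1 (congrFun h2 x))
  have z3 := z2 0
  rw [hom_zero H.hp, ps] at z3
  simp only [inner_zero_left, Real.cos_zero, mul_one, ne_eq, OfNat.ofNat_ne_zero,
    not_false_eq_true, zero_pow, zero_div, neg_zero, Real.exp_zero] at z3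
  rw [z2, ← z3]

lemma cos_le (u : ℝ) : Real.cos u ≤ 1 - u ^ 2 / 2 + u ^ 4 / 2 := by
  rcases le_total |u| 1 with h | h
  · have h1 := (abs_le.1 (Real.cos_bound h)).2
    have h2 : |u| ^ 4 = u ^ 4 := Even.pow_abs (by decide) u
    have h3 : 0 ≤ u ^ 4 := by positivity
    rw [h2] at h1
    linarith
  · have h1 : 1 ≤ u ^ 2 := by
      rw [← sq_abs]
      exact one_le_pow₀ h
    nlinarith [Real.cos_le_one u]

lemma Nice.int_pow (H : Nice p h R) (k : ℕ) :
    Integrable fun y => Real.exp (-(h y ^ 2 / 2)) * ‖y‖ ^ (2 * k) := by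
  have hR := H.pos
  have ch := H.ch
  refine ((int_a H.hh (vol_fin hR H.bh) one_half_pos).const_mul ((4 * R ^ 2) ^ k * k !)).mono'
    (Continuous.aestronglyMeasurable (by fun_prop)) (Eventually.of_forall fun y => ?_)
  rw [Real.norm_of_nonneg (by positivity)]
  have h1 : ‖y‖ ^ (2 * k) ≤ (4 * R ^ 2) ^ k * (h y ^ 2 / 4) ^ k := by
    rw [pow_mul, ← mul_pow]
    refine pow_le_pow_left₀ (by positivity) ?_ k
    exact (pow_le_pow_left₀ (norm_nonneg _) (H.bh y) 2).trans_eq (by ring)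
  have h2 := Real.pow_div_factorial_le_exp (h y ^ 2 / 4) (by positivity) k
  rw [div_le_iff₀ (by positivity)] at h2
  calc _ ≤ Real.exp (-(h y ^ 2 / 2)) * ((4 * R ^ 2) ^ k * (Real.exp (h y ^ 2 / 4) * k !)) :=
        mul_le_mul_of_nonneg_left (h1.trans (mul_le_mul_of_nonneg_left h2 (by positivity)))
          (Real.exp_pos _).le
    _ = (4 * R ^ 2) ^ k * k ! * (Real.exp (-(h y ^ 2 / 2)) * Real.exp (h y ^ 2 / 4)) := by ring
    _ = _ := by
        rw [← Real.exp_add]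
        congr 2
        ring

lemma Nice.int_in (H : Nice p h R) (k : ℕ) (x : Eu n) :
    Integrable fun y => Real.exp (-(h y ^ 2 / 2)) * ⟪x, y⟫ ^ (2 * k) := by
  have ch := H.ch
  refine ((H.int_pow k).const_mul (‖x‖ ^ (2 * k))).mono'
    (Continuous.aestronglyMeasurable (by fun_prop)) (Eventually.of_forall fun y => ?_)
  rw [norm_mul, Real.norm_of_nonneg (Real.exp_pos _).le, norm_pow, mul_left_comm, ← mul_pow]
  exact mul_le_mul_of_nonneg_left (pow_le_pow_left₀ (norm_nonneg _) (norm_inner_le_norm x y) _)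
    (Real.exp_pos _).le

lemma le_of_small {a b c : ℝ} (H : ∀ t : ℝ, 0 < t → a ≤ b + t ^ 2 * c) : a ≤ b := by
  have lim : Tendsto (fun t : ℝ => b + t ^ 2 * c) (𝓝[>] 0) (𝓝 (b + 0 ^ 2 * c)) :=
    (by fun_prop : Continuous fun t : ℝ => b + t ^ 2 * c).continuousAt.tendsto.mono_left
      nhdsWithin_le_nhds
  simpa using ge_of_tendsto lim (eventually_nhdsWithin_of_forall H)

lemma Nice.quad (H : Nice p h R)
    (hc : ∀ x, ps h x = (∫ y, Real.exp (-(h y ^ 2 / 2))) * Real.exp (-(p x ^ 2 / 2)))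
    (x : Eu n) : (∫ y, Real.exp (-(h y ^ 2 / 2))) * p x ^ 2 =
      ∫ y, Real.exp (-(h y ^ 2 / 2)) * ⟪x, y⟫ ^ 2 := by
  have ch := H.ch
  have ih := int_hom H.hh (vol_fin H.pos H.bh)
  have B0 : 0 < ∫ x, Real.exp (-(h x ^ 2 / 2)) := integral_exp_pos ih
  have i2 : Integrable fun y => Real.exp (-(h y ^ 2 / 2)) * ⟪x, y⟫ ^ 2 := H.int_in 1 x
  have i4 : Integrable fun y => Real.exp (-(h y ^ 2 / 2)) * ⟪x, y⟫ ^ 4 := H.int_in 2 x
  have ic : ∀ t : ℝ, Integrable fun y => Real.exp (-(h y ^ 2 / 2)) * Real.cos (t * ⟪x, y⟫) :=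
    fun t => ih.mul_bdd (c := 1) (Continuous.aestronglyMeasurable (by fun_prop))
      (Eventually.of_forall fun y => Real.abs_cos_le_one _)
  have e : ∀ t : ℝ, 0 < t → ∫ y, Real.exp (-(h y ^ 2 / 2)) * Real.cos (t * ⟪x, y⟫) =
      (∫ y, Real.exp (-(h y ^ 2 / 2))) * Real.exp (-(t ^ 2 * p x ^ 2 / 2)) := fun t ht => by
    have := hc (t • x)
    rw [ps, H.hp.smul _ _ ht, mul_pow] at this
    simpa only [real_inner_smul_left] using this
  have lo : ∀ t : ℝ, (∫ y, Real.exp (-(h y ^ 2 / 2))) -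
      t ^ 2 / 2 * ∫ y, Real.exp (-(h y ^ 2 / 2)) * ⟪x, y⟫ ^ 2 ≤
      ∫ y, Real.exp (-(h y ^ 2 / 2)) * Real.cos (t * ⟪x, y⟫) := fun t => by
    rw [← integral_const_mul, ← integral_sub ih (i2.const_mul _)]
    refine integral_mono (ih.sub (i2.const_mul _)) (ic t) fun y => ?_
    have := mul_le_mul_of_nonneg_left (Real.one_sub_sq_div_two_le_cos (x := t * ⟪x, y⟫))
      (Real.exp_pos (-(h y ^ 2 / 2))).le
    simp only
    linarith
  have up : ∀ t : ℝ, ∫ y, Real.exp (-(h y ^ 2 / 2)) * Real.cos (t * ⟪x, y⟫) ≤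
      (∫ y, Real.exp (-(h y ^ 2 / 2))) -
      t ^ 2 / 2 * (∫ y, Real.exp (-(h y ^ 2 / 2)) * ⟪x, y⟫ ^ 2) +
      t ^ 4 / 2 * ∫ y, Real.exp (-(h y ^ 2 / 2)) * ⟪x, y⟫ ^ 4 := fun t => by
    have i5 : Integrable fun y => Real.exp (-(h y ^ 2 / 2)) -
        t ^ 2 / 2 * (Real.exp (-(h y ^ 2 / 2)) * ⟪x, y⟫ ^ 2) := ih.sub (i2.const_mul _)
    rw [← integral_const_mul, ← integral_const_mul, ← integral_sub ih (i2.const_mul _),
      ← integral_add i5 (i4.const_mul _)]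
    refine integral_mono (ic t) (i5.add (i4.const_mul _)) fun y => ?_
    have := mul_le_mul_of_nonneg_left (cos_le (t * ⟪x, y⟫)) (Real.exp_pos (-(h y ^ 2 / 2))).le
    simp only
    linarith
  set B := ∫ x, Real.exp (-(h x ^ 2 / 2))
  set Q := ∫ y, Real.exp (-(h y ^ 2 / 2)) * ⟪x, y⟫ ^ 2
  set T := ∫ y, Real.exp (-(h y ^ 2 / 2)) * ⟪x, y⟫ ^ 4
  refine le_antisymm (le_of_small (c := B * (p x ^ 2) ^ 2 / 2) fun t ht => ?_)
    (le_of_small (c := T) fun t ht => ?_)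
  · have h1 := (lo t).trans_eq (e t ht)
    obtain ⟨u, hu⟩ : ∃ u, u = t ^ 2 * p x ^ 2 / 2 := ⟨_, rfl⟩
    have u0 : 0 ≤ u := by rw [hu]; positivity
    have h2 : Real.exp (-u) ≤ 1 - u + u ^ 2 := by
      rw [Real.exp_neg, inv_le_comm₀ (Real.exp_pos _) (by nlinarith)]
      refine le_trans ?_ (Real.add_one_le_exp u)
      rw [inv_le_iff_one_le_mul₀ (by nlinarith)]
      nlinarith [pow_nonneg u0 3]
    rw [← hu] at h1
    have h3 := h1.trans (mul_le_mul_of_nonneg_left h2 B0.le)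
    rw [hu] at h3
    refine le_of_mul_le_mul_left ?_ (pow_pos ht 2)
    linarith
  · have h1 := (e t ht).symm.trans_le (up t)
    have h3 := (mul_le_mul_of_nonneg_left
      (Real.add_one_le_exp (-(t ^ 2 * p x ^ 2 / 2))) B0.le).trans h1
    refine le_of_mul_le_mul_left ?_ (pow_pos ht 2)
    linarith

lemma Nice.ell (H : Nice p h R)
    (hq : ∀ x, (∫ y, Real.exp (-(h y ^ 2 / 2))) * p x ^ 2 =
      ∫ y, Real.exp (-(h y ^ 2 / 2)) * ⟪x, y⟫ ^ 2) :
    ∃ A : Eu n →ₗ[ℝ] Eu n, LinearMap.det A ≠ 0 ∧ ∀ v, p (A v) = ‖v‖ := by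
  have ch := H.ch
  have hR := H.pos
  have B0 : 0 < ∫ x, Real.exp (-(h x ^ 2 / 2)) :=
    integral_exp_pos (int_hom H.hh (vol_fin H.pos H.bh))
  have ii : ∀ x x' : Eu n, Integrable fun y => Real.exp (-(h y ^ 2 / 2)) * (⟪x, y⟫ * ⟪x', y⟫) :=
    fun x x' => by
      refine ((H.int_in 1 x).add (H.int_in 1 x')).mono'
        (Continuous.aestronglyMeasurable (by fun_prop)) (Eventually.of_forall fun y => ?_)
      rw [norm_mul, Real.norm_of_nonneg (Real.exp_pos _).le, Pi.add_apply, ← mul_add]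
      rw [mul_one]
      refine mul_le_mul_of_nonneg_left (abs_le.2 ⟨?_, ?_⟩) (Real.exp_pos _).le
      · nlinarith [sq_nonneg (⟪x, y⟫ + ⟪x', y⟫), sq_nonneg ⟪x, y⟫, sq_nonneg ⟪x', y⟫]
      · nlinarith [sq_nonneg (⟪x, y⟫ - ⟪x', y⟫), sq_nonneg ⟪x, y⟫, sq_nonneg ⟪x', y⟫]
  let G : LinearMap.BilinForm ℝ (Eu n) := LinearMap.mk₂ ℝ
    (fun x x' => ∫ y, Real.exp (-(h y ^ 2 / 2)) * (⟪x, y⟫ * ⟪x', y⟫))
    (fun a b c => by
      rw [← integral_add (ii a c) (ii b c)]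
      simp only [inner_add_left, add_mul, mul_add])
    (fun t a c => by
      rw [smul_eq_mul, ← integral_const_mul]
      simp only [real_inner_smul_left, mul_assoc, mul_left_comm t])
    (fun a b c => by
      rw [← integral_add (ii a b) (ii a c)]
      simp only [inner_add_left, mul_add])
    (fun t a c => by
      rw [smul_eq_mul, ← integral_const_mul]
      simp only [real_inner_smul_left, mul_left_comm t])
  set B := ∫ x, Real.exp (-(h x ^ 2 / 2))
  have gG : ∀ x, G x x = B * p x ^ 2 := fun x => by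
    rw [hq]
    simp only [G, LinearMap.mk₂_apply, sq]
  have sy : LinearMap.IsSymm G :=
    ⟨fun x y => by simp only [G, LinearMap.mk₂_apply, mul_comm, RingHom.id_apply]⟩
  obtain ⟨b, hb⟩ := LinearMap.BilinForm.exists_orthogonal_basis sy
  have pp : ∀ x, x ≠ 0 → 0 < p x := fun x hx =>
    pos_of_mul_pos_left ((norm_pos_iff.2 hx).trans_le ((H.bp x).trans_eq (mul_comm _ _))) hR.le
  let σ : Fin n ≃ Fin (finrank ℝ (Eu n)) := finCongr finrank_euclideanSpace_fin.symm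
  let w : Fin n → Eu n := fun i => (p (b (σ i)))⁻¹ • b (σ i)
  have hw : ∀ i j, G (w i) (w j) = if i = j then B else 0 := fun i j => by
    split_ifs with hij
    · have := pp _ (b.ne_zero (σ j))
      rw [hij, gG, H.hp.smul _ _ (inv_pos.2 this), inv_mul_cancel₀ this.ne', one_pow, mul_one]
    · have : G (b (σ i)) (b (σ j)) = 0 := hb (σ.injective.ne hij)
      simp only [w, map_smul, LinearMap.smul_apply, this, smul_zero]
  let A : Eu n →ₗ[ℝ] Eu n := (EuclideanSpace.basisFun (Fin n) ℝ).toBasis.constr ℝ w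
  have hA : ∀ v, p (A v) = ‖v‖ := fun v => by
    have e1 : A v = ∑ i, v i • w i := by simp [A, Basis.constr_apply_fintype]
    have e2 : G (A v) (A v) = B * ‖v‖ ^ 2 := by
      rw [e1, EuclideanSpace.real_norm_sq_eq]
      simp only [map_sum, map_smul, LinearMap.sum_apply, LinearMap.smul_apply, hw, smul_eq_mul,
        mul_ite, mul_zero, Finset.sum_ite_eq', Finset.mem_univ, if_true, Finset.mul_sum]
      exact Finset.sum_congr rfl fun i _ => by ring
    rw [gG] at e2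
    exact (pow_left_inj₀ (H.hp.nonneg _) (norm_nonneg _) two_ne_zero).1
      (mul_left_cancel₀ B0.ne' e2)
  refine ⟨A, fun h0 => ?_, hA⟩
  obtain ⟨v, hv, v0⟩ := (Submodule.ne_bot_iff _).1 (LinearMap.det_eq_zero_iff_ker_ne_bot.1 h0)
  have := hA v
  rw [LinearMap.mem_ker.1 hv, hom_zero H.hp] at this
  exact v0 (norm_eq_zero.1 this.symm)

lemma hom_bd (hp : Hom p) (hR : 0 < R) (hb : ∀ x, p x ≤ 1 → ‖x‖ ≤ R) (x : Eu n) :
    ‖x‖ ≤ R * p x := by
  refine le_of_forall_pos_le_add fun ε hε => ?_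
  have h0 := hp.nonneg x
  have h2 : 0 < ε / R := by positivity
  have s0 : 0 < p x + ε / R := by positivity
  have := hb ((p x + ε / R)⁻¹ • x) (by
    rw [hp.smul _ _ (inv_pos.2 s0), inv_mul_le_iff₀ s0]; linarith)
  rw [norm_smul, Real.norm_of_nonneg (inv_pos.2 s0).le, inv_mul_le_iff₀ s0, add_mul,
    div_mul_cancel₀ _ hR.ne'] at this
  linarith

lemma Nice.freq (H : Nice p h R)
    (hc : ∀ y : Eu n, ∫⁻ x in {x | p x ≤ 1}, ENNReal.ofReal ⟪x, y⟫ =
      ∫⁻ x in {x | p x ≤ 1}, ENNReal.ofReal (-⟪x, y⟫)) {ρ : ℝ} (h0 : 0 < ρ) (h1 : ρ < 1)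
    (hN : N1 (n := n) (fun x => ‖x‖) (fun x => ‖x‖) ρ ≤ N1 p h ρ) :
    ∃ᶠ v : ℝ in atTop, 0 < ρ * (√(1 + v ^ 2))⁻¹ ∧ ρ * (√(1 + v ^ 2))⁻¹ < 1 ∧
      E1 p h (ρ * (√(1 + v ^ 2))⁻¹) =
        E1 (n := n) (fun x => ‖x‖) (fun x => ‖x‖) (ρ * (√(1 + v ^ 2))⁻¹) := by
  have hpi := Real.pi_pos
  have e : ∀ v : ℝ, 0 < 1 + v ^ 2 := fun v => by positivity
  have u1 : ∀ v : ℝ, (√(1 + v ^ 2))⁻¹ ≤ 1 := fun v => inv_le_one_of_one_le₀
    (Real.one_le_sqrt.2 (le_add_of_nonneg_right (sq_nonneg v)))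
  have t0 : ∀ v : ℝ, 0 < ρ * (√(1 + v ^ 2))⁻¹ := fun v => by positivity
  have t1 : ∀ v : ℝ, ρ * (√(1 + v ^ 2))⁻¹ ≤ ρ := fun v => mul_le_of_le_one_right h0.le (u1 v)
  have t2 : ∀ v : ℝ, (ρ * (√(1 + v ^ 2))⁻¹) ^ 2 ≤ ρ ^ 2 := fun v =>
    pow_le_pow_left₀ (t0 v).le (t1 v) 2
  have r2 : ρ ^ 2 < 1 := by nlinarith
  have eb : ∀ v : ℝ, E1 (n := n) (fun x => ‖x‖) (fun x => ‖x‖) (ρ * (√(1 + v ^ 2))⁻¹) =
      ENNReal.ofReal ((2 * π / √(1 - (ρ * (√(1 + v ^ 2))⁻¹) ^ 2)) ^ n) := fun v =>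
    gauss2 ((t2 v).trans_lt r2)
  have h2 := mul_le_mul_right (mul_le_mul_right hN (ENNReal.ofReal (√(π / (1 / 2)) / 2)))
    (ENNReal.ofReal (√(π / (1 / 2)) / 2))
  rw [mix1 H.hp H.hh, mix1 hom_norm hom_norm] at h2
  have le : ∀ v : ℝ, ENNReal.ofReal (1 + v ^ 2)⁻¹ * (ENNReal.ofReal ((√(1 + v ^ 2))⁻¹ ^ n) *
      E1 p h (ρ * (√(1 + v ^ 2))⁻¹)) ≤ ENNReal.ofReal (1 + v ^ 2)⁻¹ *
      (ENNReal.ofReal ((√(1 + v ^ 2))⁻¹ ^ n) *
      E1 (n := n) (fun x => ‖x‖) (fun x => ‖x‖) (ρ * (√(1 + v ^ 2))⁻¹)) := fun v =>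
    mul_le_mul_right (mul_le_mul_right (E1_le H.hp H.hh H.cp H.ch H.le (vol_fin H.pos H.bp)
      (vol_fin H.pos H.bh) hc (t0 v).le ((t1 v).trans_lt h1)) _) _
  have fin : ∫⁻ v in Ioi (0 : ℝ), ENNReal.ofReal (1 + v ^ 2)⁻¹ *
      (ENNReal.ofReal ((√(1 + v ^ 2))⁻¹ ^ n) * E1 p h (ρ * (√(1 + v ^ 2))⁻¹)) ≠ ∞ := by
    refine ne_top_of_le_ne_top (b := ∫⁻ v in Ioi (0 : ℝ), ENNReal.ofReal (1 + v ^ 2)⁻¹ *
      ENNReal.ofReal ((2 * π / √(1 - ρ ^ 2)) ^ n)) ?_ (lintegral_mono fun v => (le v).trans ?_)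
    · rw [lintegral_mul_const' _ _ ENNReal.ofReal_ne_top]
      exact ENNReal.mul_ne_top integrable_inv_one_add_sq.integrableOn.lintegral_lt_top.ne
        ENNReal.ofReal_ne_top
    · refine mul_le_mul_right ?_ _
      rw [eb, ← ENNReal.ofReal_mul (by positivity)]
      refine ENNReal.ofReal_le_ofReal ((mul_le_of_le_one_left (by positivity)
        (pow_le_one₀ (by positivity) (u1 v))).trans ?_)
      have : 0 < √(1 - ρ ^ 2) := Real.sqrt_pos.2 (by linarith)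
      gcongr
      exact t1 v
  have ae := ae_eq_of_ae_le_of_lintegral_le (Eventually.of_forall le) fin
    (by simp only [eb]; fun_prop) h2
  refine frequently_atTop.2 fun a => ?_
  have hm : volume.restrict (Ioi (0 : ℝ)) (Ici a) ≠ 0 := by
    rw [Measure.restrict_apply measurableSet_Ici]
    refine ((isOpen_Ioi (a := max a 0)).measure_pos volume nonempty_Ioi).trans_le
      (measure_mono fun v hv => ?_) |>.ne'
    have hv' : max a 0 < v := hv
    exact ⟨(le_max_left a 0).trans hv'.le, (le_max_right a 0).trans_lt hv'⟩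
  obtain ⟨v, hv, hv'⟩ := Measure.exists_mem_of_measure_ne_zero_of_ae hm (ae_restrict_of_ae ae)
  refine ⟨v, hv, t0 v, (t1 v).trans_lt h1, ?_⟩
  have n1 : ENNReal.ofReal (1 + v ^ 2)⁻¹ ≠ 0 := by
    rw [Ne, ENNReal.ofReal_eq_zero, not_le]
    exact inv_pos.2 (e v)
  have n2 : ENNReal.ofReal ((√(1 + v ^ 2))⁻¹ ^ n) ≠ 0 := by
    rw [Ne, ENNReal.ofReal_eq_zero, not_le]
    positivity
  exact (ENNReal.mul_right_inj n2 ENNReal.ofReal_ne_top).1
    ((ENNReal.mul_right_inj n1 ENNReal.ofReal_ne_top).1 hv')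

/-- If the bound of the ball is attained, then the body is an ellipsoid. -/
theorem ell_of_le {K : Set (Eu n)} (hK : IsCompact K) (hc : Convex ℝ K)
    (hi : (interior K).Nonempty) {ρ : ℝ} (h0 : 0 < ρ) (h1 : ρ < 1)
    (hf : funk (closedBall (0 : Eu n) 1) ρ 0 ≤ funk K ρ (⨍ x in K, x)) :
    ∃ (c : Eu n) (A : Eu n →ₗ[ℝ] Eu n), LinearMap.det A ≠ 0 ∧
      K = {y | ∃ v, ‖v‖ ≤ 1 ∧ y = c + A v} := by
  have hi := centroid_mem hK hc hi
  have h2 := setAverage_sub_setAverage (μ := volume) hK.measure_lt_top.ne fun x : Eu n => x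
  set c := ⨍ x in K, x with hcd
  obtain ⟨h, ch, cp, H⟩ := exists_dual hK hc hi
  set p := gauge {u | u + c ∈ K} with hp
  have hS : {x | p x ≤ 1} = (fun x => x + c) ⁻¹' K := by
    ext x
    rw [mem_preimage, H.mem, add_sub_cancel_right, mem_ofPred_eq]
  obtain ⟨R₁, hR₁⟩ := hK.isBounded.subset_closedBall c
  obtain ⟨δ, d0, hd⟩ := nhds_basis_closedBall.mem_iff.1 (mem_interior_iff_mem_nhds.1 hi)
  have R0 : 0 < max R₁ (1 / δ) := lt_max_of_lt_right (by positivity)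
  have bp : ∀ x, p x ≤ 1 → ‖x‖ ≤ max R₁ (1 / δ) := fun x hx => by
    have := hR₁ ((H.mem (x + c)).2 (by rwa [add_sub_cancel_right]))
    rw [mem_closedBall, dist_eq_norm, add_sub_cancel_right] at this
    exact this.trans (le_max_left _ _)
  have bh : ∀ w, h w ≤ 1 → ‖w‖ ≤ max R₁ (1 / δ) := fun w hw => by
    refine le_trans ?_ (le_max_right _ _)
    rw [le_div_iff₀ d0]
    by_cases w0 : w = 0
    · simp [w0]
    have hn := norm_pos_iff.2 w0
    have := (H.sup w 1).2 hw (c + (δ * ‖w‖⁻¹) • w) (hd (by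
      simp [norm_smul, abs_of_pos d0, hn.ne']))
    rwa [add_sub_cancel_left, real_inner_smul_right, real_inner_self_eq_norm_sq, sq, mul_assoc,
      inv_mul_cancel_left₀ hn.ne', mul_comm] at this
  have N : Nice p h (max R₁ (1 / δ)) :=
    ⟨H.hp, H.hh, cp, ch, H.inner_le, hom_bd H.hp R0 bp, hom_bd H.hh R0 bh, R0⟩
  have hcen : ∀ y : Eu n, ∫⁻ x in {x | p x ≤ 1}, ENNReal.ofReal ⟪x, y⟫ =
      ∫⁻ x in {x | p x ≤ 1}, ENNReal.ofReal (-⟪x, y⟫) := fun y => by
    have a := fun f : Eu n → ℝ≥0∞ =>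
      (measurePreserving_add_right volume c).setLIntegral_comp_preimage_emb
        (measurableEmbedding_addRight c) (fun x => f (x - c)) K
    simp only [add_sub_cancel_right] at a
    have hI : IntegrableOn (fun x : Eu n => ⟪y, x - c⟫) K :=
      (by fun_prop : Continuous fun x : Eu n => ⟪y, x - c⟫).continuousOn.integrableOn_compact hK
    have b := integral_eq_lintegral_pos_part_sub_lintegral_neg_part hI
    rw [integral_inner ((by fun_prop : Continuous fun x : Eu n =>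
      x - c).continuousOn.integrableOn_compact hK), h2, inner_zero_right, eq_comm, sub_eq_zero,
      ENNReal.toReal_eq_toReal_iff' hI.lintegral_lt_top.ne hI.fun_neg.lintegral_lt_top.ne] at b
    simp only [hS, real_inner_comm y]
    rw [a fun x => ENNReal.ofReal ⟪y, x⟫, a fun x => ENNReal.ofReal (-⟪y, x⟫), b]
  have hN : N1 (n := n) (fun x => ‖x‖) (fun x => ‖x‖) ρ ≤ N1 p h ρ := by
    have h3 := mul_le_mul_right hf (ENNReal.ofReal (n !))
    rw [funk_eq H (interior_subset hi) h0 h1.le,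
      funk_eq dual_ball (mem_closedBall_self zero_le_one) h0 h1.le] at h3
    simp only [sub_self, smul_zero, inner_zero_right, add_zero] at h3
    refine (ENNReal.mul_le_mul_iff_right ?_ ENNReal.ofReal_ne_top).1 h3
    rw [Ne, ENNReal.ofReal_eq_zero, not_le]
    positivity
  have lim : Tendsto (fun v : ℝ => ρ * (√(1 + v ^ 2))⁻¹) atTop (𝓝 0) := by
    have : Tendsto (fun v : ℝ => √(1 + v ^ 2)) atTop atTop :=
      Real.tendsto_sqrt_atTop.comp (tendsto_atTop_add_const_left _ _ (tendsto_pow_atTop two_ne_zero))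
    simpa using this.inv_tendsto_atTop.const_mul ρ
  obtain ⟨A, hA, hp'⟩ := N.ell (N.quad (N.cos_eq fun z hz =>
    N.strip lim (N.freq hcen h0 h1 hN) hz))
  refine ⟨c, A, hA, Set.ext fun y => ⟨fun hy => ?_, ?_⟩⟩
  · obtain ⟨v, hv⟩ := (A.equivOfDetNeZero hA).surjective (y - c)
    have hv' : A v = y - c := hv
    refine ⟨v, ?_, by rw [hv', add_sub_cancel]⟩
    rw [← hp', hv']
    exact (H.mem y).1 hy
  · rintro ⟨v, hv, rfl⟩
    rw [H.mem, add_sub_cancel_left, hp']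
    exact hv

/-- The minimal value for an ellipsoid. -/
theorem ell_val {A : Eu n →ₗ[ℝ] Eu n} (hA : LinearMap.det A ≠ 0) (c : Eu n) {ρ : ℝ} (h0 : 0 < ρ)
    (h1 : ρ < 1) : ⨅ q ∈ interior {y | ∃ v, ‖v‖ ≤ 1 ∧ y = c + A v},
      funk {y | ∃ v, ‖v‖ ≤ 1 ∧ y = c + A v} ρ q = funk (closedBall (0 : Eu n) 1) ρ 0 := by
  have h := fun u => funk_affine (isCompact_closedBall (0 : Eu n) 1) hA c u ρ
  simp only [mem_closedBall_zero_iff] at h
  refine le_antisymm (iInf₂_le_of_le (c + A 0) ?_ (h 0).le) (le_iInf₂ fun q hq => ?_)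
  · have ho : IsOpen ((fun v => c + A v) '' ball (0 : Eu n) 1) :=
      ((isOpenMap_add_left c).comp (A.isOpenMap_of_finiteDimensional
        (A.equivOfDetNeZero hA).surjective)) _ isOpen_ball
    refine interior_maximal ?_ ho ⟨0, mem_ball_self one_pos, rfl⟩
    rintro _ ⟨v, hv, rfl⟩
    exact ⟨v, (mem_ball_zero_iff.1 hv).le, rfl⟩
  · obtain ⟨u, hu, rfl⟩ := interior_subset hq
    rw [h]
    exact funk_sym (isCompact_closedBall _ _) (convex_closedBall _ _)
      (mem_interior_iff_mem_nhds.2 (closedBall_mem_nhds _ one_pos)) (fun z hz => by simpa using hz)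
      h0 h1 (mem_closedBall_zero_iff.2 hu)

end Pool.Agent.MP_19b6be_gt.Eqc
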