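import Mathlib
import Pool.Agent.MP_19b6be_gt.Geom

set_option autoImplicit false
open MeasureTheory

namespace Pool.Agent.MP_19b6be_gt.SymmetricCase

/-- For every centrally symmetric convex body K in R^n and every r > 0, the minimum over centres q
of the integral over the Funk ball q + (1 - e^(-r)) (K - q) of the volume of the polar of K about x
is at most the same quantity for the Euclidean unit ball. -/
theorem result :
    ∀ (n : ℕ) (K : Set (EuclideanSpace ℝ (Fin n))),
      IsCompact K → Convex ℝ K → (interior K).Nonempty →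
      (∃ c : EuclideanSpace ℝ (Fin n), ∀ z ∈ K, (2 : ℝ) • c - z ∈ K) →
      ∀ r : ℝ, 0 < r →
        (⨅ q ∈ interior K,
            ∫⁻ x in {y | ∃ z ∈ K, y = q + (1 - Real.exp (-r)) • (z - q)},
              volume {w : EuclideanSpace ℝ (Fin n) | ∀ z ∈ K, inner ℝ w (z - x) ≤ 1})
        ≤
        (⨅ q ∈ interior (Metric.closedBall (0 : EuclideanSpace ℝ (Fin n)) 1),
            ∫⁻ x in {y | ∃ z ∈ Metric.closedBall (0 : EuclideanSpace ℝ (Fin n)) 1,
                      y = q + (1 - Real.exp (-r)) • (z - q)},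
              volume {w : EuclideanSpace ℝ (Fin n) |
                ∀ z ∈ Metric.closedBall (0 : EuclideanSpace ℝ (Fin n)) 1,
                  inner ℝ w (z - x) ≤ 1}) := by
  rintro n K hK hc ⟨z, hz⟩ ⟨c, hs⟩ r hr
  have hi : c ∈ interior K := by
    have := hc.combo_interior_self_mem_interior hz (hs z (interior_subset hz))
      (a := 1 / 2) (b := 1 / 2) (by norm_num) (by norm_num) (by norm_num)
    rwa [show (1 / 2 : ℝ) • z + (1 / 2 : ℝ) • ((2 : ℝ) • c - z) = c by module] at this
  have h0 : 0 < 1 - Real.exp (-r) := sub_pos.2 (Real.exp_lt_one_iff.2 (neg_lt_zero.2 hr))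
  have h1 : 1 - Real.exp (-r) < 1 := sub_lt_self _ (Real.exp_pos _)
  exact le_iInf₂ fun q hq => (iInf₂_le c hi).trans
    (Pool.Agent.MP_19b6be_gt.funk_sym hK hc hi hs h0 h1 (interior_subset hq))

end Pool.Agent.MP_19b6be_gt.SymmetricCase
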